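import Pool.Agent.P.MP_d1873d_pr.Dyn

/-! The plus and minus fields at time one and their exponential locality. -/

namespace Pool.Agent.EB

open MeasureTheory Set Measure
open scoped ENNReal

namespace Rate

variable (Q : Rate)

/-- plus sites at time one -/
def Op (E : V → ℝ≥0∞) : Set V := {v | (v, (1 : ℝ)) ∈ Q.Sig E}

noncomputable def Fp : Fld ℝ≥0∞ where
  O := {E | 0 ∈ Q.Op E}
  meas := Q.measurableSet_Sig 0 1
  le a b := b ≤ a
  refl _ := le_rfl
  lo := ∞
  hi := 0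
  lo_le _ := le_top
  le_hi _ := zero_le
  up _ _ h hE := Q.Sig_anti h hE
  r := nn
  r_near _ _ := nn_st
  r_symm _ _ := nn_symm
  r_add := nn_add

noncomputable def Fm : Fld ℝ≥0∞ where
  O := {E | 0 ∉ Q.Op E}
  meas := (Q.measurableSet_Sig 0 1).compl
  le a b := a ≤ b
  refl _ := le_rfl
  lo := 0
  hi := ∞
  lo_le _ := zero_le
  le_hi _ := le_top
  up _ _ h hE h2 := hE (Q.Sig_anti h h2)
  r := st
  r_near _ _ := id
  r_symm _ _ := st_symm
  r_add := st_add

lemma opn_Fp (E : V → ℝ≥0∞) : opn Q.Fp.O E = Q.Op E := by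
  ext v; simp [opn, Fp, Op, Sig_sh]

lemma opn_Fm (E : V → ℝ≥0∞) : opn Q.Fm.O E = (Q.Op E)ᶜ := by
  ext v; simp [opn, Fm, Op, Sig_sh]

lemma unk_Fm (ρ : ℕ) : Q.Fm.Unk ρ = Q.Fp.Unk ρ := by
  ext E; simp [Fld.Unk, Fm, Fp, and_comm]

lemma measurableSet_Op (v : V) : MeasurableSet {E | v ∈ Q.Op E} := Q.measurableSet_Sig v 1

lemma Op_anti {E E' : V → ℝ≥0∞} (h : ∀ x, E x ≤ E' x) : Q.Op E' ⊆ Q.Op E :=
  fun _ hv => Q.Sig_anti h hv

lemma window (m : Measure ℝ≥0∞) [IsProbabilityMeasure m] (β : ℝ≥0∞) (a b : ℝ)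
    (hm : ∀ c, m (Ico c (c + ENNReal.ofReal (b - a))) ≤ β) (ρ : ℕ) (A : Finset V) :
    Pm V m {E | (A : Set V) ⊆ {y | y ∈ {y | d 0 y < ρ} ∧ (y, a) ∉ Q.Sig (cut ρ E 0) ∧
      (y, b) ∈ Q.Sig (cut ρ E 0)}} ≤ β ^ A.card := by
  let L : V → (V → ℝ≥0∞) → ℝ≥0∞ := fun y E => Q.Lam (Q.Sig (frz A (cut ρ E 0))) y a
  have mL : ∀ y, Measurable (L y) := fun y =>
    (Q.measurable_Lam_frz A y).comp ((measurable_cut ρ 0).prodMk measurable_const)
  have := measure_cond (fun _ : V => m) A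
    (fun y E => Ico (L y E) (L y E + ENNReal.ofReal (b - a)))
    (fun y => (measurableSet_le ((mL y).comp measurable_fst) measurable_snd).inter
      (measurableSet_lt measurable_snd (((mL y).comp measurable_fst).add_const _)))
    (fun y E E' => by
      have : frz A (cut ρ (pw A E E') 0) = frz A (cut ρ E' 0) := by
        ext x; unfold frz cut pw; split_ifs <;> rfl
      simp only [L, this])
  refine le_trans (measure_mono ?_) (this.le.trans ?_)
  · intro E hE y hy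
    have h1 : ∀ y ∈ (A : Set V), (y, a) ∉ Q.Sig (cut ρ E 0) := fun y hy => (hE hy).2.1
    have h2 : cut ρ E 0 y = E y := pw_mem _ _ (hE hy).1
    refine ⟨h2 ▸ Q.freeze_iff.1 h1 y hy, ?_⟩
    have h3 := (Q.mem_Sig.1 (hE hy).2.2).trans_le (Q.Lam_add _ y a b)
    rwa [h2, Q.Lam_frz h1] at h3
  · refine (lintegral_mono (g := fun _ => β ^ A.card) fun E => ?_).trans (by simp)
    exact Finset.prod_le_pow_card _ _ _ fun y _ => hm _

theorem locality (T : ℝ) : ∃ u, ExpDecay u ∧ ∀ (m : Measure ℝ≥0∞) [IsProbabilityMeasure m],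
    (∀ c δ, 0 < δ → m (Ico c (c + ENNReal.ofReal δ)) ≤ ENNReal.ofReal (T * δ)) →
    ∀ ρ, (Pm V m).real (Q.Fp.Unk ρ) ≤ u ρ := by
  obtain ⟨M, hM⟩ := exists_nat_gt (max (18 * T) 0)
  have M0 : (0 : ℝ) < M := (le_max_right _ _).trans_lt hM
  have M1 : 18 * T < M := (le_max_left _ _).trans_lt hM
  have M2 : 0 < M := by exact_mod_cast M0
  refine ⟨_, ((expDecay_div (M + 1) (by omega)).poly 2).const_mul (c := 4 * M) (by positivity),
    fun m _ hm ρ => ?_⟩
  rcases Nat.eq_zero_or_pos ρ with rfl | hρ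
  · refine measureReal_le_one.trans ?_
    have : (1 : ℝ) ≤ M := by exact_mod_cast M2
    simp only [Nat.zero_div]; norm_num; linarith
  obtain ⟨l, hl⟩ : ∃ l, l = ρ / (M + 1) := ⟨_, rfl⟩
  simp only [← hl]
  have hl2 : M * l < ρ := by
    have := Nat.div_mul_le_self ρ (M + 1)
    rw [← hl] at this
    rcases Nat.eq_zero_or_pos l with h | h
    · simpa [h] using hρ
    · nlinarith
  let W : ℕ → (V → ℝ≥0∞) → Set V := fun j E => {y | y ∈ {y | d 0 y < ρ} ∧
    (y, (j : ℝ) / M) ∉ Q.Sig (cut ρ E 0) ∧ (y, ((j + 1 : ℕ) : ℝ) / M) ∈ Q.Sig (cut ρ E 0)}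
  have hsub : Q.Fp.Unk ρ ⊆ ⋃ j ∈ Finset.range M, ⋃ x ∈ box 0 ρ, {E | Arm st (W j E) x l} := by
    rintro E ⟨h1, h2⟩
    by_contra hne
    simp only [mem_iUnion, not_exists, Finset.mem_range, mem_box, mem_ofPred_eq] at hne
    have : ∀ j ≤ M, ∀ y, d 0 y + j * l < ρ → ∀ s ≤ (j : ℝ) / M,
        (y, s) ∈ Q.Sig (cut ρ E 0) → (y, s) ∈ Q.Sig (cut ρ E ∞) := by
      intro j
      induction j with
      | zero => intro _ y _ s hs h; exact absurd h (Q.notMem_zero _ _ (by simpa using hs))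
      | succ j ih =>
        intro hj x hx
        rw [add_mul, one_mul] at hx
        refine Q.agree_step (D := {y | d 0 y < ρ}) (l := l) (a := (j : ℝ) / M) (fun y hy => ?_)
          (fun y hy => ?_) (fun y hy => ih (by omega) y ?_) (hne j hj x (by omega))
        · rw [cut, cut, pw_mem _ _ hy, pw_mem _ _ hy]
        · have := d_tri 0 x y
          simp only [mem_ofPred_eq]; omega
        · have := d_tri 0 x y
          omega
    exact h2 (this M le_rfl 0 (by simpa using hl2) 1 (by rw [div_self M0.ne']) h1)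
  have hP : ∀ j x, (Pm V m).real {E | Arm st (W j E) x l} ≤ (1 / 2) ^ l := by
    intro j x
    have p := peierls (Pm V m) (W j) 18⁻¹ (Q.window m _ _ _ (fun c => ?_) ρ) l x
    · refine ENNReal.toReal_le_of_le_ofReal (by positivity) (p.trans ?_)
      have e1 : (9 * 18⁻¹ : ℝ≥0∞) = ENNReal.ofReal (1 / 2) := by
        rw [show (1 / 2 : ℝ) = 9 * 18⁻¹ by norm_num, ENNReal.ofReal_mul (by norm_num),
          ENNReal.ofReal_inv_of_pos (by norm_num)]
        simp
      rw [e1, ← ENNReal.ofReal_pow (by norm_num)]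
      exact mul_le_of_le_one_right' (by norm_num)
    · have e : ((j + 1 : ℕ) : ℝ) / M - j / M = 1 / M := by push_cast; ring
      rw [e]
      refine (hm c _ (by positivity)).trans ?_
      rw [show (18⁻¹ : ℝ≥0∞) = ENNReal.ofReal 18⁻¹ by
        rw [ENNReal.ofReal_inv_of_pos (by norm_num)]; simp]
      refine ENNReal.ofReal_le_ofReal ?_
      rw [mul_one_div, div_le_iff₀ M0]; linarith
  refine (rmono hsub).trans ((measureReal_biUnion_finset_le _ _).trans ?_)
  refine (Finset.sum_le_card_nsmul _ _ _ fun j _ => (measureReal_biUnion_finset_le _ _).trans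
    (Finset.sum_le_card_nsmul _ _ _ fun x _ => hP j x)).trans ?_
  rw [Finset.card_range, card_box, nsmul_eq_mul, nsmul_eq_mul]
  push_cast
  have : (2 * ρ + 1 : ℝ) ^ 2 ≤ 4 * (ρ + 1) ^ 2 := by
    have : (0 : ℝ) ≤ ρ := by positivity
    nlinarith
  calc (M : ℝ) * ((2 * ρ + 1) ^ 2 * (1 / 2) ^ l) ≤ M * (4 * (ρ + 1) ^ 2 * (1 / 2) ^ l) := by gcongr
    _ = _ := by ring

end Rate

end Pool.Agent.EB
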