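import Pool.Agent.P.MP_d1873d_pr.Explore

/-! Sharpness of the phase transition for local monotone fields. -/

namespace Pool.Agent.EB

open MeasureTheory Set Measure Filter Topology
open scoped ENNReal

lemma log_sum_le (g : ℕ → ℝ) (hg : ∀ i, 0 ≤ g i) (n : ℕ) :
    Real.log (1 + ∑ i ∈ Finset.range (n + 1), g i) - Real.log (1 + g 0) ≤
      ∑ k ∈ Finset.Icc 1 n, g k / (1 + ∑ i ∈ Finset.range k, g i) := by
  induction n with
  | zero => simp
  | succ n ih =>
    rw [Finset.sum_Icc_succ_top (by omega), Finset.sum_range_succ g (n + 1)]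
    set S := 1 + ∑ i ∈ Finset.range (n + 1), g i with hS
    have S0 : 0 < S := by have := Finset.sum_nonneg fun i (_ : i ∈ Finset.range (n + 1)) => hg i
                          linarith
    have h1 : Real.log (1 + (∑ i ∈ Finset.range (n + 1), g i + g (n + 1))) =
        Real.log S + Real.log (1 + g (n + 1) / S) := by
      have := hg (n + 1)
      rw [← Real.log_mul S0.ne' (by positivity)]
      congr 1; field_simp; rw [hS]; ring
    have h2 := Real.log_le_sub_one_of_pos (x := 1 + g (n + 1) / S) (by have := hg (n + 1); positivity)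
    linarith

lemma drt (g : ℕ → ℕ → ℝ) (h0 : ∀ j k, 0 ≤ g j k) (h1 : ∀ j, g j 0 ≤ 1) (M n : ℕ) (y Z : ℝ)
    (hy : 0 ≤ y) (Z0 : 0 < Z) (hZ : ∀ j < M, Z ≤ 1 + ∑ i ∈ Finset.range (n + 1), g j i)
    (hs : ∀ j < M, ∀ k ≤ n, g j k * (1 + y * k / (1 + ∑ i ∈ Finset.range k, g j i)) ≤ g (j + 1) k) :
    M * y * (Real.log Z - Real.log 2) ≤ ∑ k ∈ Finset.Icc 1 n, g M k / k := by
  have : ∀ j ≤ M, j * y * (Real.log Z - Real.log 2) ≤ ∑ k ∈ Finset.Icc 1 n, g j k / k := by
    intro j
    induction j with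
    | zero =>
      intro _
      simp only [Nat.cast_zero, zero_mul]
      exact Finset.sum_nonneg fun k _ => div_nonneg (h0 _ _) (by positivity)
    | succ j ih =>
      intro hj
      have a1 := ih (by omega)
      have a2 := log_sum_le (g j) (h0 j) n
      have a3 : Real.log Z ≤ Real.log (1 + ∑ i ∈ Finset.range (n + 1), g j i) :=
        Real.log_le_log Z0 (hZ j hj)
      have a4 : Real.log (1 + g j 0) ≤ Real.log 2 :=
        Real.log_le_log (by have := h0 j 0; linarith) (by have := h1 j; linarith)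
      have a5 : ∑ k ∈ Finset.Icc 1 n, g j k / k +
          y * ∑ k ∈ Finset.Icc 1 n, g j k / (1 + ∑ i ∈ Finset.range k, g j i) ≤
          ∑ k ∈ Finset.Icc 1 n, g (j + 1) k / k := by
        rw [Finset.mul_sum, ← Finset.sum_add_distrib]
        refine Finset.sum_le_sum fun k hk => ?_
        rw [Finset.mem_Icc] at hk
        have k0 : (0 : ℝ) < k := by exact_mod_cast hk.1
        refine le_trans (le_of_eq ?_) (div_le_div_of_nonneg_right (hs j hj k hk.2) k0.le)
        field_simp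
      have a6 := mul_le_mul_of_nonneg_left (show Real.log Z - Real.log 2 ≤ _ from
        le_trans (by linarith) a2) hy
      push_cast
      linarith
  exact this M le_rfl

lemma sqrt_grow {a b x : ℝ} (ha : 0 ≤ a) (hx : 0 ≤ x) (hx3 : x ≤ 3) (h : a * (1 + x) ≤ b) :
    √a * (1 + x / 3) ≤ √b := by
  refine le_trans ?_ (Real.sqrt_le_sqrt h)
  rw [Real.sqrt_mul ha]
  refine mul_le_mul_of_nonneg_left (Real.le_sqrt_of_sq_le ?_) (Real.sqrt_nonneg _)
  nlinarith

lemma final_analysis (g0 g1 : ℕ → ℝ) (c c0 : ℝ) (hc : 0 < c) (hc0 : 0 < c0) (L0 : ℕ)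
    (h0 : ∀ k, 0 ≤ g0 k) (hl : ∀ L ≥ L0, c0 ≤ (L + 1) * g0 L ^ 2)
    (h1 : ∀ k, g1 k ≤ 1) (hanti : Antitone g1)
    (h : ∀ n, c * (Real.log (1 + ∑ i ∈ Finset.range (n + 1), g0 i) - Real.log 2) ≤
      ∑ k ∈ Finset.Icc 1 n, g1 k / k) : ∀ k, c / 4 ≤ g1 k := by
  intro k0
  by_contra hk
  push Not at hk
  have up : ∀ n : ℕ, ∑ k ∈ Finset.Icc 1 n, g1 k / k ≤ k0 + c / 4 * (1 + Real.log (n + 1)) := by
    intro n
    have a1 : ∀ k ∈ Finset.Icc 1 n, g1 k / k ≤ (if k < k0 then 1 else 0) + c / 4 * (k : ℝ)⁻¹ := by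
      intro k hk'
      have k1 : (1 : ℝ) ≤ k := by exact_mod_cast (Finset.mem_Icc.1 hk').1
      split_ifs with h2
      · have : g1 k / k ≤ 1 := (div_le_one (by linarith)).2 ((h1 k).trans k1)
        have : 0 ≤ c / 4 * (k : ℝ)⁻¹ := by positivity
        linarith
      · rw [zero_add, div_eq_mul_inv]
        exact mul_le_mul_of_nonneg_right ((hanti (not_lt.1 h2)).trans hk.le) (by positivity)
    refine (Finset.sum_le_sum a1).trans ?_
    rw [Finset.sum_add_distrib, ← Finset.mul_sum, Finset.sum_boole]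
    refine add_le_add ?_ (mul_le_mul_of_nonneg_left ?_ (by positivity))
    · have : ((Finset.Icc 1 n).filter fun k => k < k0).card ≤ (Finset.range k0).card :=
        Finset.card_le_card fun k hk => by simpa using (Finset.mem_filter.1 hk).2
      rw [Finset.card_range] at this
      exact_mod_cast this
    · have a2 := harmonic_le_one_add_log n
      rw [harmonic_eq_sum_Icc] at a2
      push_cast at a2
      refine a2.trans (add_le_add le_rfl ?_)
      rcases Nat.eq_zero_or_pos n with rfl | hn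
      · simp
      · exact Real.log_le_log (by exact_mod_cast hn) (by linarith)
  have low : ∀ n : ℕ, 2 * L0 ≤ n + 1 → Real.log (c0 / 4) + Real.log (n + 1) ≤
      2 * Real.log (1 + ∑ i ∈ Finset.range (n + 1), g0 i) := by
    intro n hn
    have n0 : (0 : ℝ) < n + 1 := by positivity
    have a1 : ∀ i ∈ Finset.Ico L0 (n + 1), √(c0 / (n + 1)) ≤ g0 i := by
      intro i hi
      rw [Finset.mem_Ico] at hi
      refine Real.sqrt_le_iff.2 ⟨h0 i, ?_⟩
      rw [div_le_iff₀ n0]
      refine (hl i hi.1).trans ?_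
      rw [mul_comm]
      refine mul_le_mul_of_nonneg_left ?_ (by positivity)
      exact_mod_cast hi.2
    have a2 := Finset.card_nsmul_le_sum _ _ _ a1
    rw [Nat.card_Ico, nsmul_eq_mul, Nat.cast_sub (by omega)] at a2
    have a3 : ∑ i ∈ Finset.Ico L0 (n + 1), g0 i ≤ ∑ i ∈ Finset.range (n + 1), g0 i :=
      Finset.sum_le_sum_of_subset_of_nonneg (fun i hi => by simp at hi ⊢; omega) fun i _ _ => h0 i
    have a4 : (2 * L0 : ℝ) ≤ n + 1 := by exact_mod_cast hn
    have a5 : (n + 1) / 2 * √(c0 / (n + 1)) ≤ 1 + ∑ i ∈ Finset.range (n + 1), g0 i := by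
      have : (n + 1) / 2 * √(c0 / (n + 1)) ≤ (((n + 1 : ℕ) : ℝ) - L0) * √(c0 / (n + 1)) :=
        mul_le_mul_of_nonneg_right (by push_cast; linarith) (Real.sqrt_nonneg _)
      linarith
    have a6 := pow_le_pow_left₀ (by positivity) a5 2
    rw [mul_pow, Real.sq_sqrt (by positivity)] at a6
    rw [← Real.log_mul (by positivity) n0.ne']
    have a7 := Real.log_le_log (by positivity) a6
    rw [Real.log_pow] at a7
    refine le_trans (le_of_eq ?_) a7
    congr 1; field_simp; ring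
  have ht : Tendsto (fun n : ℕ => Real.log (n + 1)) atTop atTop :=
    Real.tendsto_log_atTop.comp (tendsto_atTop_add_const_right _ _ tendsto_natCast_atTop_atTop)
  obtain ⟨n, hn1, hn2⟩ := ((ht.eventually_gt_atTop
    (4 / c * (k0 + c / 4 + c * Real.log 2 - c / 2 * Real.log (c0 / 4)))).and
    (eventually_ge_atTop (2 * L0))).exists
  have b1 := up n
  have b2 := mul_le_mul_of_nonneg_left (low n (by omega)) hc.le
  have b3 := h n
  have b4 := mul_lt_mul_of_pos_left hn1 hc
  rw [← mul_assoc, mul_div_cancel₀ _ hc.ne'] at b4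
  nlinarith

section mix
variable {X : Type} [MeasurableSpace X] (ν0 ν1 : Measure X)

noncomputable def mix (p : ℝ) : Measure X := ENNReal.ofReal (1 - p) • ν0 + ENNReal.ofReal p • ν1

lemma mix_zero : mix ν0 ν1 0 = ν0 := by simp [mix]
lemma mix_one : mix ν0 ν1 1 = ν1 := by simp [mix]

variable [IsProbabilityMeasure ν0] [IsProbabilityMeasure ν1]

lemma mix_prob {p : ℝ} (h0 : 0 ≤ p) (h1 : p ≤ 1) : IsProbabilityMeasure (mix ν0 ν1 p) := by
  constructor
  simp only [mix, Measure.coe_add, Measure.coe_smul, Pi.add_apply, Pi.smul_apply, measure_univ,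
    smul_eq_mul, mul_one]
  rw [← ENNReal.ofReal_add (by linarith) h0]; simp

lemma mix_apply {p : ℝ} (h0 : 0 ≤ p) (h1 : p ≤ 1) (D : Set X) :
    mix ν0 ν1 p D = ENNReal.ofReal ((1 - p) * ν0.real D + p * ν1.real D) := by
  simp only [mix, Measure.coe_add, Measure.coe_smul, Pi.add_apply, Pi.smul_apply, smul_eq_mul]
  rw [ENNReal.ofReal_add (mul_nonneg (by linarith) measureReal_nonneg)
    (mul_nonneg h0 measureReal_nonneg), ENNReal.ofReal_mul (by linarith), ENNReal.ofReal_mul h0,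
    ofReal_measureReal (measure_ne_top _ _), ofReal_measureReal (measure_ne_top _ _)]

lemma russo_mix {le : X → X → Prop} (hr : ∀ a, le a a) {K : ℝ} (hK : 0 < K)
    (H : ∀ D, MeasurableSet D → (∀ a b, le a b → a ∈ D → b ∈ D) →
      ν1.real D * (1 - ν0.real D) ≤ K * (ν1.real D - ν0.real D))
    {p p' κ : ℝ} (h0 : 0 ≤ p) (h1 : p ≤ p') (h2 : p' ≤ 1) (κ0 : 0 ≤ κ) (κ1 : κ ≤ 1)
    (hκ : κ * (1 - p) ≤ 1 - p') {A : Set (V → X)} (mA : MeasurableSet A) (hA : Up le A)
    (Λ : Finset V) (dA : Dep Λ A) :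
    (Pm V (mix ν0 ν1 p)).real A + (p' - p) / K * κ ^ Λ.card *
      ∑ x ∈ Λ, (infl (mix ν0 ν1 p) A x).toReal ≤ (Pm V (mix ν0 ν1 p')).real A := by
  have := mix_prob ν0 ν1 h0 (h1.trans h2)
  have := mix_prob ν0 ν1 (h0.trans h1) h2
  have γ0 : 0 ≤ (p' - p) / K := div_nonneg (by linarith) hK.le
  have := russo (mix ν0 ν1 p) (mix ν0 ν1 p') (ENNReal.ofReal κ) (ENNReal.ofReal ((p' - p) / K))
    (by simpa using κ1) ?_ hr ?_ mA hA Λ dA
  · have h3 := ENNReal.toReal_mono (measure_ne_top _ _) this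
    rw [ENNReal.toReal_add (measure_ne_top _ _) (ENNReal.mul_ne_top (ENNReal.mul_ne_top
      ENNReal.ofReal_ne_top (ENNReal.pow_ne_top ENNReal.ofReal_ne_top))
      (ENNReal.sum_ne_top.2 fun x _ => infl_ne_top _ _ x)), ENNReal.toReal_mul, ENNReal.toReal_mul,
      ENNReal.toReal_pow, ENNReal.toReal_ofReal γ0, ENNReal.toReal_ofReal κ0,
      ENNReal.toReal_sum fun x _ => infl_ne_top _ _ x] at h3
    exact h3
  · refine Measure.le_iff'.2 fun D => ?_
    rw [Measure.smul_apply, smul_eq_mul, mix_apply _ _ h0 (h1.trans h2),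
      mix_apply _ _ (h0.trans h1) h2, ← ENNReal.ofReal_mul κ0]
    refine ENNReal.ofReal_le_ofReal ?_
    have a0 : 0 ≤ ν0.real D := measureReal_nonneg
    have b0 : 0 ≤ ν1.real D := measureReal_nonneg
    have : κ * p ≤ p' := by nlinarith
    nlinarith [mul_le_mul_of_nonneg_right hκ a0, mul_le_mul_of_nonneg_right this b0]
  · intro D mD hD
    have h4 := H D mD hD
    rw [mix_apply _ _ h0 (h1.trans h2), mix_apply _ _ h0 (h1.trans h2),
      mix_apply _ _ (h0.trans h1) h2, probReal_compl_eq_one_sub mD, probReal_compl_eq_one_sub mD]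
    set a := ν0.real D
    set b := ν1.real D
    have a0 : 0 ≤ a := measureReal_nonneg
    have b0 : 0 ≤ b := measureReal_nonneg
    have a1 : a ≤ 1 := measureReal_le_one
    have b1 : b ≤ 1 := measureReal_le_one
    have ab : a ≤ b := by
      have := (mul_nonneg b0 (sub_nonneg.2 a1)).trans h4
      exact sub_nonneg.1 (nonneg_of_mul_nonneg_right this hK)
    have p1 : 0 ≤ 1 - p := by linarith
    have u0 : 0 ≤ (1 - p) * a + p * b := by positivity
    have w0 : 0 ≤ (1 - p) * (1 - a) + p * (1 - b) :=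
      add_nonneg (mul_nonneg p1 (by linarith)) (mul_nonneg h0 (by linarith))
    rw [← ENNReal.ofReal_mul u0, ← ENNReal.ofReal_mul γ0,
      ← ENNReal.ofReal_add u0 (mul_nonneg γ0 (mul_nonneg u0 w0))]
    refine ENNReal.ofReal_le_ofReal ?_
    have h5 : ((1 - p) * a + p * b) * ((1 - p) * (1 - a) + p * (1 - b)) ≤ b * (1 - a) :=
      mul_le_mul (by nlinarith) (by nlinarith) w0 b0
    have h6 := mul_le_mul_of_nonneg_left (h5.trans h4) γ0
    rw [← mul_assoc _ K, div_mul_cancel₀ _ hK.ne'] at h6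
    linarith

end mix

namespace Fld

variable {X : Type} [MeasurableSpace X] (F : Fld X)

lemma up_armE (v : V) (k : ℕ) : Up F.le (F.ArmE v k) :=
  fun _ _ h hE => Arm.mono hE (F.opn_mono h)

variable (ν0 ν1 : Measure X) [IsProbabilityMeasure ν0] [IsProbabilityMeasure ν1]

theorem sharp {K : ℝ} (hK : 0 < K)
    (H : ∀ D, MeasurableSet D → (∀ a b, F.le a b → a ∈ D → b ∈ D) →
      ν1.real D * (1 - ν0.real D) ≤ K * (ν1.real D - ν0.real D))
    (u : ℕ → ℝ) (hu : ExpDecay u)
    (hU : ∀ p, 0 ≤ p → p ≤ 1 → ∀ j, (Pm V (mix ν0 ν1 p)).real (F.Unk j) ≤ u j)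
    (D0 : Set X) (mD : MeasurableSet D0) (hD0 : 0 < ν0.real D0) (hD1 : 0 < ν1.real D0)
    (hD : ∀ E, E 0 ∈ D0 → E ∉ F.O) (hnd : ¬ ExpDecay (F.th ν0)) :
    ∃ δ > 0, ∀ k, δ ≤ F.th ν1 k := by
  have hU0 : ∀ j, (Pm V ν0).real (F.Unk j) ≤ u j := by
    simpa [mix_zero] using hU 0 le_rfl zero_le_one
  have hU1 : ∀ j, (Pm V ν1).real (F.Unk j) ≤ u j := by
    simpa [mix_one] using hU 1 zero_le_one le_rfl
  have u0 : ∀ j, 0 ≤ u j := fun j => measureReal_nonneg.trans (hU0 j)
  obtain ⟨c0, hc0, L0, hL0⟩ := F.renorm ν0 (hu.mono hU0) hnd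
  obtain ⟨B, hB0, hB⟩ := sum_ring (fun j => √(u j)) (fun _ => Real.sqrt_nonneg _) hu.sqrt
  set b := min (ν0.real D0) (ν1.real D0) with hb
  have b0 : 0 < b := lt_min hD0 hD1
  set c := b / (12 * K * B) with hc
  have c0' : 0 < c := by positivity
  have mono : ∀ ρ k {p p' : ℝ}, 0 ≤ p → p ≤ p' → p' ≤ 1 →
      (F.trunc ρ).th (mix ν0 ν1 p) k ≤ (F.trunc ρ).th (mix ν0 ν1 p') k := by
    intro ρ k p p' h0 h1 h2
    have := russo_mix ν0 ν1 F.refl hK H h0 h1 h2 le_rfl zero_le_one (by linarith)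
      ((F.trunc ρ).measurableSet_armE 0 k) ((F.trunc ρ).up_armE 0 k) _ (F.dep_arm ρ k)
    refine le_trans (le_add_of_nonneg_right ?_) this
    exact mul_nonneg (mul_nonneg (div_nonneg (by linarith) hK.le) (by positivity))
      (Finset.sum_nonneg fun _ _ => ENNReal.toReal_nonneg)
  have grow : ∀ ρ ≥ 1, ∀ (k : ℕ) (p h : ℝ), 0 ≤ p → 0 ≤ h → p + h ≤ 1 / 2 →
      4 * h * (box 0 (k + ρ)).card ≤ 1 →
      (F.trunc ρ).th (mix ν0 ν1 p) k * (1 + h * c * k /
        (1 + ∑ i ∈ Finset.range k, √((F.trunc ρ).th (mix ν0 ν1 p) i))) ≤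
        (F.trunc ρ).th (mix ν0 ν1 (p + h)) k := by
    intro ρ hρ k p h hp hh hph hc'
    have := mix_prob ν0 ν1 hp (by linarith)
    have a1 := russo_mix ν0 ν1 F.refl hK H hp (p' := p + h) (κ := 1 - 2 * h) (by linarith)
      (by linarith) (by linarith) (by linarith) (by nlinarith)
      ((F.trunc ρ).measurableSet_armE 0 k) ((F.trunc ρ).up_armE 0 k) _ (F.dep_arm ρ k)
    have a2 := F.variance_bound (mix ν0 ν1 p) u (hU p hp (by linarith)) B hB ρ k
    have a3 : 1 / 2 ≤ (1 - 2 * h) ^ (box 0 (k + ρ)).card := by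
      have := one_add_mul_le_pow (a := -(2 * h)) (by linarith) (box 0 (k + ρ)).card
      rw [← sub_eq_add_neg] at this
      linarith
    have a4 : b ≤ 1 - (F.trunc ρ).th (mix ν0 ν1 p) k := by
      rw [th, ← probReal_compl_eq_one_sub ((F.trunc ρ).measurableSet_armE 0 k)]
      refine le_trans ?_ (rmono (s := (fun E : V → X => E 0) ⁻¹' D0) ?_)
      · have := (measurePreserving_eval_infinitePi (fun _ : V => mix ν0 ν1 p) 0).measure_preimage
          mD.nullMeasurableSet
        rw [measureReal_def]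
        erw [this]
        rw [mix_apply _ _ hp (by linarith), ENNReal.toReal_ofReal (add_nonneg (mul_nonneg
          (by linarith) measureReal_nonneg) (mul_nonneg hp measureReal_nonneg))]
        have := min_le_left (ν0.real D0) (ν1.real D0)
        have := min_le_right (ν0.real D0) (ν1.real D0)
        nlinarith
      · rintro E hE ⟨w, -, h1⟩
        have h2 : cut ρ (sh 0 E) F.hi ∈ F.O := h1.1
        refine hD _ ?_ h2
        rw [sh_zero, cut, pw_mem _ _ (by simp only [mem_ofPred_eq, d_self]; omega)]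
        exact hE
    set f := (F.trunc ρ).th (mix ν0 ν1 p) k
    set Z := 1 + ∑ i ∈ Finset.range k, √((F.trunc ρ).th (mix ν0 ν1 p) i)
    set I := ∑ x ∈ box 0 (k + ρ), (infl (mix ν0 ν1 p) ((F.trunc ρ).ArmE 0 k) x).toReal
    have Z0 : 0 < Z := by positivity
    have f0 : 0 ≤ f := (F.trunc ρ).th_nonneg _ _
    have I0 : 0 ≤ I := Finset.sum_nonneg fun _ _ => ENNReal.toReal_nonneg
    refine le_trans ?_ a1
    rw [mul_add, mul_one]
    refine add_le_add le_rfl ?_
    have a5 : k * (f * b) ≤ 6 * B * Z * I :=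
      le_trans (mul_le_mul_of_nonneg_left (mul_le_mul_of_nonneg_left a4 f0) (by positivity)) a2
    calc f * (h * c * k / Z) = h / (12 * K * B * Z) * (k * (f * b)) := by
          rw [hc]; field_simp
      _ ≤ h / (12 * K * B * Z) * (6 * B * Z * I) := mul_le_mul_of_nonneg_left a5 (by positivity)
      _ = (p + h - p) / K * (1 / 2) * I := by field_simp; ring
      _ ≤ _ := by
        refine mul_le_mul_of_nonneg_right (mul_le_mul_of_nonneg_left a3 ?_) I0
        exact div_nonneg (by linarith) hK.le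
  have main : ∀ n, ∀ ρ ≥ 1,
      c / 6 * (Real.log (1 + ∑ i ∈ Finset.range (n + 1), √(F.th ν0 i)) - Real.log 2) ≤
      ∑ k ∈ Finset.Icc 1 n, √(F.th ν1 k + (2 * k + 1) ^ 2 * u ρ) / k := by
    intro n ρ hρ
    obtain ⟨M, hM⟩ := exists_nat_gt (max (2 * ((box 0 (n + ρ)).card : ℝ)) (c * n))
    have hM1 := (le_max_left _ _).trans_lt hM
    have hM2 := (le_max_right _ _).trans_lt hM
    have M0 : (0 : ℝ) < M := lt_of_le_of_lt (by positivity) hM1
    set h : ℝ := 1 / (2 * M) with hh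
    have h0 : 0 < h := by positivity
    have hM3 : M * h = 1 / 2 := by rw [hh]; field_simp
    have hj : ∀ j : ℕ, j ≤ M → j * h ≤ 1 / 2 := fun j hj => by
      rw [← hM3]; exact mul_le_mul_of_nonneg_right (by exact_mod_cast hj) h0.le
    have := drt (fun j k => √((F.trunc ρ).th (mix ν0 ν1 (j * h)) k)) (fun _ _ => Real.sqrt_nonneg _)
      ?_ M n (h * c / 3) (1 + ∑ i ∈ Finset.range (n + 1), √(F.th ν0 i)) (by positivity)
      (by positivity) ?_ ?_
    · rw [show M * (h * c / 3) = c / 6 by rw [mul_div_assoc, ← mul_assoc, hM3]; ring] at this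
      refine this.trans (Finset.sum_le_sum fun k _ => ?_)
      refine div_le_div_of_nonneg_right (Real.sqrt_le_sqrt ?_) (by positivity)
      refine (mono ρ k (by positivity) ((hj M le_rfl).trans (by norm_num)) le_rfl).trans ?_
      rw [mix_one]
      exact (F.trunc_le_th ν1 ρ k).trans (add_le_add le_rfl
        (mul_le_mul_of_nonneg_left (hU1 ρ) (by positivity)))
    · intro j
      refine Real.sqrt_le_one.2 ?_
      by_cases hp : ∀ _ : V, IsProbabilityMeasure (mix ν0 ν1 (j * h))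
      · have := hp 0
        exact (F.trunc ρ).th_le_one _ _
      · simp only [th, Pm, infinitePi]
        rw [dif_neg hp]; simp
    · intro j hj'
      refine add_le_add le_rfl (Finset.sum_le_sum fun i _ => Real.sqrt_le_sqrt ?_)
      refine (F.th_le_trunc ν0 ρ i).trans ?_
      have := mono ρ i le_rfl (p' := j * h) (by positivity) ((hj j hj'.le).trans (by norm_num))
      rwa [mix_zero] at this
    · intro j hj' k hk
      have k1 : (k : ℝ) ≤ n := by exact_mod_cast hk
      have a1 := grow ρ hρ k (j * h) h (by positivity) h0.le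
        (by have := hj (j + 1) hj'; push_cast at this; linarith) (by
          have : ((box 0 (k + ρ)).card : ℝ) ≤ (box 0 (n + ρ)).card := by
            exact_mod_cast Finset.card_le_card fun v hv => by simp at hv ⊢; omega
          nlinarith)
      set Z := 1 + ∑ i ∈ Finset.range k, √((F.trunc ρ).th (mix ν0 ν1 (j * h)) i)
      have Z1 : 1 ≤ Z := le_add_of_nonneg_right (by positivity)
      have a2 := sqrt_grow ((F.trunc ρ).th_nonneg _ _) (by positivity) (by
        refine (div_le_self (by positivity) Z1).trans ?_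
        have : c * k ≤ M := by nlinarith
        nlinarith) a1
      push_cast
      rw [add_mul, one_mul]
      refine le_trans (le_of_eq ?_) a2
      ring
  have main2 : ∀ n,
      c / 6 * (Real.log (1 + ∑ i ∈ Finset.range (n + 1), √(F.th ν0 i)) - Real.log 2) ≤
      ∑ k ∈ Finset.Icc 1 n, √(F.th ν1 k) / k := by
    intro n
    have ht : Tendsto (fun ρ => ∑ k ∈ Finset.Icc 1 n, √(F.th ν1 k + (2 * k + 1) ^ 2 * u ρ) / k)
        atTop (𝓝 (∑ k ∈ Finset.Icc 1 n, √(F.th ν1 k + (2 * k + 1) ^ 2 * 0) / k)) :=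
      tendsto_finsetSum _ fun k _ =>
        ((((hu.tendsto u0).const_mul _).const_add _).sqrt).div_const _
    simp only [mul_zero, add_zero] at ht
    exact ge_of_tendsto ht (eventually_atTop.2 ⟨1, main n⟩)
  have fin := final_analysis (fun k => √(F.th ν0 k)) (fun k => √(F.th ν1 k)) (c / 6) c0
    (by positivity) hc0 L0 (fun _ => Real.sqrt_nonneg _)
    (fun L hL => by rw [Real.sq_sqrt (F.th_nonneg _ _)]; exact hL0 L hL)
    (fun k => Real.sqrt_le_one.2 (F.th_le_one _ _))
    (fun k l h => Real.sqrt_le_sqrt (F.th_anti _ h)) main2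
  refine ⟨(c / 6 / 4) ^ 2, by positivity, fun k => ?_⟩
  rw [← Real.sq_sqrt (F.th_nonneg ν1 k)]
  exact pow_le_pow_left₀ (by positivity) (fin k) 2

/-- the infinite cluster event -/
def InfE (v : V) : Set (V → X) := {E | Inf F.r (opn F.O E) v}

lemma measurableSet_infE (v : V) : MeasurableSet (F.InfE v) :=
  measurableSet_inf _ (measurableSet_opn F.meas) _ _

lemma infE_eq (v : V) : F.InfE v = ⋂ k, F.ArmE v k := by
  ext E; simp [InfE, ArmE, inf_iff]

lemma infE_sh (v : V) : F.InfE v = sh v ⁻¹' F.InfE 0 := by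
  simp only [infE_eq, preimage_iInter, ← armE_sh]

lemma infE_pos {δ : ℝ} (hδ : 0 < δ) (h : ∀ k, δ ≤ F.th ν1 k) : Pm V ν1 (F.InfE 0) ≠ 0 := by
  have ht := tendsto_measure_iInter_atTop (μ := Pm V ν1) (s := fun k => F.ArmE 0 k)
    (fun k => (F.measurableSet_armE 0 k).nullMeasurableSet)
    (fun k l hkl E hE => Arm.anti hE hkl) ⟨0, measure_ne_top _ _⟩
  have : ENNReal.ofReal δ ≤ Pm V ν1 (F.InfE 0) := by
    rw [infE_eq]
    exact ge_of_tendsto' ht fun k => ENNReal.ofReal_le_of_le_toReal (h k)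
  intro h0
  rw [h0, nonpos_iff_eq_zero, ENNReal.ofReal_eq_zero] at this
  linarith

end Fld

end Pool.Agent.EB
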