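import Pool.Agent.P.MP_d1873d_pr.Coex
import Pool.Agent.P.MP_d1873d_pr.Local
import Pool.Agent.P.MP_d1873d_pr.Sharp

/-! An infinite plus cluster and an infinite star connected minus cluster do not coexist. -/

namespace Pool.Agent.EB

open MeasureTheory Set Measure Filter Topology
open scoped ENNReal

section
variable {X : Type} [MeasurableSpace X] (m : Measure X) [IsProbabilityMeasure m]

lemma zero_one_sh {A : Set (V → X)} (mA : MeasurableSet A) (h : ∀ v E, E ∈ A → sh v E ∈ A)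
    (h0 : Pm V m A ≠ 0) : Pm V m Aᶜ = 0 := by
  rw [prob_compl_eq_zero_iff mA]
  refine zero_one m mA (fun s => ?_) h0
  obtain ⟨K, hK⟩ := bounded_of_finite s.finite_toSet 0
  refine ⟨fun y => (((2 * K + 1 : ℕ) : ℤ), (0 : ℤ)) + y, add_right_injective _, fun i hi h => ?_,
    fun E => ⟨fun h1 => ?_, h _ E⟩⟩
  · have h1 := hK i hi
    have h2 := hK _ h
    simp only [d, Prod.fst_add, Prod.snd_add, Prod.fst_zero, Prod.snd_zero] at h1 h2
    omega
  · have := h (-(((2 * K + 1 : ℕ) : ℤ), (0 : ℤ))) (sh _ E) h1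
    rwa [sh_sh, add_neg_cancel, sh_zero] at this

lemma Fld.noInf_null (F : Fld X) (h : Pm V m (F.InfE 0) ≠ 0) :
    Pm V m {E | ∀ a, ¬ Inf F.r (opn F.O E) a} = 0 := by
  refine measure_mono_null ?_ (zero_one_sh m (MeasurableSet.iUnion F.measurableSet_infE)
    (fun u E hE => ?_) fun h0 => h (measure_mono_null (subset_iUnion _ 0) h0))
  · intro E hE h1
    obtain ⟨a, ha⟩ := mem_iUnion.1 h1
    exact hE a ha
  · obtain ⟨v, hv⟩ := mem_iUnion.1 hE
    refine mem_iUnion.2 ⟨v - u, ?_⟩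
    rw [F.infE_sh, mem_preimage, sh_sh, add_sub_cancel]
    rwa [F.infE_sh] at hv

lemma low_null {le : X → X → Prop} (htot : ∀ a b, le a b ∨ le b a) {G H : Set (V → X)} {s : Set V}
    (mG : MeasurableSet G) (mH : MeasurableSet H)
    (hG : ∀ E E' η, (∀ i, le (E i) (E' i)) → pw s E η ∈ G → pw s E' η ∈ G) (hH : Up le H)
    (dH : Dep s H) (pH : Pm V m H ≠ 0) (h : Pm V m (G ∩ H) = 0) : Pm V m G = 0 := by
  have key : ∀ A, MeasurableSet A →
      Pm V m A = ∫⁻ η, Pm V m {ω | pw s ω η ∈ A} ∂Pm V m := fun A mA => by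
    rw [← (mp_pw _ s).measure_preimage mA.nullMeasurableSet, prod_apply_symm (measurable_pw2 s mA)]
    rfl
  have : Pm V m G * Pm V m H ≤ Pm V m (G ∩ H) := by
    rw [key G mG, key _ (mG.inter mH), ← lintegral_mul_const' _ _ (measure_ne_top _ _)]
    exact lintegral_mono fun η => (harris _ htot (measurable_pw s measurable_id measurable_const mG)
      mH (fun E E' => hG E E' η) hH).trans (measure_mono fun ω hω =>
        ⟨hω.1, (dH.pw_left ω η).2 hω.2⟩)
  rw [h, nonpos_iff_eq_zero] at this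
  exact (mul_eq_zero.1 this).resolve_right pH

lemma Fld.col (F : Fld X) (htot : ∀ a b, F.le a b ∨ F.le b a) (h : Pm V m (F.InfE 0) ≠ 0) :
    Col (Pm V m) F.r (opn F.O) := by
  have mS : Measurable (opn F.O) :=
    measurable_set_iff.2 fun v => measurableSet_setOfPred.1 (measurableSet_opn F.meas v)
  refine ⟨F.r_near, F.r_add, mS, fun p q mp mq hp hq => harris _ (le := fun a b => F.le b a)
    (fun a b => htot b a) (measurableSet_setOfPred.2 (mp.comp mS).not)
    (measurableSet_setOfPred.2 (mq.comp mS).not) (fun E E' h h1 h2 => h1 (hp (F.opn_mono h) h2))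
    fun E E' h h1 h2 => h1 (hq (F.opn_mono h) h2), fun v p mp => ?_, F.noInf_null m h⟩
  simp only [← opn_sh]
  exact (mp_sh m v).measure_preimage (measurableSet_setOfPred.2 (mp.comp mS)).nullMeasurableSet

end

/-- two different infinite star clusters -/
def Dbl (M : Set V) : Prop := ∃ a b, Inf st M a ∧ Inf st M b ∧ ¬ Conn st M a b

section
variable {Ω : Type} [MeasurableSpace Ω] {M : Ω → Set V} (hM : ∀ v, MeasurableSet {ω | v ∈ M ω})
include hM

lemma ms_dbl : Measurable fun ω => Dbl (M ω) :=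
  Measurable.exists fun a => Measurable.exists fun b =>
    (measurableSet_setOfPred.1 (measurableSet_inf M hM st a)).and
      ((measurableSet_setOfPred.1 (measurableSet_inf M hM st b)).and
        (measurableSet_setOfPred.1 (measurableSet_conn M hM st a b)).not)

lemma ms_tri0 (N : ℕ) : Measurable fun ω => Tri0 N (M ω) 0 := by
  have h1 : ∀ v, MeasurableSet {ω | v ∈ M ω \ {v | d 0 v < N}} := fun v =>
    (hM v).inter (MeasurableSet.const _)
  have c0 := fun a b => measurableSet_setOfPred.1 (measurableSet_conn M hM st a b)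
  have c1 := fun a b => measurableSet_setOfPred.1 (measurableSet_conn _ h1 st a b)
  have c3 := fun a => measurableSet_setOfPred.1 (measurableSet_inf _ h1 st a)
  exact Measurable.exists fun y => Measurable.and
    (Measurable.forall fun i => measurable_const.and ((c0 _ _).and (c3 _)))
    (Measurable.forall fun i => Measurable.forall fun j => measurable_const.imp (c1 _ _).not)

lemma ms_phi (n N K : ℕ) : Measurable fun ω => Phi n N K (M ω) := by
  have h1 : ∀ v, MeasurableSet {ω | v ∈ (M ω)ᶜ \ {v | d 0 v < N}} := fun v =>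
    (hM v).compl.inter (MeasurableSet.const _)
  have h2 : ∀ v, MeasurableSet {ω | v ∈ (M ω ∪ {v | d 0 v ≤ n})ᶜ ∩ {v | d 0 v ≤ K}} := fun v =>
    ((hM v).union (MeasurableSet.const _)).compl.inter (MeasurableSet.const _)
  have c1 := fun a => measurableSet_setOfPred.1 (measurableSet_arm _ h1 st a K)
  exact Measurable.exists fun y => Measurable.exists fun y' => measurable_const.and
    (((c1 y).and (c1 y')).and (measurableSet_setOfPred.1 (measurableSet_conn _ h2 st y y')).not)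

lemma ms_phiI (n N : ℕ) : Measurable fun ω => PhiI n N (M ω) := by
  have h1 : ∀ v, MeasurableSet {ω | v ∈ (M ω)ᶜ \ {v | d 0 v < N}} := fun v =>
    (hM v).compl.inter (MeasurableSet.const _)
  have h2 : ∀ v, MeasurableSet {ω | v ∈ (M ω ∪ {v | d 0 v ≤ n})ᶜ} := fun v =>
    ((hM v).union (MeasurableSet.const _)).compl
  have c1 := fun a => measurableSet_setOfPred.1 (measurableSet_inf _ h1 st a)
  exact Measurable.exists fun y => Measurable.exists fun y' => (c1 y).and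
    ((c1 y').and (measurableSet_setOfPred.1 (measurableSet_conn _ h2 st y y')).not)

end

namespace Rate

variable (Q : Rate) (m : Measure ℝ≥0∞) [IsProbabilityMeasure m]

/-- the plus sites when the box of radius `n` is frozen -/
def Wz (n : ℕ) (E : V → ℝ≥0∞) : Set V := Q.Op (frz (box 0 n) E)

/-- the clocks in the box of radius `n` have no influence at distance `N` -/
def Infl (n N : ℕ) : Set (V → ℝ≥0∞) :=
  {E | ∀ v, N ≤ d 0 v → v ∈ Q.Op (pw (box 0 n) (fun _ => 0) E) → v ∈ Q.Wz n E}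

lemma wz_sub (n : ℕ) (E : V → ℝ≥0∞) : Q.Wz n E ⊆ Q.Op E := fun _ hv => Q.frz_subset _ E hv

lemma ms_wz (n : ℕ) (v : V) : MeasurableSet {E | v ∈ Q.Wz n E} :=
  measurable_frz _ (Q.measurableSet_Op v)

lemma ms_infl (n N : ℕ) : MeasurableSet (Q.Infl n N) :=
  measurableSet_setOfPred.2 (Measurable.forall fun v => measurable_const.imp
    ((measurableSet_setOfPred.1 (measurable_pw _ measurable_const measurable_id
      (Q.measurableSet_Op v))).imp (measurableSet_setOfPred.1 (Q.ms_wz n v))))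

variable {Q} in
lemma infl_eq {n N : ℕ} {E : V → ℝ≥0∞} (h : E ∈ Q.Infl n N) :
    (Q.Op E)ᶜ \ {v | d 0 v < N} = (Q.Wz n E)ᶜ \ {v | d 0 v < N} := by
  refine Subset.antisymm (sdiff_subset_sdiff_left (compl_subset_compl.2 (Q.wz_sub n E)))
    fun v hv => ⟨fun h1 => hv.1 (h v (not_lt.1 hv.2) (Q.Op_anti (fun x => ?_) h1)), hv.2⟩
  unfold pw; split_ifs <;> simp

lemma conn_wz {n : ℕ} (E : V → ℝ≥0∞) {a : V} (ha : d 0 a ≤ n) : Conn st (Q.Wz n E)ᶜ 0 a :=
  ((conn_box_nn (by simp) ha).mono_rel fun _ _ => nn_st).mono fun _ hv =>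
    Q.notMem_frz E (by simpa using hv) 1

lemma infl_ae (hU : ExpDecay fun ρ => (Pm V m).real (Q.Fp.Unk ρ)) (n : ℕ) :
    ∀ᵐ E ∂Pm V m, ∀ᶠ N in atTop, E ∈ Q.Infl n N := by
  obtain ⟨C, q, -, q0, q1, hC⟩ := (hU.poly 2).const_mul (c := (2 * n + 2) ^ 2) (by positivity)
  have h1 : ∑' r : ℕ, Pm V m (⋃ v ∈ box 0 (r + n), sh v ⁻¹' Q.Fp.Unk r) ≠ ∞ := by
    refine ne_top_of_le_ne_top ((summable_geometric_of_lt_one q0.le q1).mul_left
      C).tsum_ofReal_ne_top (ENNReal.tsum_le_tsum fun r => ?_)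
    rw [← ofReal_measureReal (measure_ne_top _ _)]
    refine ENNReal.ofReal_le_ofReal ((Q.Fp.prob_unk_box m r (r + n)).trans (le_trans ?_ (hC r)))
    beta_reduce
    rw [← mul_assoc, ← mul_pow]
    refine mul_le_mul_of_nonneg_right (pow_le_pow_left₀ (by positivity) ?_ 2) measureReal_nonneg
    push_cast
    have : (0 : ℝ) ≤ r := by positivity
    have : (0 : ℝ) ≤ n := by positivity
    nlinarith [mul_nonneg ‹(0 : ℝ) ≤ r› ‹(0 : ℝ) ≤ n›]
  filter_upwards [ae_eventually_notMem h1] with E hE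
  obtain ⟨R, hR⟩ := eventually_atTop.1 hE
  filter_upwards [eventually_ge_atTop (R + n)] with N hN v hv h2
  have h3 := hR (d 0 v - n) (by omega)
  simp only [mem_iUnion, not_exists, mem_box, mem_preimage] at h3
  have e : ∀ c c', cut (d 0 v - n) (sh v (pw (box 0 n) (fun _ => c) E)) c' =
      cut (d 0 v - n) (sh v E) c' := fun c c' => Fld.trunc_congr (fun y hy => pw_not _ _ (by
        have := d_tri 0 y v
        have := d_comm y v
        simp only [Finset.mem_coe, mem_box]; omega)) c'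
  rw [← opn_Fp] at h2
  have h4 : cut _ _ _ ∈ Q.Fp.O := Q.Fp.opn_subset_trunc (d 0 v - n) _ h2
  rw [Wz, ← opn_Fp]
  refine Q.Fp.of_trunc (ρ := d 0 v - n) (show cut _ _ _ ∈ Q.Fp.O from ?_) fun h5 =>
    h3 v (by omega) ?_
  · rwa [frz, e, ← e 0]
  · simpa only [Fld.Unk, frz, mem_ofPred_eq, e] using h5

lemma null_of_infl (hU : ExpDecay fun ρ => (Pm V m).real (Q.Fp.Unk ρ)) {A : ℕ → Set (V → ℝ≥0∞)}
    (h : ∀ n N, n < N → Pm V m (A n ∩ Q.Infl n N) = 0) : Pm V m (⋃ n, A n) = 0 := by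
  refine measure_iUnion_null fun n => measure_mono_null (t := {E | ¬ ∀ᶠ N in atTop, E ∈ Q.Infl n N} ∪
    ⋃ N, ⋃ (_ : n < N), A n ∩ Q.Infl n N) (fun E hE => ?_) (measure_union_null (Q.infl_ae m hU n)
      (measure_iUnion_null fun N => measure_iUnion_null (h n N)))
  refine or_iff_not_imp_left.2 fun h1 => ?_
  obtain ⟨N, h2, h3⟩ := ((not_not.1 h1).and (eventually_gt_atTop n)).exists
  exact mem_iUnion₂.2 ⟨N, h3, hE, h2⟩

lemma box_pos (n : ℕ) {D : Set ℝ≥0∞} (mD : MeasurableSet D) (h : m D ≠ 0) :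
    Pm V m ((box 0 n : Set V).pi fun _ => D) ≠ 0 := by
  rw [infinitePi_pi _ fun _ _ => mD]
  exact Finset.prod_ne_zero_iff.2 fun _ _ => h

lemma ind (hm : m (Ici 1) ≠ 0) (n : ℕ) {p : Set V → Prop}
    (mp : Measurable fun E => p (Q.Wz n E)ᶜ) (h : Pm V m {E | p (Q.Op E)ᶜ} = 0) :
    Pm V m {E | p (Q.Wz n E)ᶜ} = 0 := by
  refine low_null m (le := fun a b => a ≤ b) le_total (s := box 0 n)
    (measurableSet_setOfPred.2 mp) (.pi (box 0 n).countable_toSet fun _ _ => measurableSet_Ici)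
    (fun E E' η _ h1 => by simpa only [mem_ofPred_eq, Wz, frz_pw] using h1)
    (fun E E' h1 h2 x hx => le_trans (h2 x hx) (h1 x)) (fun E E' h h1 x hx => h x hx ▸ h1 x hx)
    (box_pos m n measurableSet_Ici hm) (measure_mono_null ?_ h)
  rintro E ⟨h1, hE⟩
  have : Q.Wz n E = Q.Op E := Subset.antisymm (Q.wz_sub n E) fun v hv => Q.freeze (a := 1)
    (fun y hy => (Q.Lam_le _ _ _).trans (by simpa using hE y hy)) le_rfl hv
  rwa [mem_ofPred_eq, this] at h1

theorem dbl_null (hm : m (Ici 1) ≠ 0) (hU : ExpDecay fun ρ => (Pm V m).real (Q.Fp.Unk ρ)) :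
    Pm V m {E | Dbl (Q.Op E)ᶜ} = 0 := by
  have sub : ∀ n E, (Q.Op E)ᶜ ⊆ (Q.Wz n E)ᶜ := fun n E => compl_subset_compl.2 (Q.wz_sub n E)
  have t3 := Q.null_of_infl m hU (A := fun n => {E | ∃ a : Fin 3 → V,
    (∀ i, d 0 (a i) ≤ n ∧ Inf st (Q.Op E)ᶜ (a i)) ∧
      ∀ i j, i < j → ¬ Conn st (Q.Op E)ᶜ (a i) (a j)}) fun n N hn => by
    refine measure_mono_null ?_ (Q.ind m hm n (p := fun M => Tri0 N M 0)
      (ms_tri0 (fun v => (Q.ms_wz n v).compl) N) (by
        simpa only [opn_Fm] using tri_null m Q.Fm.meas N))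
    rintro E ⟨⟨a, h1, h2⟩, h3⟩
    choose y h4 h5 h6 using fun i => exit_inf (fun _ _ => id) ((h1 i).1.trans_lt hn) (h1 i).2
    refine ⟨y, fun i => ⟨h4 i, (Q.conn_wz E (h1 i).1).trans ((h6 i).mono (sub n E)),
      infl_eq h3 ▸ h5 i⟩, fun i j hij h7 => h2 i j hij ?_⟩
    rw [← infl_eq h3] at h7
    exact ((h6 i).trans (h7.mono sdiff_subset)).trans ((h6 j).symm fun _ _ => st_symm)
  by_contra hne
  have h1 := zero_one_sh m (A := {E | Dbl (Q.Op E)ᶜ}) (measurableSet_setOfPred.2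
    (ms_dbl (M := fun E => (Q.Op E)ᶜ) fun v => (Q.measurableSet_Op v).compl))
    (fun v E ⟨a, b, h⟩ => ⟨a - v, b - v, by
      have e := fun a b => st_add a b v
      rw [← opn_Fm, opn_sh, inf_equiv _ e, inf_equiv _ e, conn_equiv _ e, opn_Fm]
      simpa using h⟩) hne
  refine hne (measure_mono_null (fun E hE => ?_) (measure_union_null t3 (Q.null_of_infl m hU
    (A := fun n => {E | (∃ a b, (d 0 a ≤ n ∧ d 0 b ≤ n) ∧ Inf st (Q.Op E)ᶜ a ∧ Inf st (Q.Op E)ᶜ b ∧
      ¬ Conn st (Q.Op E)ᶜ a b) ∧ ∀ a b c, Inf st (Q.Op E)ᶜ a → Inf st (Q.Op E)ᶜ b →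
        Inf st (Q.Op E)ᶜ c → Conn st (Q.Op E)ᶜ a b ∨ Conn st (Q.Op E)ᶜ a c ∨
          Conn st (Q.Op E)ᶜ b c}) fun n N hn => ?_)))
  · refine or_iff_not_imp_left.2 fun h2 => ?_
    obtain ⟨a, b, h3⟩ := hE
    refine mem_iUnion.2 ⟨d 0 a + d 0 b, ⟨a, b, by omega, h3⟩, fun a b c ha hb hc => ?_⟩
    by_contra h4
    simp only [not_or] at h4
    refine h2 (mem_iUnion.2 ⟨d 0 a + d 0 b + d 0 c, ![a, b, c], fun i => ?_, fun i j hij => ?_⟩)
    · fin_cases i
      exacts [⟨show d 0 a ≤ _ by omega, ha⟩, ⟨show d 0 b ≤ _ by omega, hb⟩,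
        ⟨show d 0 c ≤ _ by omega, hc⟩]
    · fin_cases i <;> fin_cases j <;> first | exact absurd hij (by decide) | skip
      exacts [h4.1, h4.2.1, h4.2.2]
  · refine measure_mono_null ?_ (Q.ind m hm n (p := fun M => ¬ Dbl M)
      (ms_dbl fun v => (Q.ms_wz n v).compl).not h1)
    rintro E ⟨⟨⟨a, b, h2, ha, hb, h3⟩, h4⟩, h5⟩ ⟨c, c', h6, h7, h8⟩
    have key : ∀ c, Inf st (Q.Wz n E)ᶜ c → Conn st (Q.Wz n E)ᶜ 0 c := by
      intro c hc
      have : ∃ y, Inf st ((Q.Wz n E)ᶜ \ {v | d 0 v < N}) y ∧ Conn st (Q.Wz n E)ᶜ c y := by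
        by_cases h9 : ∃ u, d 0 u < N ∧ Conn st (Q.Wz n E)ᶜ c u
        · obtain ⟨u, h10, h11⟩ := h9
          obtain ⟨y, -, h12, h13⟩ := exit_inf (fun _ _ => id) h10 (Set.Infinite.mono
            (fun _ hb => (h11.symm fun _ _ => st_symm).trans hb) hc)
          exact ⟨y, h12, h11.trans h13⟩
        · exact ⟨c, Set.Infinite.mono (fun _ hb => Conn.mono_reach hb fun v hv =>
            ⟨hv.right, fun h => h9 ⟨v, h, hv⟩⟩) hc, Conn.refl hc.left⟩
      obtain ⟨y, h9, h10⟩ := this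
      rw [← infl_eq h5] at h9
      refine Conn.trans ?_ (h10.symm fun _ _ => st_symm)
      rcases (h4 a b y ha hb (h9.mono sdiff_subset)).resolve_left h3 with h | h
      · exact (Q.conn_wz E h2.1).trans (h.mono (sub n E))
      · exact (Q.conn_wz E h2.2).trans (h.mono (sub n E))
    exact h8 (((key c h6).symm fun _ _ => st_symm).trans (key c' h7))

theorem phi_small (hm : m (Ici 1) ≠ 0) (hm' : m (Iio (ENNReal.ofReal Q.ε)) ≠ 0)
    (hU : ExpDecay fun ρ => (Pm V m).real (Q.Fp.Unk ρ)) (n : ℕ) (e : ℝ) (he : e > 0) :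
    ∃ N K, n < N ∧ (Pm V m).real {E | Phi n N K (Q.Op E)} ≤ e := by
  obtain ⟨N, h1, hn⟩ := ((ev_le (P := Pm V m) (A := fun N => (Q.Infl n N)ᶜ)
    (fun N => (Q.ms_infl n N).compl) (fun k l h E h1 h2 => h1 fun v hv => h2 v (h.trans hv))
    (real_null (Q.infl_ae m hU n) fun E hE h => by
      obtain ⟨N, hN⟩ := Filter.Eventually.exists h
      exact mem_iInter.1 hE N hN) (half_pos he)).and (eventually_gt_atTop n)).exists
  have h2 : Pm V m ({E | PhiI n N (Q.Op E)} ∩ Q.Infl n N) = 0 := by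
    refine low_null m (le := fun a b => b ≤ a) (fun a b => le_total b a) (s := box 0 n)
      ((measurableSet_setOfPred.2 (ms_phiI Q.measurableSet_Op n N)).inter (Q.ms_infl n N))
      (.pi (box 0 n).countable_toSet fun _ _ => measurableSet_Iio) ?_
      (fun E E' h1 h2 x hx => lt_of_le_of_lt (h1 x) (h2 x hx))
      (fun E E' h h1 x hx => h x hx ▸ h1 x hx) (box_pos m n measurableSet_Iio hm')
      (measure_mono_null ?_ (Q.dbl_null m hm hU))
    · rintro E E' η h3 ⟨⟨y, y', h4, h5, h6⟩, h7⟩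
      have e1 : ∀ a b : V → ℝ≥0∞, pw (box 0 n) a (pw (box 0 n) b η) = pw (box 0 n) a η :=
        fun a b => by ext x; unfold pw; split_ifs <;> rfl
      have h8 : pw (box 0 n) E' η ∈ Q.Infl n N := by
        simpa only [Infl, mem_ofPred_eq, Wz, frz_pw, e1] using h7
      have e2 : (Q.Op (pw (box 0 n) E' η))ᶜ \ {v | d 0 v < N} =
          (Q.Op (pw (box 0 n) E η))ᶜ \ {v | d 0 v < N} := by
        rw [infl_eq h7, infl_eq h8, Wz, Wz, frz_pw, frz_pw]
      refine ⟨⟨y, y', e2 ▸ h4, e2 ▸ h5, fun h => h6 (h.mono (compl_subset_compl.2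
        (union_subset_union_left _ (Q.Op_anti fun x => ?_))))⟩, h8⟩
      unfold pw; split_ifs <;> simp [h3]
    · rintro E ⟨⟨⟨y, y', h4, h5, h6⟩, -⟩, h7⟩
      refine ⟨y, y', h4.mono sdiff_subset, h5.mono sdiff_subset, fun h => h6 (h.mono
        (compl_subset_compl.2 (union_subset subset_rfl fun v hv => ?_)))⟩
      exact Q.mem_of_lt (by simpa using h7 v (by simpa using hv))
  obtain ⟨K, hK⟩ := (ev_le (P := Pm V m) (A := fun K => {E | Phi n N K (Q.Op E)})
    (fun K => measurableSet_setOfPred.2 (ms_phi Q.measurableSet_Op n N K))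
    (fun k l h E h1 => Phi.anti h1 h) (c := e / 2) (le_trans (rmono (t := (Q.Infl n N)ᶜ ∪
      {E | PhiI n N (Q.Op E)} ∩ Q.Infl n N) fun E hE => or_iff_not_imp_left.2 fun h =>
        ⟨phiI_of (mem_iInter.1 hE), not_not.1 h⟩) ((measureReal_union_le _ _).trans
          ((add_le_add h1 (real_null h2 subset_rfl)).trans_eq (add_zero _))))
    (half_lt_self he)).exists
  exact ⟨N, K, hn, hK⟩

theorem no_coexist (hm : m (Ici 1) ≠ 0) (hm' : m (Iio (ENNReal.ofReal Q.ε)) ≠ 0)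
    (hU : ExpDecay fun ρ => (Pm V m).real (Q.Fp.Unk ρ)) (hp : Pm V m (Q.Fp.InfE 0) ≠ 0) :
    Pm V m (Q.Fm.InfE 0) = 0 := by
  by_contra hq
  have c1 := Q.Fp.col m (fun a b => le_total b a) hp
  have c2 := Q.Fm.col m (fun a b => le_total a b) hq
  rw [funext Q.opn_Fp] at c1
  rw [funext Q.opn_Fm] at c2
  exact Nice.elim ⟨c1, c2, Q.dbl_null m hm hU, Q.phi_small m hm hm' hU⟩

end Rate

end Pool.Agent.EB
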