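import Mathlib

/-! Walks on the square lattice: connections inside a set, exits, ring hitting, Peierls bound. -/

namespace Pool.Agent.EB

open MeasureTheory Set
open scoped ENNReal

abbrev V := ℤ × ℤ

/-- sup distance -/
def d (u v : V) : ℕ := max (u.1 - v.1).natAbs (u.2 - v.2).natAbs

/-- nearest neighbour adjacency -/
def nn (u v : V) : Prop := (u.1 - v.1).natAbs + (u.2 - v.2).natAbs = 1

/-- star adjacency (including equality) -/
def st (u v : V) : Prop := d u v ≤ 1

lemma d_comm (u v : V) : d u v = d v u := by unfold d; omega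
@[simp] lemma d_self (u : V) : d u u = 0 := by simp [d]
lemma d_tri (u v w : V) : d u w ≤ d u v + d v w := by unfold d; omega
lemma d_eq_zero {u v : V} (h : d u v = 0) : u = v := by
  unfold d at h; ext <;> omega
lemma d_add (u v w : V) : d (w + u) (w + v) = d u v := by
  simp [d]
lemma d_zero_add (w v : V) : d w (w + v) = d 0 v := by
  simpa using d_add 0 v w
lemma nn_symm {u v : V} (h : nn u v) : nn v u := by unfold nn at *; omega
lemma st_symm {u v : V} (h : st u v) : st v u := by unfold st at *; rwa [d_comm]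
lemma nn_st {u v : V} (h : nn u v) : d u v ≤ 1 := by unfold nn at h; unfold d; omega
lemma nn_add (u v w : V) : nn (w + u) (w + v) ↔ nn u v := by simp [nn]
lemma st_add (u v w : V) : st (w + u) (w + v) ↔ st u v := by simp [st, d_add]

/-- the finite box -/
noncomputable def box (c : V) (n : ℕ) : Finset V :=
  Finset.Icc (c.1 - n) (c.1 + n) ×ˢ Finset.Icc (c.2 - n) (c.2 + n)

@[simp] lemma mem_box {c v : V} {n : ℕ} : v ∈ box c n ↔ d c v ≤ n := by
  simp only [box, Finset.mem_product, Finset.mem_Icc, d]; omega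

lemma card_box (c : V) (n : ℕ) : (box c n).card = (2 * n + 1) ^ 2 := by
  simp only [box, Finset.card_product, Int.card_Icc]
  have h1 : (c.1 + n + 1 - (c.1 - n)).toNat = 2 * n + 1 := by omega
  have h2 : (c.2 + n + 1 - (c.2 - n)).toNat = 2 * n + 1 := by omega
  rw [h1, h2]; ring

noncomputable def ring (c : V) (n : ℕ) : Finset V := (box c n).filter fun v => d c v = n

@[simp] lemma mem_ring {c v : V} {n : ℕ} : v ∈ ring c n ↔ d c v = n := by
  simp only [ring, Finset.mem_filter, mem_box]; omega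

lemma card_ring (c : V) (n : ℕ) : (ring c n).card ≤ 4 * (2 * n + 1) := by
  classical
  have h : ring c n ⊆
      ((Finset.Icc (-(n:ℤ)) n).image (fun k => (c.1 + n, c.2 + k)) ∪
      (Finset.Icc (-(n:ℤ)) n).image (fun k => (c.1 - n, c.2 + k))) ∪
      ((Finset.Icc (-(n:ℤ)) n).image (fun k => (c.1 + k, c.2 + n)) ∪
      (Finset.Icc (-(n:ℤ)) n).image (fun k => (c.1 + k, c.2 - n))) := by
    intro v hv
    rw [mem_ring] at hv
    unfold d at hv
    simp only [Finset.mem_union, Finset.mem_image, Finset.mem_Icc, Prod.ext_iff]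
    by_cases h1 : v.1 = c.1 + n
    · exact Or.inl (Or.inl ⟨v.2 - c.2, by omega, by omega, by omega⟩)
    by_cases h2 : v.1 = c.1 - n
    · exact Or.inl (Or.inr ⟨v.2 - c.2, by omega, by omega, by omega⟩)
    by_cases h3 : v.2 = c.2 + n
    · exact Or.inr (Or.inl ⟨v.1 - c.1, by omega, by omega, by omega⟩)
    · exact Or.inr (Or.inr ⟨v.1 - c.1, by omega, by omega, by omega⟩)
  have hc : (Finset.Icc (-(n:ℤ)) n).card = 2 * n + 1 := by
    rw [Int.card_Icc]; omega
  refine (Finset.card_le_card h).trans ?_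
  refine (Finset.card_union_le _ _).trans ?_
  refine (add_le_add ((Finset.card_union_le _ _).trans (add_le_add Finset.card_image_le
    Finset.card_image_le)) ((Finset.card_union_le _ _).trans (add_le_add Finset.card_image_le
    Finset.card_image_le))).trans ?_
  rw [hc]; omega

lemma finite_box (c : V) (n : ℕ) : {v | d c v ≤ n}.Finite :=
  (box c n).finite_toSet.subset fun v hv => by simpa using hv

lemma bounded_of_finite {S : Set V} (h : S.Finite) (c : V) : ∃ K, ∀ v ∈ S, d c v ≤ K := by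
  obtain ⟨K, hK⟩ := (h.image (d c)).bddAbove
  exact ⟨K, fun v hv => hK ⟨v, hv, rfl⟩⟩

section Conn
variable {α : Type*}

/-- `a` is joined to `b` by an `r`-path inside `S` -/
def Conn (r : α → α → Prop) (S : Set α) (a b : α) : Prop :=
  a ∈ S ∧ Relation.ReflTransGen (fun u v => r u v ∧ v ∈ S) a b

variable {r : α → α → Prop} {S S' : Set α} {a b c : α}

lemma Conn.refl (h : a ∈ S) : Conn r S a a := ⟨h, .refl⟩
lemma Conn.left (h : Conn r S a b) : a ∈ S := h.1
lemma Conn.right (h : Conn r S a b) : b ∈ S := by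
  obtain ⟨h1, h2⟩ := h
  induction h2 with
  | refl => exact h1
  | tail _ h _ => exact h.2
lemma Conn.tail (h : Conn r S a b) (h1 : r b c) (h2 : c ∈ S) : Conn r S a c :=
  ⟨h.1, h.2.tail ⟨h1, h2⟩⟩
lemma Conn.trans (h : Conn r S a b) (h' : Conn r S b c) : Conn r S a c := ⟨h.1, h.2.trans h'.2⟩
lemma Conn.head (ha : a ∈ S) (h1 : r a b) (h : Conn r S b c) : Conn r S a c :=
  ((Conn.refl ha).tail h1 h.1).trans h

@[elab_as_elim]
lemma Conn.ind {P : α → Prop} (h : Conn r S a b) (h0 : P a)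
    (hs : ∀ u v, Conn r S a u → P u → r u v → v ∈ S → P v) : P b := by
  obtain ⟨h1, h2⟩ := h
  induction h2 with
  | refl => exact h0
  | tail h3 h4 ih => exact hs _ _ ⟨h1, h3⟩ ih h4.1 h4.2

lemma Conn.symm (hr : ∀ u v, r u v → r v u) (h : Conn r S a b) : Conn r S b a := by
  refine h.ind (Conn.refl h.1) fun u v _ ih h1 h2 => Conn.head h2 (hr _ _ h1) ih

lemma Conn.mono_reach (h : Conn r S a b) (hS : ∀ v, Conn r S a v → v ∈ S') : Conn r S' a b :=
  h.ind (Conn.refl (hS _ (Conn.refl h.1))) fun _ _ h1 ih h2 h3 => ih.tail h2 (hS _ (h1.tail h2 h3))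

lemma Conn.mono (h : Conn r S a b) (hS : S ⊆ S') : Conn r S' a b :=
  h.mono_reach fun _ hv => hS hv.right

lemma Conn.mono_rel {r' : α → α → Prop} (h : Conn r S a b) (hr : ∀ u v, r u v → r' u v) :
    Conn r' S a b :=
  h.ind (Conn.refl h.1) fun _ _ _ ih h2 h3 => ih.tail (hr _ _ h2) h3

lemma Conn.map {β : Type*} {r' : β → β → Prop} {T : Set β} (φ : α → β) (h : Conn r S a b)
    (hr : ∀ u v, r u v → r' (φ u) (φ v)) (hS : ∀ v ∈ S, φ v ∈ T) : Conn r' T (φ a) (φ b) :=
  h.ind (Conn.refl (hS _ h.1)) fun _ _ _ ih h2 h3 => ih.tail (hr _ _ h2) (hS _ h3)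

/-- last exit from `T` -/
lemma Conn.last_exit {T : Set α} (h : Conn r S a b) (ha : a ∈ T) (hb : b ∉ T) :
    ∃ u ∈ T, ∃ y, Conn r S a u ∧ r u y ∧ Conn r (S \ T) y b := by
  revert hb
  refine h.ind (fun hb => absurd ha hb) fun u v h1 ih h2 h3 hv => ?_
  by_cases hu : u ∈ T
  · exact ⟨u, hu, v, h1, h2, Conn.refl ⟨h3, hv⟩⟩
  · obtain ⟨w, hw, y, h4, h5, h6⟩ := ih hu
    exact ⟨w, hw, y, h4, h5, h6.tail h2 ⟨h3, hv⟩⟩

lemma measurableSet_rtg {Ω : Type*} [MeasurableSpace Ω] [Countable α] (R : Ω → α → α → Prop)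
    (hR : ∀ u v, MeasurableSet {ω | R ω u v}) (a b : α) :
    MeasurableSet {ω | Relation.ReflTransGen (R ω) a b} := by
  let N : ℕ → Ω → α → Prop := fun n => Nat.rec (fun _ v => v = a)
    (fun _ ih ω v => ∃ u, ih ω u ∧ R ω u v) n
  have hN : ∀ n v, MeasurableSet {ω | N n ω v} := by
    intro n
    induction n with
    | zero => intro v; exact MeasurableSet.const _
    | succ n ih =>
      intro v
      have : {ω | N (n+1) ω v} = ⋃ u, {ω | N n ω u} ∩ {ω | R ω u v} := by
        ext ω; simp [N]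
      rw [this]
      exact MeasurableSet.iUnion fun u => (ih u).inter (hR u v)
  have : {ω | Relation.ReflTransGen (R ω) a b} = ⋃ n, {ω | N n ω b} := by
    ext ω
    simp only [mem_ofPred_eq, mem_iUnion]
    constructor
    · intro h
      induction h with
      | refl => exact ⟨0, rfl⟩
      | tail _ h2 ih => obtain ⟨n, hn⟩ := ih; exact ⟨n+1, _, hn, h2⟩
    · rintro ⟨n, hn⟩
      induction n generalizing b with
      | zero => cases (show b = a from hn); exact .refl
      | succ n ih => obtain ⟨u, h1, h2⟩ := hn; exact (ih u h1).tail h2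
  rw [this]
  exact MeasurableSet.iUnion fun n => hN n b

lemma measurableSet_conn {Ω : Type*} [MeasurableSpace Ω] [Countable α] (W : Ω → Set α)
    (hW : ∀ v, MeasurableSet {ω | v ∈ W ω}) (r : α → α → Prop) (a b : α) :
    MeasurableSet {ω | Conn r (W ω) a b} :=
  (hW a).inter (measurableSet_rtg (fun ω u v => r u v ∧ v ∈ W ω)
    (fun _ v => (MeasurableSet.const _).inter (hW v)) a b)

end Conn

variable {r : V → V → Prop} {S S' : Set V} {a b c : V}

/-- a path leaving a box hits its boundary ring while still inside the box -/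
lemma Conn.hit (hr : ∀ u v, r u v → d u v ≤ 1) (h : Conn r S a b) (c : V) (k : ℕ)
    (ha : d c a ≤ k) (hb : k ≤ d c b) :
    ∃ u, d c u = k ∧ Conn r (S ∩ {v | d c v ≤ k}) a u := by
  have : Conn r (S ∩ {v | d c v ≤ k}) a b ∨
      ∃ u, d c u = k ∧ Conn r (S ∩ {v | d c v ≤ k}) a u := by
    refine h.ind (Or.inl (Conn.refl ⟨h.1, ha⟩)) fun u v _ ih h2 h3 => ?_
    rcases ih with ih | ih
    · by_cases hv : d c v ≤ k
      · exact Or.inl (ih.tail h2 ⟨h3, hv⟩)
      · have h4 : d c u ≤ k := ih.right.2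
        have h5 := d_tri c u v
        have h6 := hr _ _ h2
        exact Or.inr ⟨u, by omega, ih⟩
    · exact Or.inr ih
  rcases this with h1 | h1
  · exact ⟨b, le_antisymm h1.right.2 hb, h1⟩
  · exact h1

/-- arm of length `k` from `a` -/
def Arm (r : V → V → Prop) (S : Set V) (a : V) (k : ℕ) : Prop := ∃ b, k ≤ d a b ∧ Conn r S a b

/-- infinite cluster at `a` -/
def Inf (r : V → V → Prop) (S : Set V) (a : V) : Prop := {b | Conn r S a b}.Infinite

lemma Arm.mono {k : ℕ} (h : Arm r S a k) (hS : S ⊆ S') : Arm r S' a k := by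
  obtain ⟨b, h1, h2⟩ := h; exact ⟨b, h1, h2.mono hS⟩

lemma Arm.anti {k l : ℕ} (h : Arm r S a k) (hl : l ≤ k) : Arm r S a l := by
  obtain ⟨b, h1, h2⟩ := h; exact ⟨b, hl.trans h1, h2⟩

lemma inf_iff : Inf r S a ↔ ∀ k, Arm r S a k := by
  constructor
  · intro h k
    by_contra hk
    refine h ((finite_box a k).subset fun b hb => ?_)
    by_contra hb'
    exact hk ⟨b, by simp only [mem_ofPred_eq] at hb'; omega, hb⟩
  · intro h hf
    obtain ⟨K, hK⟩ := bounded_of_finite hf a
    obtain ⟨b, h1, h2⟩ := h (K + 1)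
    have := hK b h2
    omega

lemma Inf.mono (h : Inf r S a) (hS : S ⊆ S') : Inf r S' a :=
  Set.Infinite.mono (fun _ hb => Conn.mono hb hS) h

lemma Inf.left (h : Inf r S a) : a ∈ S := by
  obtain ⟨b, hb⟩ := h.nonempty; exact hb.1

lemma Inf.far (h : Inf r S a) (c : V) (K : ℕ) : ∃ b, K ≤ d c b ∧ Conn r S a b := by
  obtain ⟨b, h1, h2⟩ := inf_iff.1 h (K + d c a)
  have := d_tri a c b
  have := d_comm a c
  exact ⟨b, by omega, h2⟩

section meas
variable {Ω : Type*} [MeasurableSpace Ω] (W : Ω → Set V) (hW : ∀ v, MeasurableSet {ω | v ∈ W ω})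
include hW

lemma measurableSet_arm (r : V → V → Prop) (a : V) (k : ℕ) :
    MeasurableSet {ω | Arm r (W ω) a k} := by
  have : {ω | Arm r (W ω) a k} = ⋃ b, {_ω | k ≤ d a b} ∩ {ω | Conn r (W ω) a b} := by
    ext ω; simp [Arm]
  rw [this]
  exact MeasurableSet.iUnion fun b => (MeasurableSet.const _).inter (measurableSet_conn W hW r a b)

lemma measurableSet_inf (r : V → V → Prop) (a : V) :
    MeasurableSet {ω | Inf r (W ω) a} := by
  have : {ω | Inf r (W ω) a} = ⋂ k, {ω | Arm r (W ω) a k} := by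
    ext ω; simp [inf_iff]
  rw [this]
  exact MeasurableSet.iInter fun k => measurableSet_arm W hW r a k

end meas

/-- self avoiding walks of length `l` from `x` inside `W` avoiding `A` -/
def SAW (W : Set V) : ℕ → V → Finset V → Prop
  | 0, x, A => x ∉ A ∧ x ∈ W
  | l + 1, x, A => x ∉ A ∧ x ∈ W ∧ ∃ y, d x y ≤ 1 ∧ SAW W l y (insert x A)

lemma saw_of_conn (W : Set V) (l : ℕ) : ∀ (x b : V) (A : Finset V), l ≤ d x b →
    Conn st (W \ A) x b → SAW W l x A := by
  induction l with
  | zero => intro x b A _ h; exact ⟨h.1.2, h.1.1⟩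
  | succ l ih =>
    intro x b A hd h
    have hb : b ∉ ({x} : Set V) := by
      rintro rfl; simp at hd
    obtain ⟨u, hu, y, -, h2, h3⟩ := h.last_exit (T := {x}) rfl hb
    cases hu
    refine ⟨h.1.2, h.1.1, y, h2, ih y b _ ?_ (h3.mono ?_)⟩
    · have := d_tri x y b
      have : d x y ≤ 1 := h2
      omega
    · rintro v ⟨⟨h4, h5⟩, h6⟩
      refine ⟨h4, ?_⟩
      simp only [Finset.coe_insert, mem_insert_iff, not_or]
      exact ⟨h6, h5⟩

lemma peierls_aux {Ω : Type*} [MeasurableSpace Ω] (μ : Measure Ω) (W : Ω → Set V) (β : ℝ≥0∞)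
    (h : ∀ A : Finset V, μ {ω | (A : Set V) ⊆ W ω} ≤ β ^ A.card) (l : ℕ) :
    ∀ (x : V) (A : Finset V),
      μ {ω | (A : Set V) ⊆ W ω ∧ SAW (W ω) l x A} ≤ 9 ^ l * β ^ (A.card + l + 1) := by
  induction l with
  | zero =>
    intro x A
    by_cases hx : x ∈ A
    · have : {ω | (A : Set V) ⊆ W ω ∧ SAW (W ω) 0 x A} = ∅ := by
        ext ω; simp [SAW, hx]
      simp [this]
    · have := h (insert x A)
      rw [Finset.card_insert_of_notMem hx] at this
      simp only [pow_zero, one_mul, add_zero]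
      refine le_trans (measure_mono ?_) this
      rintro ω ⟨h1, h2⟩
      simp only [Finset.coe_insert, mem_ofPred_eq]
      exact insert_subset h2.2 h1
  | succ l ih =>
    intro x A
    by_cases hx : x ∈ A
    · have : {ω | (A : Set V) ⊆ W ω ∧ SAW (W ω) (l+1) x A} = ∅ := by
        ext ω; simp [SAW, hx]
      simp [this]
    have hsub : {ω | (A : Set V) ⊆ W ω ∧ SAW (W ω) (l+1) x A} ⊆
        ⋃ y ∈ box x 1, {ω | ((insert x A : Finset V) : Set V) ⊆ W ω ∧
          SAW (W ω) l y (insert x A)} := by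
      rintro ω ⟨h1, -, h2, y, h3, h4⟩
      simp only [mem_iUnion]
      refine ⟨y, by simpa using h3, ?_, h4⟩
      simp only [Finset.coe_insert]
      exact insert_subset h2 h1
    refine (measure_mono hsub).trans ((measure_biUnion_finset_le _ _).trans ?_)
    refine (Finset.sum_le_card_nsmul _ _ _ fun y _ => ih y (insert x A)).trans ?_
    rw [card_box, Finset.card_insert_of_notMem hx]
    apply le_of_eq
    simp only [nsmul_eq_mul]
    rw [show A.card + 1 + l + 1 = A.card + (l + 1) + 1 by ring, pow_succ (9 : ℝ≥0∞) l]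
    norm_num
    ring

/-- Peierls bound -/
lemma peierls {Ω : Type*} [MeasurableSpace Ω] (μ : Measure Ω) (W : Ω → Set V) (β : ℝ≥0∞)
    (h : ∀ A : Finset V, μ {ω | (A : Set V) ⊆ W ω} ≤ β ^ A.card) (l : ℕ) (x : V) :
    μ {ω | Arm st (W ω) x l} ≤ (9 * β) ^ l * β := by
  have := peierls_aux μ W β h l x ∅
  refine le_trans (measure_mono ?_) (this.trans (le_of_eq ?_))
  · rintro ω ⟨b, h1, h2⟩
    exact ⟨by simp, saw_of_conn _ _ _ b _ h1 (by simpa using h2)⟩
  · simp only [Finset.card_empty, zero_add, mul_pow, pow_succ, mul_assoc]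

end Pool.Agent.EB
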