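import Pool.Agent.P.MP_d1873d_pr.Col

/-! No coexistence without any symmetry assumption. -/

namespace Pool.Agent.EB

open MeasureTheory Set Filter Topology
open scoped ENNReal

def rot : V ≃ V where
  toFun v := (-v.2, v.1)
  invFun v := (v.2, -v.1)
  left_inv v := by simp
  right_inv v := by simp

lemma nn_rot (u v : V) : nn (rot u) (rot v) ↔ nn u v := by
  simp only [rot, nn, Equiv.coe_fn_mk]; omega

lemma st_rot (u v : V) : st (rot u) (rot v) ↔ st u v := by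
  simp only [rot, st, d, Equiv.coe_fn_mk]; omega

lemma d_rot (u v : V) : d (rot u) (rot v) = d u v := by
  simp only [rot, d, Equiv.coe_fn_mk]; omega

lemma d0_rot (v : V) : d 0 (rot v) = d 0 v := by
  simp only [rot, d, Equiv.coe_fn_mk, Prod.fst_zero, Prod.snd_zero]; omega

lemma phi_rot {n N K : ℕ} {W : Set V} (h : Phi n N K (rot ⁻¹' W)) : Phi n N K W := by
  have e1 : (rot ⁻¹' W)ᶜ \ {v | d 0 v < N} = rot ⁻¹' (Wᶜ \ {v | d 0 v < N}) := by
    ext v; simp [d0_rot]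
  have e2 : (rot ⁻¹' W ∪ {v | d 0 v ≤ n})ᶜ ∩ {v | d 0 v ≤ K} =
      rot ⁻¹' ((W ∪ {v | d 0 v ≤ n})ᶜ ∩ {v | d 0 v ≤ K}) := by
    ext v; simp [d0_rot]
  obtain ⟨y, y', h1, ⟨⟨b, h2, h3⟩, b', h4, h5⟩, h6⟩ := h
  rw [e1, conn_equiv rot st_rot] at h3 h5
  rw [e2, conn_equiv rot st_rot] at h6
  exact ⟨rot y, rot y', by simpa only [d0_rot] using h1, ⟨⟨_, by rwa [d_rot], h3⟩, _,
    by rwa [d_rot], h5⟩, h6⟩

/-- the rectangle with corners `0` and `(a, b)` seen from `p` -/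
def Rp (a b : ℤ) (p : V) : Set V := Rc (0 - p.1) (a - p.1) (0 - p.2) (b - p.2)

lemma conn_tr {r : V → V → Prop} (h : ∀ u v w, r (w + u) (w + v) ↔ r u v) {W : Set V} {a b : ℤ}
    (p : V) {q u v : V} (h1 : Conn r (W ∩ Rp a b q) u v) :
    Conn r (Equiv.addLeft (p - q) ⁻¹' W ∩ Rp a b p) (q - p + u) (q - p + v) :=
  h1.map (fun x => q - p + x) (fun x y => (h x y _).2) fun x hx => ⟨by
    change p - q + (q - p + x) ∈ W
    rw [show p - q + (q - p + x) = x by abel]; exact hx.1, by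
    have := hx.2
    simp only [Rp, mem_Rc, Prod.fst_add, Prod.snd_add, Prod.fst_sub, Prod.snd_sub] at this ⊢
    omega⟩

variable {Ω : Type} [MeasurableSpace Ω] {P : Measure Ω}

lemma Col.rot {r : V → V → Prop} {S : Ω → Set V} (C : Col P r S)
    (h : ∀ u v, r (rot u) (rot v) ↔ r u v) : Col P r fun E => rot ⁻¹' S E := by
  have mp : Measurable fun W : Set V => EB.rot ⁻¹' W :=
    measurable_set_iff.2 fun a => measurable_set_mem _
  refine ⟨C.near, C.add, mp.comp C.meas, fun p q h1 h2 h3 h4 => C.fkg _ _ (h1.comp mp) (h2.comp mp)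
    (fun _ _ h => h3 (preimage_mono h)) fun _ _ h => h4 (preimage_mono h), fun v p h1 => ?_, ?_⟩
  · refine Eq.trans ?_ (C.sh (EB.rot v) _ (h1.comp mp))
    have : ∀ W : Set V, Equiv.addLeft v ⁻¹' (EB.rot ⁻¹' W) =
        EB.rot ⁻¹' (Equiv.addLeft (EB.rot v) ⁻¹' W) := fun W => by
      ext x; simp [EB.rot, add_comm, Prod.add_def]
    simp only [this, Function.comp]
  · refine measure_mono_null ?_ C.perc
    intro E hE a ha
    refine hE (EB.rot.symm a) ?_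
    rwa [inf_equiv _ h, Equiv.apply_symm_apply]

lemma HP.rot {r : V → V → Prop} {S : Ω → Set V} {f : V → ℤ} (h : ∀ u v, r (rot u) (rot v) ↔ r u v)
    (H : HP P r (fun E => rot ⁻¹' S E) f) : HP P r S fun v => f (rot.symm v) := fun j => by
  refine measure_mono_null ?_ (H j)
  rintro E ⟨a, ha⟩
  refine ⟨EB.rot.symm a, ?_⟩
  have : EB.rot ⁻¹' S E ∩ {v | j ≤ f v} = EB.rot ⁻¹' (S E ∩ {v | j ≤ f (EB.rot.symm v)}) := by
    ext v; simp
  rwa [this, inf_equiv _ h, Equiv.apply_symm_apply]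

structure Nice (P : Measure Ω) (W : Ω → Set V) : Prop where
  cp : Col P nn W
  cm : Col P st fun E => (W E)ᶜ
  uniq : P {E | ∃ a b, Inf st (W E)ᶜ a ∧ Inf st (W E)ᶜ b ∧ ¬ Conn st (W E)ᶜ a b} = 0
  phi : ∀ n, ∀ e > 0, ∃ N K, n < N ∧ P.real {E | Phi n N K (W E)} ≤ e

/-- both sides of the rectangle in the direction `f` are reached from a central box -/
def Two (P : Measure Ω) (r : V → V → Prop) (S : Ω → Set V) (n D : ℕ) (f : V → ℤ) (a b : ℤ) : Prop :=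
  ∃ p ∈ Rc D (a - D) D (b - D),
    fl P S (fun W => Reach r W n (Rp a b p) f (f (a, b) - f p)) ≤ 1 / 7 ∧
    fl P S (fun W => Reach r W n (Rp a b p) f (0 - f p)) ≤ 1 / 7

variable [IsProbabilityMeasure P] {W : Ω → Set V}

lemma three {S : Ω → Set V} {p q : Set V → Prop} {A D : Set Ω} {x y z : ℝ} (hp : fl P S p ≤ x)
    (hq : fl P S q ≤ y) (hD : P.real D ≤ z) (h : ∀ E ∈ A, p (S E) → q (S E) → ¬ E ∉ D) :
    P.real A ≤ x + y + z :=
  (rmono (t := {E | ¬ p (S E)} ∪ {E | ¬ q (S E)} ∪ D) fun E hE => by_contra fun h1 => by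
    simp only [mem_union, mem_ofPred_eq, not_or, not_not] at h1
    exact h E hE h1.1.1 h1.1.2 h1.2).trans ((measureReal_union_le _ _).trans
      (add_le_add ((measureReal_union_le _ _).trans (add_le_add hp hq)) hD))

lemma Nice.rot (h : Nice P W) : Nice P fun E => rot ⁻¹' W E := by
  refine ⟨h.cp.rot nn_rot, h.cm.rot st_rot, measure_mono_null ?_ h.uniq, fun n e he => ?_⟩
  · rintro E ⟨a, b, h1⟩
    rw [← preimage_compl, inf_equiv _ st_rot, inf_equiv _ st_rot, conn_equiv _ st_rot] at h1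
    exact ⟨_, _, h1⟩
  · obtain ⟨N, K, h1, h2⟩ := h.phi n e he
    exact ⟨N, K, h1, (rmono fun E hE => phi_rot hE).trans h2⟩

lemma Nice.half (h : Nice P W) {r r' : V → V → Prop} {S S' : Ω → Set V} (C : Col P r S)
    (C' : Col P r' S') (hs : ∀ u v, r' u v → r' v u)
    (hc : ∀ j, P {E | ∃ a, Inf r (S E) a ∧ ∀ b, Conn r (S E) a b → j ≤ b.1} = 0)
    (det : ∀ (E : Ω) (n N K : ℕ) (j y z z' : ℤ) (u u' : V), n < N → j = -(N + K : ℕ) →
      ¬ Phi n N K (W E) → d 0 u ≤ n → d 0 u' ≤ n → y ≤ z → z' ≤ y →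
      Conn r (S E ∩ {v | j ≤ v.1}) u (j, z) → Conn r (S E ∩ {v | j ≤ v.1}) u' (j, z') →
      ¬ Inf r' (S' E ∩ {v | j ≤ v.1}) (j, y)) : HP P r' S' Prod.fst := by
  refine Col.hp_of hs fun j y => null_of fun e he => ?_
  obtain ⟨n, hn⟩ := C.arms hc (η := min (e / 3) (1 / 2)) (by positivity)
    ((min_le_right _ _).trans_lt (by norm_num))
  obtain ⟨N, K, h1, h2⟩ := h.phi n (e / 3) (by positivity)
  obtain ⟨y', h3, h4⟩ := hn (-(N + K : ℕ)) (by omega)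
  have e1 : P {E | Inf r' (S' E ∩ {v | j ≤ v.1}) (j, y)} =
      P {E | Inf r' (S' E ∩ {v | -((N + K : ℕ) : ℤ) ≤ v.1}) (-(N + K : ℕ), y')} := by
    rw [← C'.sh (j + (N + K : ℕ), y - y') _ (ms_inf r' _ (-(N + K : ℕ), y'))]
    congr 1
    ext E
    have : Equiv.addLeft ((j + (N + K : ℕ), y - y') : V) ⁻¹' S' E ∩
        {v | -((N + K : ℕ) : ℤ) ≤ v.1} = Equiv.addLeft ((j + (N + K : ℕ), y - y') : V) ⁻¹'
          (S' E ∩ {v | j ≤ v.1}) := by
      ext v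
      simp only [mem_inter_iff, mem_preimage, Equiv.coe_addLeft, mem_ofPred_eq, Prod.fst_add]
      exact and_congr_right fun _ => by omega
    rw [mem_ofPred_eq, mem_ofPred_eq, this, inf_equiv _ fun u v => C'.add u v _]
    rw [Equiv.coe_addLeft]
    simp only [Prod.mk_add_mk, add_neg_cancel_right, sub_add_cancel]
  rw [measureReal_def, e1]
  refine (three h3 h4 h2 fun E hE ⟨u, z, a1, a2, a3⟩ ⟨u', z', b1, b2, b3⟩ h6 => ?_).trans ?_
  · exact det E n N K _ y' z z' u u' h1 rfl h6 a1 b1 a2 b2 a3 b3 hE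
  · linarith [min_le_left (e / 3) (1 / 2)]

lemma Nice.hp1 (h : Nice P W) : HP P nn W Prod.fst ∧ HP P st (fun E => (W E)ᶜ) Prod.fst := by
  have sub : ∀ (k : ℕ) (j : ℤ), j ≤ -k → {v | d 0 v ≤ k} ⊆ {v : V | j ≤ v.1} := fun k j h1 v hv => by
    simp only [mem_ofPred_eq, d, Prod.fst_zero, Prod.snd_zero] at hv ⊢; omega
  have h1 : HP P nn W Prod.fst := h.half h.cm h.cp (fun _ _ => nn_symm) (h.cm.conf h.uniq)
    fun E n N K j y z z' u u' a1 a2 a3 a4 a5 a6 a7 a8 a9 => block_m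
      ((join a1 a3 (sub K j (by omega)) a4 a5 (by rw [d0]; omega) (by rw [d0]; omega) a8 a9).mono
        (inter_subset_inter_left _ (compl_subset_compl.2 subset_union_left))) a6 a7
  refine ⟨h1, h.half h.cp h.cm (fun _ _ => st_symm) (fun j => measure_mono_null ?_ (h1 j))
    fun E n N K j y z z' u u' a1 a2 a3 a4 a5 a6 a7 a8 a9 hi => block_p
      (join_p (sub n j (by omega)) a4 a5 a8 a9) a6 a7 (inf_iff.2 fun k => ?_)⟩
  · rintro E ⟨a, h2, h3⟩
    exact ⟨a, Set.Infinite.mono (fun b hb => Conn.mono_reach hb fun v hv => ⟨hv.right, h3 v hv⟩) h2⟩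
  · obtain ⟨b, h2, h3⟩ := hi.far 0 (N + K + k + d 0 (j, y))
    have := d_tri 0 (j, y) b
    exact ⟨b, by omega, reroute a1 a3 (sub K j (by omega)) (by rw [d0]; omega) (by omega) h3⟩

namespace Col

variable {r : V → V → Prop} {S : Ω → Set V} (C : Col P r S)
include C

lemma reach_tr {f : V → ℤ} (hf : f = Prod.fst ∨ f = Prod.snd) {p q : V} (h : d p q ≤ 1) (n : ℕ)
    (a b c : ℤ) : fl P S (fun W => Reach r W (n + 1) (Rp a b p) f (c - f p)) ≤
      fl P S fun W => Reach r W n (Rp a b q) f (c - f q) := by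
  refine C.tr (p - q) (ms_reach _ _ _ _ _) fun W ⟨u, v, h1, h2, h3⟩ =>
    ⟨_, _, ?_, ?_, conn_tr C.add p h3⟩
  · simp only [d, Prod.fst_add, Prod.snd_add, Prod.fst_sub, Prod.snd_sub, Prod.fst_zero,
      Prod.snd_zero] at h h1 ⊢
    omega
  · rcases hf with rfl | rfl <;>
      simp only [Prod.fst_add, Prod.snd_add, Prod.fst_sub, Prod.snd_sub] <;> omega

lemma two_or (H1 : HP P r S Prod.fst) (H2 : HP P r S Prod.snd) (H3 : HP P r S fun v => -v.1)
    (H4 : HP P r S fun v => -v.2) {n D : ℕ} (hD : n < D)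
    (hn : fl P S (fun W => ∃ a, d 0 a ≤ n ∧ Inf r W a) ≤ ((1 / 7) ^ 2) ^ 2) :
    ∃ M : ℕ, ∀ a b : ℤ, M ≤ a → M ≤ b →
      Two P r S (n + 1) D Prod.snd a b ∨ Two P r S (n + 1) D Prod.fst (a + 1) b := by
  obtain ⟨L1, l1⟩ := C.far H1 (-(D + 1)) n
  obtain ⟨L2, l2⟩ := C.far H2 (-(D + 1)) n
  obtain ⟨L3, l3⟩ := C.far H3 (-(D + 1)) n
  obtain ⟨L4, l4⟩ := C.far H4 (-(D + 1)) n
  have f1 : ∀ v : V, v.1.natAbs ≤ d 0 v := fun v => by simp [d]
  have f2 : ∀ v : V, v.2.natAbs ≤ d 0 v := fun v => by simp [d]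
  refine ⟨L1 + L2 + L3 + L4 + 2 * D, fun a b ha hb => ?_⟩
  obtain ⟨p, hp, q, h1, h2⟩ := grid (x0 := D) (x1 := a - D) (y0 := D) (y1 := b - D)
    (T := fun p => fl P S (fun W => Reach r W n (Rp a b p) Prod.snd (b - p.2)) ≤ 1 / 7)
    (B := fun p => fl P S (fun W => Reach r W n (Rp a b p) Prod.snd (0 - p.2)) ≤ 1 / 7)
    (L := fun p => fl P S (fun W => Reach r W n (Rp (a + 1) b p) Prod.fst (0 - p.1)) ≤ 1 / 7)
    (R := fun p => fl P S (fun W => Reach r W n (Rp (a + 1) b p) Prod.fst (a + 1 - p.1)) ≤ 1 / 7)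
    (by omega) (by omega)
    (fun p hp => (C.sqrt ((ms_reach _ _ _ _ _).or (ms_reach _ _ _ _ _))
      ((ms_reach _ _ _ _ _).or (ms_reach _ _ _ _ _))
      (fun _ _ h => Or.imp (mono_reach _ _ _ _ _ h) (mono_reach _ _ _ _ _ h))
      (fun _ _ h => Or.imp (mono_reach _ _ _ _ _ h) (mono_reach _ _ _ _ _ h)) (by norm_num)
      (le_trans (fl_mono fun W ⟨u, h1, h2⟩ => by
        have := exit_four C.near h2 h1 (x0 := 0 - p.1) (x1 := a - p.1) (y0 := 0 - p.2)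
          (y1 := b - p.2) (by
            simp only [mem_Rc, d, Prod.fst_zero, Prod.snd_zero] at hp h1 ⊢; omega)
        rwa [show a - p.1 + 1 = a + 1 - p.1 by ring] at this) hn)).imp
      (C.sqrt (ms_reach _ _ _ _ _) (ms_reach _ _ _ _ _) (mono_reach _ _ _ _ _)
        (mono_reach _ _ _ _ _) (by norm_num))
      (C.sqrt (ms_reach _ _ _ _ _) (ms_reach _ _ _ _ _) (mono_reach _ _ _ _ _)
        (mono_reach _ _ _ _ _) (by norm_num)))
    (fun p hp h1 h2 => by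
      linarith [l2 (Rp a b p) _ (b - p.2) (fun v hv => by
        simp only [Rp, mem_Rc, mem_ofPred_eq] at hv ⊢; omega) f2 (by omega)])
    (fun p hp h1 h2 => by
      linarith [l4 (Rp a b p) _ (0 - p.2) (fun v hv => by
        simp only [Rp, mem_Rc, mem_ofPred_eq] at hv ⊢; omega) f2 (by omega)])
    (fun p hp h1 h2 => by
      linarith [l3 (Rp (a + 1) b p) _ (0 - p.1) (fun v hv => by
        simp only [Rp, mem_Rc, mem_ofPred_eq] at hv ⊢; omega) f1 (by omega)])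
    (fun p hp h1 h2 => by
      linarith [l1 (Rp (a + 1) b p) _ (a + 1 - p.1) (fun v hv => by
        simp only [Rp, mem_Rc, mem_ofPred_eq] at hv ⊢; omega) f1 (by omega)])
    (fun x y h1 h2 => le_trans (fl_mono fun W h => by
      have := Reach.down C.near h (by simp only; omega)
      simp only at this
      rwa [show 0 - (y + 1) + 1 = 0 - y by ring, show b - (y + 1) + 1 = b - y by ring] at this) h2)
  rcases h2 with ⟨h2, h3⟩ | ⟨h2, h3⟩
  · exact Or.inl ⟨p, hp, (C.reach_tr (Or.inr rfl) (by simp) n a b b).trans h2,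
      (C.reach_tr (Or.inr rfl) h1 n a b 0).trans h3⟩
  · exact Or.inr ⟨p, by rw [mem_Rc] at hp ⊢; omega,
      (C.reach_tr (Or.inl rfl) h1 n (a + 1) b (a + 1)).trans h3,
      (C.reach_tr (Or.inl rfl) (by simp) n (a + 1) b 0).trans h2⟩

lemma not_two {f g : V → ℤ} (H : HP P r S g) (hf : ∀ v, (f v).natAbs ≤ d 0 v) (n D : ℕ) (j : ℤ) :
    ∃ M : ℕ, ∀ a b : ℤ, (∀ p ∈ Rc D (a - D) D (b - D), Rp a b p ⊆ {v | j ≤ g v}) → M ≤ f (a, b) →
      ¬ Two P r S n D f a b := by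
  obtain ⟨L, hL⟩ := C.far H j n
  refine ⟨2 * L, fun a b h1 h2 ⟨p, hp, h3, h4⟩ => ?_⟩
  rcases le_total L (0 - f p).natAbs with h | h
  · linarith [hL _ f _ (h1 p hp) hf h]
  · linarith [hL _ f (f (a, b) - f p) (h1 p hp) hf (by omega)]

end Col

lemma Nice.cross (h : Nice P W) {f g : V → ℤ} (hg : g = Prod.fst ∨ g = Prod.snd) {n N K : ℕ}
    (hn : n < N) (hK : P.real {E | Phi n N K (W E)} ≤ 1 / 7) {a b : ℤ}
    (hs : ∀ (S : Set V) (p u v y y' : V), Conn nn (S ∩ Rp a b p) u v → f u = 0 - f p →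
      f v = f (a, b) - f p → g y = g (a, b) - g p → g y' = 0 - g p → ¬ Conn st (Sᶜ ∩ Rp a b p) y y')
    (h1 : Two P nn W n (N + K) f a b) : ¬ Two P st (fun E => (W E)ᶜ) n (N + K) g a b := by
  rintro ⟨q, hq, b1, b2⟩
  obtain ⟨p, hp, a1, a2⟩ := h1
  have sub : ∀ p ∈ Rc (N + K : ℕ) (a - (N + K : ℕ)) (N + K : ℕ) (b - (N + K : ℕ)), ∀ k ≤ N + K,
      {v | d 0 v ≤ k} ⊆ Rp a b p := fun p hp k hk v hv => by
    simp only [mem_ofPred_eq, d, Prod.fst_zero, Prod.snd_zero, Rp, mem_Rc] at hp hv ⊢; omega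
  have far : ∀ p ∈ Rc (N + K : ℕ) (a - (N + K : ℕ)) (N + K : ℕ) (b - (N + K : ℕ)), ∀ y,
      (g y = g (a, b) - g p ∨ g y = 0 - g p) → N + K ≤ d 0 y := fun p hp y hy => by
    rcases hg with rfl | rfl <;>
      simp only [d, Prod.fst_zero, Prod.snd_zero, mem_Rc] at hp hy ⊢ <;> omega
  let Cr : V → Set V → Prop := fun p S =>
    ∃ y y', g y = g (a, b) - g p ∧ g y' = 0 - g p ∧ Conn st (S ∩ Rp a b p) y y'
  have c1 : fl P (fun E => (W E)ᶜ) (Cr q) ≤ 1 / 7 + 1 / 7 + 1 / 7 := by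
    refine three b1 b2 hK fun E hE ⟨u, y, c1, c2, c3⟩ ⟨u', y', d1, d2, d3⟩ h6 => ?_
    exact hE ⟨y, y', c2, d2, (join hn h6 (sub q hq K (by omega)) c1 d1 (far q hq y (Or.inl c2))
      (far q hq y' (Or.inr d2)) c3 d3).mono
        (inter_subset_inter_left _ (compl_subset_compl.2 subset_union_left))⟩
  have c2 : fl P (fun E => (W E)ᶜ) (Cr p) ≤ fl P (fun E => (W E)ᶜ) (Cr q) := by
    refine h.cm.tr (p - q) (Measurable.exists fun y => Measurable.exists fun y' =>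
      measurable_const.and (measurable_const.and (ms_conn _ _ _ _))) fun S ⟨y, y', c1, c2, c3⟩ =>
        ⟨_, _, ?_, ?_, conn_tr st_add p c3⟩ <;>
    rcases hg with rfl | rfl <;>
      simp only [Prod.fst_add, Prod.snd_add, Prod.fst_sub, Prod.snd_sub] at c1 c2 ⊢ <;> omega
  have c3 : P.real {E | Cr p (W E)ᶜ} ≤ 1 / 7 + 1 / 7 + 1 / 7 := by
    refine three a1 a2 hK fun E hE ⟨u, v, c1, c2, c3⟩ ⟨u', v', d1, d2, d3⟩ h6 => ?_
    obtain ⟨y, y', e1, e2, e3⟩ := hE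
    exact hs _ p v' v y y' (join_p (sub p hp n (by omega)) d1 c1 d3 c3) d2 c2 e1 e2
      (reroute hn h6 (sub p hp K (by omega)) (far p hp y (Or.inl e1)) (far p hp y' (Or.inr e2)) e3)
  have c4 := measureReal_union_le (μ := P) {E | Cr p (W E)ᶜ} {E | Cr p (W E)ᶜ}ᶜ
  rw [union_compl_self, probReal_univ] at c4
  change _ ≤ _ + fl P (fun E => (W E)ᶜ) (Cr p) at c4
  linarith

omit [IsProbabilityMeasure P] in
lemma hp_rot {f g : V → ℤ} (e : g = fun v => f (rot.symm v))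
    (h : HP P nn (fun E => rot ⁻¹' W E) f ∧ HP P st (fun E => (rot ⁻¹' W E)ᶜ) f) :
    HP P nn W g ∧ HP P st (fun E => (W E)ᶜ) g :=
  e ▸ ⟨h.1.rot nn_rot, HP.rot (S := fun E => (W E)ᶜ) st_rot h.2⟩

theorem Nice.elim (h : Nice P W) : False := by
  have h2 : ∀ {W : Ω → Set V}, Nice P W → HP P nn W Prod.snd ∧ HP P st (fun E => (W E)ᶜ) Prod.snd :=
    fun h => hp_rot (f := Prod.fst) rfl h.rot.hp1
  have h3 : ∀ {W : Ω → Set V}, Nice P W → HP P nn W (fun v => -v.1) ∧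
      HP P st (fun E => (W E)ᶜ) fun v => -v.1 := fun h => hp_rot (f := Prod.snd) rfl (h2 h.rot)
  have h4 : HP P nn W (fun v => -v.2) ∧ HP P st (fun E => (W E)ᶜ) fun v => -v.2 :=
    hp_rot (f := fun v => -v.1) rfl (h3 h.rot)
  obtain ⟨n1, k1⟩ := h.cp.noinf (e := ((1 / 7) ^ 2) ^ 2) (by positivity)
  obtain ⟨n2, k2⟩ := h.cm.noinf (e := ((1 / 7) ^ 2) ^ 2) (by positivity)
  obtain ⟨N, K, hn, hK⟩ := h.phi (n1 + n2 + 1) (1 / 7) (by norm_num)
  obtain ⟨M1, m1⟩ := h.cp.two_or h.hp1.1 (h2 h).1 (h3 h).1 h4.1 (n := n1 + n2) (D := N + K)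
    (by omega) (le_trans (fl_mono fun W ⟨a, h1, h2⟩ => ⟨a, by omega, h2⟩) k1)
  obtain ⟨M2, m2⟩ := h.cm.two_or h.hp1.2 (h2 h).2 (h3 h).2 h4.2 (n := n1 + n2) (D := N + K)
    (by omega) (le_trans (fl_mono fun W ⟨a, h1, h2⟩ => ⟨a, by omega, h2⟩) k2)
  have f1 : ∀ v : V, v.1.natAbs ≤ d 0 v := fun v => by simp [d]
  have f2 : ∀ v : V, v.2.natAbs ≤ d 0 v := fun v => by simp [d]
  obtain ⟨B1, b1⟩ := h.cp.not_two h.hp1.1 f2 (n1 + n2 + 1) (N + K) (-(M1 + M2))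
  obtain ⟨B2, b2⟩ := h.cm.not_two h.hp1.2 f2 (n1 + n2 + 1) (N + K) (-(M1 + M2))
  obtain ⟨b, hb⟩ : ∃ b : ℤ, b = M1 + M2 + B1 + B2 := ⟨_, rfl⟩
  obtain ⟨A, a1⟩ := h.cp.not_two (h2 h).1 f1 (n1 + n2 + 1) (N + K) (-b)
  have key : ∀ a : ℤ, M1 + M2 ≤ a → ¬ Two P nn W (n1 + n2 + 1) (N + K) Prod.snd a b ∧
      ¬ Two P st (fun E => (W E)ᶜ) (n1 + n2 + 1) (N + K) Prod.snd a b := by
    intro a ha
    induction a, ha using Int.leInduction with
    | base =>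
      exact ⟨b1 _ _ (fun p hp v hv => by
        simp only [Rp, mem_Rc, mem_ofPred_eq] at hp hv ⊢; omega) (by simp only; omega),
        b2 _ _ (fun p hp v hv => by
        simp only [Rp, mem_Rc, mem_ofPred_eq] at hp hv ⊢; omega) (by simp only; omega)⟩
    | succ a ha ih =>
      exact ⟨fun h5 => h.cross (Or.inl rfl) hn hK (fun S p u v y y' c1 c2 c3 c4 c5 =>
        sep_v c1 c2 c3 c4 c5) h5 ((m2 a b (by omega) (by omega)).resolve_left ih.2),
        h.cross (Or.inr rfl) hn hK (fun S p u v y y' c1 c2 c3 c4 c5 => sep_h c1 c2 c3 c4 c5)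
          ((m1 a b (by omega) (by omega)).resolve_left ih.1)⟩
  exact a1 (M1 + M2 + A + 1) b (fun p hp v hv => by
    simp only [Rp, mem_Rc, mem_ofPred_eq] at hp hv ⊢; omega) (by simp only; omega)
    ((m1 _ b (by omega) (by omega)).resolve_left (key _ (by omega)).1)

end Pool.Agent.EB
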