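import Pool.Agent.P.MP_d1873d_pr.Rect

/-! Positively associated translation invariant random sets with an infinite cluster. -/

namespace Pool.Agent.EB

open MeasureTheory Set Filter Topology
open scoped ENNReal

lemma ms_conn (r : V → V → Prop) (R : Set V) (a b : V) :
    Measurable fun W : Set V => Conn r (W ∩ R) a b :=
  measurableSet_setOfPred.1 (measurableSet_conn (fun W : Set V => W ∩ R)
    (fun v => (measurableSet_mem v).inter (MeasurableSet.const _)) r a b)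

lemma ms_inf (r : V → V → Prop) (R : Set V) (a : V) :
    Measurable fun W : Set V => Inf r (W ∩ R) a :=
  measurableSet_setOfPred.1 (measurableSet_inf (fun W : Set V => W ∩ R)
    (fun v => (measurableSet_mem v).inter (MeasurableSet.const _)) r a)

lemma ms_reach (r : V → V → Prop) (n : ℕ) (R : Set V) (f : V → ℤ) (c : ℤ) :
    Measurable fun W : Set V => Reach r W n R f c :=
  Measurable.exists fun u => Measurable.exists fun v => measurable_const.and
    (measurable_const.and (ms_conn r R u v))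

lemma mono_reach (r : V → V → Prop) (n : ℕ) (R : Set V) (f : V → ℤ) (c : ℤ) :
    Monotone fun W : Set V => Reach r W n R f c :=
  fun _ _ h ⟨u, v, h1, h2, h3⟩ => ⟨u, v, h1, h2, h3.mono (inter_subset_inter_left _ h)⟩

lemma hit_col {r : V → V → Prop} (hr : ∀ u v, r u v → d u v ≤ 1) {W : Set V} {a b : V} {j : ℤ}
    (h : Conn r W a b) (ha : j ≤ a.1) (hb : b.1 ≤ j) :
    ∃ z, Conn r (W ∩ {v | j ≤ v.1}) a (j, z) := by
  by_contra hne
  have key : Conn r (W ∩ {v | j ≤ v.1}) a b := by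
    refine h.ind (Conn.refl ⟨h.1, ha⟩) fun u v _ ih h1 h2 => ih.tail h1 ⟨h2, ?_⟩
    have h3 : u.1 ≠ j := fun e => hne ⟨u.2, e ▸ ih⟩
    have h4 := ih.right.2
    have h5 := hr _ _ h1
    simp only [mem_ofPred_eq, d] at h4 h5 ⊢
    omega
  exact hne ⟨b.2, le_antisymm hb key.right.2 ▸ key⟩

variable {Ω : Type} [MeasurableSpace Ω] {P : Measure Ω} [IsProbabilityMeasure P]

lemma ev_le {A : ℕ → Set Ω} (mA : ∀ k, MeasurableSet (A k)) (hA : Antitone A) {c e : ℝ}
    (h : P.real (⋂ k, A k) ≤ c) (hc : c < e) : ∀ᶠ k in atTop, P.real (A k) ≤ e :=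
  ((ENNReal.tendsto_toReal (measure_ne_top _ _)).comp (tendsto_measure_iInter_atTop
    (fun k => (mA k).nullMeasurableSet) hA ⟨0, measure_ne_top _ _⟩)).eventually_le_const
      (h.trans_lt hc)

omit [IsProbabilityMeasure P] in
lemma real_null {A B : Set Ω} (h : P B = 0) (hA : A ⊆ B) : P.real A ≤ 0 := by
  rw [measureReal_def, measure_mono_null hA h]; rfl

lemma null_of {A : Set Ω} (h : ∀ e > 0, P.real A ≤ e) : P A = 0 := by
  rw [← measureReal_eq_zero_iff]
  exact le_antisymm (le_of_forall_pos_le_add fun e he => by simpa using h e he) measureReal_nonneg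

/-- the probability that `p` fails -/
noncomputable def fl (P : Measure Ω) (S : Ω → Set V) (p : Set V → Prop) : ℝ :=
  P.real {E | ¬ p (S E)}

lemma fl_mono {S : Ω → Set V} {p q : Set V → Prop} (h : ∀ W, p W → q W) : fl P S q ≤ fl P S p :=
  rmono fun _ h1 h2 => h1 (h _ h2)

structure Col (P : Measure Ω) (r : V → V → Prop) (S : Ω → Set V) : Prop where
  near : ∀ u v, r u v → d u v ≤ 1
  add : ∀ u v w, r (w + u) (w + v) ↔ r u v
  meas : Measurable S
  fkg : ∀ p q : Set V → Prop, Measurable p → Measurable q → Monotone p → Monotone q →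
    P {E | ¬ p (S E)} * P {E | ¬ q (S E)} ≤ P ({E | ¬ p (S E)} ∩ {E | ¬ q (S E)})
  sh : ∀ v (p : Set V → Prop), Measurable p →
    P {E | p (Equiv.addLeft v ⁻¹' S E)} = P {E | p (S E)}
  perc : P {E | ∀ a, ¬ Inf r (S E) a} = 0

/-- no infinite cluster in the half planes given by `f` -/
def HP (P : Measure Ω) (r : V → V → Prop) (S : Ω → Set V) (f : V → ℤ) : Prop :=
  ∀ j, P {E | ∃ a, Inf r (S E ∩ {v | j ≤ f v}) a} = 0

namespace Col

variable {r : V → V → Prop} {S : Ω → Set V} (C : Col P r S)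
include C

omit [IsProbabilityMeasure P] in
lemma ms {p : Set V → Prop} (h : Measurable p) : MeasurableSet {E | p (S E)} :=
  measurableSet_setOfPred.2 (h.comp C.meas)

lemma tr (v : V) {p q : Set V → Prop} (mq : Measurable q)
    (h : ∀ W, p W → q (Equiv.addLeft v ⁻¹' W)) : fl P S q ≤ fl P S p := by
  unfold fl
  rw [measureReal_def, ← C.sh v (fun W => ¬ q W) mq.not]
  exact rmono fun _ h1 h2 => h1 (h _ h2)

lemma sqrt {p q : Set V → Prop} (mp : Measurable p) (mq : Measurable q) (hp : Monotone p)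
    (hq : Monotone q) {η : ℝ} (h0 : 0 ≤ η) (h : fl P S (fun W => p W ∨ q W) ≤ η ^ 2) :
    fl P S p ≤ η ∨ fl P S q ≤ η := by
  by_contra hne
  push Not at hne
  have h1 := ENNReal.toReal_mono (measure_ne_top _ _) (C.fkg p q mp mq hp hq)
  rw [ENNReal.toReal_mul] at h1
  have h2 : fl P S p * fl P S q ≤ fl P S fun W => p W ∨ q W :=
    h1.trans (rmono fun E hE h => h.elim hE.1 hE.2)
  nlinarith [mul_lt_mul'' hne.1 hne.2 h0 h0]

lemma noinf {e : ℝ} (he : 0 < e) :
    ∃ n, fl P S (fun W => ∃ a, d 0 a ≤ n ∧ Inf r W a) ≤ e := by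
  refine (ev_le (A := fun n => {E | ¬ ∃ a, d 0 a ≤ n ∧ Inf r (S E) a}) (fun n => ?_)
    (fun k l h E h1 ⟨a, h2, h3⟩ => h1 ⟨a, h2.trans h, h3⟩) (real_null C.perc ?_) he).exists
  · exact C.ms (p := fun W => ¬ ∃ a, d 0 a ≤ n ∧ Inf r W a) (Measurable.exists fun a =>
      measurable_const.and (by simpa using ms_inf r univ a)).not
  · exact fun E hE a ha => mem_iInter.1 hE _ ⟨a, le_rfl, ha⟩

lemma arms (hc : ∀ j, P {E | ∃ a, Inf r (S E) a ∧ ∀ b, Conn r (S E) a b → j ≤ b.1} = 0) {η : ℝ}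
    (h0 : 0 < η) (h1 : η < 1) : ∃ n : ℕ, ∀ j : ℤ, j ≤ -n → ∃ y : ℤ,
      fl P S (fun W => ∃ u z, d 0 u ≤ n ∧ y ≤ z ∧ Conn r (W ∩ {v | j ≤ v.1}) u (j, z)) ≤ η ∧
      fl P S (fun W => ∃ u z, d 0 u ≤ n ∧ z ≤ y ∧ Conn r (W ∩ {v | j ≤ v.1}) u (j, z)) ≤ η := by
  obtain ⟨n, hn⟩ := C.noinf (e := η ^ 2) (by positivity)
  refine ⟨n, fun j hj => ?_⟩
  let A : (ℤ → Prop) → Set V → Prop := fun t W =>
    ∃ u z, d 0 u ≤ n ∧ t z ∧ Conn r (W ∩ {v | j ≤ v.1}) u (j, z)
  have mA : ∀ t, Measurable (A t) := fun t => Measurable.exists fun u => Measurable.exists fun z =>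
    measurable_const.and (measurable_const.and (ms_conn r _ _ _))
  have hA : ∀ t, Monotone (A t) := fun t _ _ h ⟨u, z, h1, h2, h3⟩ =>
    ⟨u, z, h1, h2, h3.mono (inter_subset_inter_left _ h)⟩
  have hA' : ∀ t t' : ℤ → Prop, (∀ z, t z → t' z) → fl P S (A t') ≤ fl P S (A t) := fun t t' h =>
    fl_mono fun W ⟨u, z, h1, h2, h3⟩ => ⟨u, z, h1, h z h2, h3⟩
  have a0 : fl P S (A fun _ => True) ≤ η ^ 2 := by
    refine le_trans (rmono (t := {E | ¬ ∃ a, d 0 a ≤ n ∧ Inf r (S E) a} ∪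
      {E | ∃ a, Inf r (S E) a ∧ ∀ b, Conn r (S E) a b → j ≤ b.1}) fun E hE => ?_)
      ((measureReal_union_le _ _).trans ((add_le_add hn (real_null (hc j) subset_rfl)).trans_eq
        (add_zero _)))
    by_contra h2
    simp only [mem_union, mem_ofPred_eq, not_or, not_not, not_exists, not_and, not_forall] at h2
    obtain ⟨⟨a, h3, h4⟩, h5⟩ := h2
    obtain ⟨b, h6, h7⟩ := h5 a h4
    obtain ⟨z, hz⟩ := hit_col C.near h6 (j := j) (by
      simp only [d, Prod.fst_zero, Prod.snd_zero] at h3; omega) (by omega)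
    exact hE ⟨a, z, h3, trivial, hz⟩
  have lim : ∀ t : ℕ → ℤ → Prop, (∀ k l, k ≤ l → ∀ z, t k z → t l z) → (∀ z, t z.natAbs z) →
      ∃ k, fl P S (A (t k)) ≤ η := fun t h2 h3 =>
    (ev_le (A := fun k => {E | ¬ A (t k) (S E)}) (fun k => C.ms (mA _).not)
      (fun k l h E h4 ⟨u, z, h5, h6, h7⟩ => h4 ⟨u, z, h5, h2 k l h z h6, h7⟩)
      (le_trans (rmono (t := {E | ¬ A (fun _ => True) (S E)})
        fun E hE ⟨u, z, h5, _, h7⟩ => mem_iInter.1 hE _ ⟨u, z, h5, h3 z, h7⟩) a0)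
      (by nlinarith)).exists
  obtain ⟨k, hk⟩ := lim (fun k z => -(k : ℤ) ≤ z) (fun _ _ _ _ _ => by omega) fun _ => by omega
  obtain ⟨l, hl⟩ := lim (fun k z => z ≤ (k : ℤ)) (fun _ _ _ _ _ => by omega) fun _ => by omega
  by_contra hne
  have key : ∀ y, -(k : ℤ) ≤ y → fl P S (A fun z => y ≤ z) ≤ η := by
    intro y hy
    induction y, hy using Int.leInduction with
    | base => exact hk
    | succ y hy ih =>
      refine (C.sqrt (mA fun z => y + 1 ≤ z) (mA fun z => z ≤ y) (hA _) (hA _) h0.le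
        (le_trans (fl_mono fun W ⟨u, z, h2, _, h3⟩ => ?_) a0)).resolve_right
        fun h => hne ⟨y, ih, h⟩
      rcases le_or_gt z y with h | h
      exacts [Or.inr ⟨u, z, h2, h, h3⟩, Or.inl ⟨u, z, h2, h, h3⟩]
  exact hne ⟨l, key l (by omega), hl⟩

lemma conf
    (hu : P {E | ∃ a b, Inf r (S E) a ∧ Inf r (S E) b ∧ ¬ Conn r (S E) a b} = 0) (j : ℤ) :
    P {E | ∃ a, Inf r (S E) a ∧ ∀ b, Conn r (S E) a b → j ≤ b.1} = 0 := by
  let A : ℤ → Set V → Prop := fun j W => ¬ ∃ a, Inf r W a ∧ ∀ b, Conn r W a b → j ≤ b.1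
  have mA : ∀ j, Measurable (A j) := fun j => (Measurable.exists fun a =>
    Measurable.and (by simpa using ms_inf r univ a) (Measurable.forall fun b =>
      Measurable.imp (by simpa using ms_conn r univ a b) measurable_const)).not
  refine null_of fun e he => ?_
  obtain ⟨k, hk⟩ := (ev_le (P := P) (A := fun k : ℕ => {E | ¬ A (j + k) (S E)})
    (fun k => C.ms (mA _).not) (fun k l h E h1 h2 => h1 fun ⟨a, h3, h4⟩ =>
      h2 ⟨a, h3, fun b hb => by have := h4 b hb; omega⟩) (real_null hu fun E hE => by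
      simp only [A, not_not, mem_iInter, mem_ofPred_eq] at hE
      obtain ⟨a, h1, -⟩ := hE 0
      obtain ⟨b, h2, h3⟩ := hE (j.natAbs + a.1.natAbs + 1)
      refine ⟨b, a, h2, h1, fun h => ?_⟩
      have := h3 a h
      omega) he).exists
  refine le_trans (le_trans (rmono (t := {E | ¬ A j (S E)}) fun E hE h => h hE)
    (C.tr ((k : ℤ), 0) (mA j) ?_)) hk
  rintro W h ⟨a, h1, h2⟩
  have e := fun u v => C.add u v ((k : ℤ), (0 : ℤ))
  refine h ⟨_, (inf_equiv _ e W a).1 h1, fun b hb => ?_⟩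
  have := h2 (b - ((k : ℤ), 0)) ((conn_equiv _ e W _ _).2 (by simpa using hb))
  simp only [Prod.fst_sub] at this
  omega

omit C [IsProbabilityMeasure P] in
lemma hp_of (hs : ∀ u v, r u v → r v u)
    (h : ∀ j y, P {E | Inf r (S E ∩ {v | j ≤ v.1}) (j, y)} = 0) : HP P r S Prod.fst := by
  intro j
  refine measure_mono_null (t := ⋃ j, ⋃ y, {E | Inf r (S E ∩ {v | j ≤ v.1}) (j, y)}) ?_
    (measure_iUnion_null fun j => measure_iUnion_null (h j))
  rintro E ⟨a, ha⟩
  obtain ⟨i, ⟨c, h1, rfl⟩, h2⟩ := Int.exists_least_of_bdd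
    (P := fun i => ∃ c, Conn r (S E ∩ {v | j ≤ v.1}) a c ∧ c.1 = i)
    ⟨j, fun _ ⟨c, h1, h2⟩ => h2 ▸ h1.right.2⟩ ⟨_, a, Conn.refl ha.left, rfl⟩
  simp only [mem_iUnion]
  refine ⟨c.1, c.2, Set.Infinite.mono (fun b hb => ?_) ha⟩
  exact ((h1.symm hs).trans hb).mono_reach fun v hv => ⟨hv.right.1, h2 _ ⟨v, h1.trans hv, rfl⟩⟩

lemma far {f : V → ℤ} (h : HP P r S f) (j : ℤ) (n : ℕ) : ∃ L : ℕ, ∀ (R : Set V) (g : V → ℤ) (c : ℤ),
    R ⊆ {v | j ≤ f v} → (∀ v, (g v).natAbs ≤ d 0 v) → L ≤ c.natAbs →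
      1 / 2 ≤ fl P S fun W => Reach r W n R g c := by
  let A : ℕ → Set V → Prop := fun L W => ∃ u, d 0 u ≤ n ∧ Arm r (W ∩ {v | j ≤ f v}) u L
  have mA : ∀ L, Measurable (A L) := fun L => Measurable.exists fun u => measurable_const.and
    (Measurable.exists fun v => measurable_const.and (ms_conn r _ _ _))
  obtain ⟨L, hL⟩ := (ev_le (P := P) (A := fun L => {E | A L (S E)}) (fun L => C.ms (mA L))
    (fun k l h E ⟨u, h1, h2⟩ => ⟨u, h1, h2.anti h⟩) (real_null (h j) fun E hE => by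
      by_contra hne
      have : ∀ᶠ L in atTop, ∀ u ∈ box 0 n, ¬ Arm r (S E ∩ {v | j ≤ f v}) u L := by
        rw [eventually_all_finset]
        intro u _
        obtain ⟨k, hk⟩ := not_forall.1 (mt inf_iff.2 fun h => hne ⟨u, h⟩)
        exact (eventually_ge_atTop k).mono fun K hK h => hk (h.anti hK)
      obtain ⟨L, hL⟩ := this.exists
      obtain ⟨u, h1, h2⟩ := mem_iInter.1 hE L
      exact hL u (by simpa using h1) h2) one_half_pos).exists
  refine ⟨L + n, fun R g c h1 h2 h3 => le_trans ?_ (fl_mono (q := A L) ?_)⟩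
  · have := probReal_compl_eq_one_sub (μ := P) (C.ms (mA L))
    change fl P S (A L) = _ at this
    linarith
  · rintro W ⟨u, v, h4, h5, h6⟩
    have := h2 v
    have := d_tri 0 u v
    exact ⟨u, h4, v, by omega, h6.mono (inter_subset_inter_right _ h1)⟩

end Col

end Pool.Agent.EB
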