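import Mathlib

/-! Exponentially decaying sequences. -/

namespace Pool.Agent.EB

open Filter Topology

def ExpDecay (f : ℕ → ℝ) : Prop := ∃ C q : ℝ, 0 ≤ C ∧ 0 < q ∧ q < 1 ∧ ∀ n, f n ≤ C * q ^ n

lemma ExpDecay.mono {f g : ℕ → ℝ} (h : ExpDecay g) (hf : ∀ n, f n ≤ g n) : ExpDecay f := by
  obtain ⟨C, q, h0, h1, h2, h3⟩ := h
  exact ⟨C, q, h0, h1, h2, fun n => (hf n).trans (h3 n)⟩

lemma ExpDecay.const_mul {g : ℕ → ℝ} (h : ExpDecay g) {c : ℝ} (hc : 0 ≤ c) :
    ExpDecay fun n => c * g n := by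
  obtain ⟨C, q, h0, h1, h2, h3⟩ := h
  exact ⟨c * C, q, by positivity, h1, h2, fun n => by
    rw [mul_assoc]; exact mul_le_mul_of_nonneg_left (h3 n) hc⟩

lemma expDecay_div (K : ℕ) (hK : 0 < K) : ExpDecay fun n => (1 / 2 : ℝ) ^ (n / K) := by
  refine ⟨2, (1 / 2 : ℝ) ^ ((K : ℝ)⁻¹), by norm_num, by positivity,
    Real.rpow_lt_one (by norm_num) (by norm_num) (by positivity), fun n => ?_⟩
  set q : ℝ := (1 / 2 : ℝ) ^ ((K : ℝ)⁻¹) with hq
  have q0 : 0 < q := by positivity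
  have q1 : q ≤ 1 := Real.rpow_le_one (by norm_num) (by norm_num) (by positivity)
  have qK : q ^ K = 1 / 2 := Real.rpow_inv_natCast_pow (by norm_num) hK.ne'
  have h1 : n ≤ K * (n / K + 1) := (Nat.lt_mul_div_succ n hK).le
  have h2 : q ^ (K * (n / K + 1)) ≤ q ^ n := pow_le_pow_of_le_one q0.le q1 h1
  rw [pow_mul, qK, pow_succ] at h2
  linarith

lemma ExpDecay.poly {g : ℕ → ℝ} (h : ExpDecay g) (k : ℕ) :
    ExpDecay fun n => ((n : ℝ) + 1) ^ k * g n := by
  obtain ⟨C, q, h0, h1, h2, h3⟩ := h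
  set s := Real.sqrt q with hs
  have s0 : 0 < s := Real.sqrt_pos.2 h1
  have s1 : s < 1 := (Real.sqrt_lt' one_pos).2 (by simpa using h2)
  have ss : q = s * s := (Real.mul_self_sqrt h1.le).symm
  have ht := tendsto_pow_const_mul_const_pow_of_abs_lt_one k (r := s) (by rwa [abs_of_pos s0])
  obtain ⟨B, hB⟩ := ht.bddAbove_range
  have hB' : ∀ n : ℕ, ((n : ℝ) + 1) ^ k * s ^ n ≤ B / s := by
    intro n
    have := hB ⟨n + 1, rfl⟩
    simp only [Nat.cast_add, Nat.cast_one, pow_succ] at this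
    rw [le_div_iff₀ s0]; linarith
  have B0 : 0 ≤ B / s := le_trans (by positivity) (hB' 0)
  refine ⟨C * (B / s), s, by positivity, s0, s1, fun n => ?_⟩
  calc ((n : ℝ) + 1) ^ k * g n ≤ ((n : ℝ) + 1) ^ k * (C * q ^ n) :=
        mul_le_mul_of_nonneg_left (h3 n) (by positivity)
    _ = C * (((n : ℝ) + 1) ^ k * s ^ n) * s ^ n := by rw [ss, mul_pow]; ring
    _ ≤ C * (B / s) * s ^ n := by gcongr; exact hB' n

lemma ExpDecay.tendsto {g : ℕ → ℝ} (h : ExpDecay g) (h0 : ∀ n, 0 ≤ g n) :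
    Tendsto g atTop (𝓝 0) := by
  obtain ⟨C, q, -, h1, h2, h3⟩ := h
  have := (tendsto_pow_atTop_nhds_zero_of_lt_one h1.le h2).const_mul C
  rw [mul_zero] at this
  exact squeeze_zero h0 h3 this

lemma ExpDecay.eventually_le {g : ℕ → ℝ} (h : ExpDecay g) {e : ℝ} (he : 0 < e) :
    ∃ N, ∀ n ≥ N, g n ≤ e := by
  obtain ⟨C, q, -, h1, h2, h3⟩ := h
  have := (tendsto_pow_atTop_nhds_zero_of_lt_one h1.le h2).const_mul C
  rw [mul_zero] at this
  obtain ⟨N, hN⟩ := eventually_atTop.1 (this.eventually_le_const he)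
  exact ⟨N, fun n hn => (h3 n).trans (hN n hn)⟩

lemma ExpDecay.sqrt {g : ℕ → ℝ} (h : ExpDecay g) : ExpDecay fun n => Real.sqrt (g n) := by
  obtain ⟨C, q, h0, h1, h2, h3⟩ := h
  refine ⟨Real.sqrt C, Real.sqrt q, Real.sqrt_nonneg _, Real.sqrt_pos.2 h1,
    (Real.sqrt_lt' one_pos).2 (by simpa using h2), fun n => ?_⟩
  refine (Real.sqrt_le_sqrt (h3 n)).trans (le_of_eq ?_)
  rw [Real.sqrt_mul h0]
  congr 1
  rw [Real.sqrt_eq_iff_mul_self_eq (by positivity) (by positivity), ← mul_pow,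
    Real.mul_self_sqrt h1.le]

lemma ExpDecay.sum_le {g : ℕ → ℝ} (h : ExpDecay g) :
    ∃ B, 0 ≤ B ∧ ∀ N, ∑ n ∈ Finset.range N, g n ≤ B := by
  obtain ⟨C, q, h0, h1, h2, h3⟩ := h
  refine ⟨C * (1 - q)⁻¹, mul_nonneg h0 (inv_nonneg.2 (by linarith)), fun N => ?_⟩
  refine (Finset.sum_le_sum fun n _ => h3 n).trans ?_
  rw [← Finset.mul_sum, ← tsum_geometric_of_lt_one h1.le h2]
  exact mul_le_mul_of_nonneg_left ((summable_geometric_of_lt_one h1.le h2).sum_le_tsum _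
    fun _ _ => by positivity) h0

/-- absorbing the constant -/
lemma ExpDecay.exp_bound {g : ℕ → ℝ} (h : ExpDecay g) (h1 : ∀ n ≥ 1, g n < 1) :
    ∃ c > 0, ∀ n ≥ 1, g n ≤ Real.exp (-(c * n)) := by
  obtain ⟨C, q, h0, q0, q1, h3⟩ := h
  set s := Real.sqrt q with hs
  have s0 : 0 < s := Real.sqrt_pos.2 q0
  have s1 : s < 1 := (Real.sqrt_lt' one_pos).2 (by simpa using q1)
  have ss : q = s * s := (Real.mul_self_sqrt q0.le).symm
  obtain ⟨N, hN⟩ := ExpDecay.eventually_le (g := fun n => C * s ^ n)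
    ⟨C, s, h0, s0, s1, fun _ => le_rfl⟩ one_pos
  have big : ∀ n ≥ N, g n ≤ Real.exp (-(-Real.log s * n)) := by
    intro n hn
    have : Real.exp (-(-Real.log s * n)) = s ^ n := by
      rw [neg_mul, neg_neg, mul_comm, Real.exp_nat_mul, Real.exp_log s0]
    rw [this]
    refine (h3 n).trans ?_
    rw [ss, mul_pow, ← mul_assoc]
    exact mul_le_of_le_one_left (by positivity) (hN n hn)
  have small : ∀ M : ℕ, ∃ c > 0, ∀ n ≥ 1, n < M → g n ≤ Real.exp (-(c * n)) := by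
    intro M
    induction M with
    | zero => exact ⟨1, one_pos, fun n _ h => absurd h (by omega)⟩
    | succ M ih =>
      obtain ⟨c, hc, h⟩ := ih
      rcases Nat.eq_zero_or_pos M with rfl | hM
      · exact ⟨1, one_pos, fun n h1 h2 => absurd h2 (by omega)⟩
      have hM' : (0 : ℝ) < M := by exact_mod_cast hM
      have : ∃ c' > 0, g M ≤ Real.exp (-(c' * M)) := by
        rcases le_or_gt (g M) 0 with h2 | h2
        · exact ⟨1, one_pos, h2.trans (Real.exp_pos _).le⟩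
        · refine ⟨-Real.log (g M) / M, div_pos (neg_pos.2 (Real.log_neg h2 (h1 M hM))) hM', ?_⟩
          rw [div_mul_cancel₀ _ hM'.ne', neg_neg, Real.exp_log h2]
      obtain ⟨c', hc', h'⟩ := this
      refine ⟨min c c', lt_min hc hc', fun n hn hn' => ?_⟩
      rcases Nat.lt_succ_iff_lt_or_eq.1 hn' with h4 | rfl
      · refine (h n hn h4).trans (Real.exp_le_exp.2 (neg_le_neg ?_))
        exact mul_le_mul_of_nonneg_right (min_le_left _ _) (by positivity)
      · refine h'.trans (Real.exp_le_exp.2 (neg_le_neg ?_))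
        exact mul_le_mul_of_nonneg_right (min_le_right _ _) (by positivity)
  obtain ⟨c, hc, h⟩ := small N
  have l0 : 0 < -Real.log s := neg_pos.2 (Real.log_neg s0 s1)
  refine ⟨min c (-Real.log s), lt_min hc l0, fun n hn => ?_⟩
  rcases lt_or_ge n N with h4 | h4
  · refine (h n hn h4).trans (Real.exp_le_exp.2 (neg_le_neg ?_))
    exact mul_le_mul_of_nonneg_right (min_le_left _ _) (by positivity)
  · refine (big n h4).trans (Real.exp_le_exp.2 (neg_le_neg ?_))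
    exact mul_le_mul_of_nonneg_right (min_le_right _ _) (by positivity)

end Pool.Agent.EB
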