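import Mathlib

/-! Definitions used in the statement: dynamic elliptic bootstrap percolation on the square
lattice. -/

namespace Pool.Agent.EB

open MeasureTheory

/-- Sites of the square lattice. -/
abbrev Site := ℤ × ℤ

/-- Spin configurations; `true` is the state `+1` and `false` is the state `-1`. -/
abbrev Config := Site → Bool

/-- The ball `B(0,1)` for the l1 norm. -/
abbrev Ball := {x : Site // |x.1| + |x.2| ≤ 1}

/-- Rotation by a quarter turn of the ball. -/
def rotB (x : Ball) : Ball := ⟨(-x.1.2, x.1.1), by simpa [add_comm] using x.2⟩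

/-- Monotone rate functions with values between a positive constant and one; no symmetry. -/
structure Elliptic (lam : (Ball → Bool) → ℝ) : Prop where
  mono : Monotone lam
  pos : 0 < lam fun _ => false
  one : (lam fun _ => true) = 1

/-- Admissible rate functions. -/
structure Admissible (lam : (Ball → Bool) → ℝ) : Prop where
  mono : Monotone lam
  rot : ∀ η, lam (fun y => η (rotB y)) = lam η
  pos : 0 < lam fun _ => false
  one : (lam fun _ => true) = 1

/-- The configuration seen from `x`, restricted to the ball. -/
def tau (x : Site) (σ : Config) : Ball → Bool := fun y => σ (x + y.1)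

/-- The generator applied to `f`. -/
noncomputable def gen (lam : (Ball → Bool) → ℝ) (f : Config → ℝ) (σ : Config) : ℝ :=
  ∑ᶠ x : Site, lam (tau x σ) * (f (Function.update σ x true) - f σ)

/-- Functions of finitely many spins. -/
def IsLocal (f : Config → ℝ) : Prop := ∃ B : Finset Site, DependsOn f (B : Set Site)

/-- `P t` is the law at time `t` of the process started from all minus: it solves the Kolmogorov
forward equation of the generator on local functions. -/
structure IsLaw (lam : (Ball → Bool) → ℝ) (P : ℝ → Measure Config) : Prop where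
  prob : ∀ t, IsProbabilityMeasure (P t)
  init : P 0 = Measure.dirac fun _ => false
  forward : ∀ f, IsLocal f → ∀ t, 0 ≤ t →
    HasDerivWithinAt (fun s => ∫ σ, f σ ∂P s) (∫ σ, gen lam f σ ∂P t) (Set.Ici 0) t

/-- Nearest neighbours. -/
def Adj (u v : Site) : Prop := |u.1 - v.1| + |u.2 - v.2| = 1

/-- A nearest neighbour path of plus sites joins `a` to `b`. -/
def Joined (σ : Config) (a b : Site) : Prop :=
  σ a = true ∧ Relation.ReflTransGen (fun u v => Adj u v ∧ σ v = true) a b

/-- The box `B_n`. -/
def Box (n : ℕ) : Set Site := {x | |x.1| ≤ n ∧ |x.2| ≤ n}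

/-- The inner vertex boundary of `B_n`. -/
def Bdry (n : ℕ) : Set Site := {x | x ∈ Box n ∧ ∃ y, y ∉ Box n ∧ Adj x y}

/-- The event that `B_n` is joined to the boundary of `B_(2n)` by a plus path. -/
def Crossing (n : ℕ) : Set Config := {σ | ∃ a ∈ Box n, ∃ b ∈ Bdry (2 * n), Joined σ a b}

/-- The event that the plus cluster of the origin is infinite. -/
def Perc : Set Config := {σ | {b | Joined σ 0 b}.Infinite}

/-- The critical time. -/
noncomputable def tc (P : ℝ → Measure Config) : ℝ := sInf {t | 0 ≤ t ∧ 0 < P t Perc}

end Pool.Agent.EB
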