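import Pool.Agent.P.MP_d1873d_pr.Prod

/-! The OSSS inequality for predictable revealed sets and a discrete Russo inequality. -/

namespace Pool.Agent.EB

open MeasureTheory Set Measure
open scoped ENNReal

variable {ι X : Type*} [MeasurableSpace X] [DecidableEq ι]
variable (m : Measure X) [IsProbabilityMeasure m]

/-- influence of the coordinate `x` -/
noncomputable def infl (m : Measure X) (A : Set (ι → X)) (x : ι) : ℝ≥0∞ :=
  ∫⁻ ω, m (sec A x ω) * m (sec A x ω)ᶜ ∂Pm ι m

omit [DecidableEq ι] in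
lemma cond_stop {τ : Type*} [Countable τ] (T : (ι → X) → τ) (s : τ → Set ι)
    (H : τ → Set ((ι → X) × (ι → X))) (mT : ∀ t, MeasurableSet {ω | T ω = t})
    (dT : ∀ t, Dep (s t) {ω | T ω = t}) (mH : ∀ t, MeasurableSet (H t))
    (dH : ∀ t η, Dep (s t)ᶜ {ω | (ω, η) ∈ H t}) :
    ((Pm ι m).prod (Pm ι m)) {p | p ∈ H (T p.1)} =
      ∫⁻ ω, ((Pm ι m).prod (Pm ι m)) (H (T ω)) ∂Pm ι m := by
  have e1 : {p : (ι → X) × (ι → X) | p ∈ H (T p.1)} = ⋃ t, {ω | T ω = t} ×ˢ univ ∩ H t := by
    ext p; simp
  have e2 : (univ : Set (ι → X)) = ⋃ t, {ω | T ω = t} := by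
    ext p; simp
  rw [e1, measure_iUnion, ← setLIntegral_univ, e2, lintegral_iUnion mT]
  · refine tsum_congr fun t => ?_
    rw [← e2, indep_pair _ (dT t) (mT t) (mH t) (dH t),
      setLIntegral_congr_fun (mT t) (g := fun _ => ((Pm ι m).prod (Pm ι m)) (H t))
        (fun ω hω => by rw [show T ω = t from hω]), setLIntegral_const, mul_comm]
  · intro t t' h
    refine disjoint_left.2 fun ω h1 h2 => h (h1.symm.trans h2)
  · intro t t' h
    refine disjoint_left.2 fun ω h1 h2 => h (h1.1.1.symm.trans h2.1.1)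
  · exact fun t => ((mT t).prod .univ).inter (mH t)

omit [DecidableEq ι] [IsProbabilityMeasure m] in
lemma measurable_pw2' (s : Set ι) :
    Measurable fun p : (ι → X) × (ι → X) => pw s p.2 p.1 :=
  measurable_pw s measurable_snd measurable_fst

lemma single_step {A : Set (ι → X)} (mA : MeasurableSet A) (t : Set ι) (x : ι) (hx : x ∉ t) :
    ((Pm ι m).prod (Pm ι m)) {p | pw t p.2 p.1 ∈ A ∧ pw (insert x t) p.2 p.1 ∉ A} =
      infl m A x := by
  have mH : MeasurableSet {p : (ι → X) × (ι → X) |
      pw t p.2 p.1 ∈ A ∧ pw (insert x t) p.2 p.1 ∉ A} :=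
    (measurable_pw2' t mA).inter (measurable_pw2' _ mA.compl)
  let φ : (ι → X) → ℝ≥0∞ := A.indicator fun ζ => m (sec A x ζ)ᶜ
  have mφ : Measurable φ := (measurable_sec mA.compl x m).indicator mA
  have e1 : ∫⁻ ω, φ ω ∂Pm ι m = infl m A x := by
    rw [lintegral_upd' _ x mφ]
    refine lintegral_congr fun ω => ?_
    have : ∀ e, φ (Function.update ω x e) =
        (sec A x ω).indicator (fun _ => m (sec A x ω)ᶜ) e := by
      intro e
      by_cases h : e ∈ sec A x ω
      · rw [indicator_of_mem h]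
        simp only [φ]
        rw [indicator_of_mem (by exact h), sec_upd]
      · rw [indicator_of_notMem h]
        simp only [φ]
        rw [indicator_of_notMem (by exact h)]
    simp only [this]
    rw [lintegral_indicator (measurableSet_sec mA _ _), setLIntegral_const, mul_comm]
  rw [← e1, lintegral_pw _ t mφ, prod_apply mH]
  refine lintegral_congr fun ω => ?_
  have := measure_upd (fun _ : ι => m) x m (measurable_prodMk_left (x := ω) mH)
  simp only [Function.update_eq_self] at this
  refine this.trans (lintegral_congr fun η => ?_)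
  have h1 : ∀ e, pw t (Function.update η x e) ω = pw t η ω := by
    intro e; ext i
    by_cases h2 : i ∈ t
    · have : i ≠ x := by rintro rfl; exact hx h2
      simp [pw, h2, this]
    · simp [pw, h2]
  have h2 : ∀ e, pw (insert x t) (Function.update η x e) ω = Function.update (pw t η ω) x e := by
    intro e; ext i
    by_cases hi : i = x
    · subst hi; simp [pw]
    · by_cases h2 : i ∈ t <;> simp [pw, hi, h2]
  by_cases h : pw t η ω ∈ A
  · simp only [φ]
    rw [indicator_of_mem h]
    congr 1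
    ext e
    simp [sec, h1, h2, h]
  · simp only [φ]
    rw [indicator_of_notMem h]
    convert measure_empty (μ := m)
    ext e
    simp [sec, h1, h2, h]

lemma multi_step {A : Set (ι → X)} (mA : MeasurableSet A) (s s' : Finset ι) (h : s ⊆ s') :
    ((Pm ι m).prod (Pm ι m)) {p | pw s p.2 p.1 ∈ A ∧ pw s' p.2 p.1 ∉ A} ≤
      ∑ x ∈ s' \ s, infl m A x := by
  have : ∀ u : Finset ι, Disjoint s u →
      ((Pm ι m).prod (Pm ι m)) {p | pw s p.2 p.1 ∈ A ∧ pw (s ∪ u : Finset ι) p.2 p.1 ∉ A} ≤
      ∑ x ∈ u, infl m A x := by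
    intro u
    induction u using Finset.induction_on with
    | empty => intro _; simp
    | insert x u hx ih =>
      intro hd
      rw [Finset.disjoint_insert_right] at hd
      rw [Finset.sum_insert hx, add_comm,
        ← single_step m mA (s ∪ u : Finset ι) x (by simp [hd.1, hx])]
      refine le_trans (measure_mono ?_) ((measure_union_le _ _).trans (add_le_add (ih hd.2) le_rfl))
      rintro p ⟨h1, h2⟩
      by_cases h3 : pw (s ∪ u : Finset ι) p.2 p.1 ∈ A
      · refine Or.inr ⟨h3, ?_⟩
        rwa [Finset.union_insert, Finset.coe_insert] at h2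
      · exact Or.inl ⟨h1, h3⟩
  have h2 := this (s' \ s) Finset.disjoint_sdiff
  rwa [Finset.union_sdiff_of_subset h] at h2

theorem osss [Countable ι] {A : Set (ι → X)} (mA : MeasurableSet A) (Λ : Finset ι)
    (S : ℕ → (ι → X) → Finset ι) (N : ℕ) (h0 : ∀ ω, S 0 ω = ∅)
    (hmono : ∀ k ω, S k ω ⊆ S (k + 1) ω) (hΛ : ∀ ω, S N ω ⊆ Λ)
    (hpred : ∀ k ω η, (∀ i ∈ S k ω, ω i = η i) → S k ω = S k η → S (k + 1) ω = S (k + 1) η)
    (hmeas : ∀ k s, MeasurableSet {ω | S k ω = s})
    (hdet : ∀ ω η, ω ∈ A → (∀ i ∈ S N ω, ω i = η i) → η ∈ A) :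
    Pm ι m A * Pm ι m Aᶜ ≤ ∑ x ∈ Λ, Pm ι m {ω | x ∈ S N ω} * infl m A x := by
  set P := Pm ι m with hP
  have stop : ∀ k ω η, (∀ i ∈ S k ω, ω i = η i) → S k ω = S k η := by
    intro k
    induction k with
    | zero => intro ω η _; rw [h0, h0]
    | succ k ih =>
      intro ω η h
      have h' : ∀ i ∈ S k ω, ω i = η i := fun i hi => h i (hmono k ω hi)
      exact hpred k ω η h' (ih ω η h')
  have ha : P A * P Aᶜ = (P.prod P) {p | p.1 ∈ A ∧ pw (S N p.1) p.2 p.1 ∉ A} := by
    have := cond_stop m (τ := Finset ι × Prop) (fun ω => (S N ω, ω ∈ A)) (fun t => t.1)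
      (fun t => {p | t.2 ∧ pw t.1 p.2 p.1 ∉ A}) ?_ ?_ ?_ ?_
    · refine Eq.trans ?_ this.symm
      rw [mul_comm, ← setLIntegral_const, ← lintegral_indicator mA]
      refine lintegral_congr fun ω => ?_
      by_cases h : ω ∈ A
      · rw [indicator_of_mem h]
        simp only [h, true_and]
        have := (mp_pw (fun _ : ι => m) (S N ω : Set ι)ᶜ).measure_preimage
          mA.compl.nullMeasurableSet
        simp only [pw_compl] at this
        exact this.symm
      · simp [h]
    · rintro ⟨s, b⟩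
      by_cases hb : b
      · convert (hmeas N s).inter mA using 1
        ext ω; simp [hb]
      · convert (hmeas N s).inter mA.compl using 1
        ext ω; simp [hb]
    · rintro ⟨s, b⟩ ω η he h
      simp only [mem_ofPred_eq, Prod.mk.injEq] at h ⊢
      obtain ⟨rfl, rfl⟩ := h
      have h1 := stop N ω η he
      refine ⟨h1.symm, propext ⟨fun h2 => hdet η ω h2 fun i hi => ?_, fun h2 => hdet ω η h2 he⟩⟩
      exact (he i (by rw [h1]; exact hi)).symm
    · rintro ⟨s, b⟩
      exact (MeasurableSet.const _).inter (measurable_pw2' _ mA.compl)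
    · rintro ⟨s, b⟩ η ω ω' he h
      have : pw (s : Set ι) η ω = pw s η ω' := by
        ext i
        by_cases hi : i ∈ (s : Set ι)
        · rw [pw_mem _ _ hi, pw_mem _ _ hi]
        · rw [pw_not _ _ hi, pw_not _ _ hi, he i hi]
      simp only [mem_ofPred_eq] at h ⊢
      rwa [← this]
  have hb : ∀ k, (P.prod P) {p | pw (S k p.1) p.2 p.1 ∈ A ∧ pw (S (k + 1) p.1) p.2 p.1 ∉ A} ≤
      ∫⁻ ω, ∑ x ∈ S (k + 1) ω \ S k ω, infl m A x ∂P := by
    intro k
    have := cond_stop m (τ := Finset ι × Finset ι) (fun ω => (S k ω, S (k + 1) ω)) (fun t => t.1)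
      (fun t => {p | t.1 ⊆ t.2 ∧ pw t.1 p.2 p.1 ∈ A ∧ pw t.2 p.2 p.1 ∉ A}) ?_ ?_ ?_ ?_
    · simp only [mem_ofPred_eq, hmono, true_and] at this
      rw [this]
      exact lintegral_mono fun ω => multi_step m mA _ _ (hmono k ω)
    · rintro ⟨s, s'⟩
      convert (hmeas k s).inter (hmeas (k + 1) s') using 1
      ext ω; simp
    · rintro ⟨s, b⟩ ω η he h
      simp only [mem_ofPred_eq, Prod.mk.injEq] at h ⊢
      obtain ⟨rfl, rfl⟩ := h
      have h1 := stop k ω η he
      exact ⟨h1.symm, (hpred k ω η he h1).symm⟩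
    · rintro ⟨s, b⟩
      exact (MeasurableSet.const _).inter
        ((measurable_pw2' _ mA).inter (measurable_pw2' _ mA.compl))
    · rintro ⟨s, s'⟩ η ω ω' he h
      have : ∀ u : Finset ι, s ⊆ u → pw (u : Set ι) η ω = pw u η ω' := by
        intro u hu
        ext i
        by_cases hi : i ∈ (u : Set ι)
        · rw [pw_mem _ _ hi, pw_mem _ _ hi]
        · rw [pw_not _ _ hi, pw_not _ _ hi, he i fun h => hi (hu h)]
      simp only [mem_ofPred_eq] at h ⊢
      rwa [← this s subset_rfl, ← this s' h.1]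
  have hc : {p : (ι → X) × (ι → X) | p.1 ∈ A ∧ pw (S N p.1) p.2 p.1 ∉ A} ⊆
      ⋃ k ∈ Finset.range N,
        {p | pw (S k p.1) p.2 p.1 ∈ A ∧ pw (S (k + 1) p.1) p.2 p.1 ∉ A} := by
    rintro p ⟨h1, h2⟩
    by_contra hne
    simp only [mem_iUnion, not_exists, mem_ofPred_eq, not_and, not_not, Finset.mem_range] at hne
    have : ∀ k ≤ N, pw (S k p.1) p.2 p.1 ∈ A := by
      intro k
      induction k with
      | zero => intro _; simpa [h0, pw_empty] using h1
      | succ k ih => intro hk; exact hne k hk (ih (by omega))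
    exact h2 (this N le_rfl)
  have mS : ∀ k x, MeasurableSet {ω | x ∈ S k ω} := by
    intro k x
    have : {ω | x ∈ S k ω} = ⋃ s : Finset ι, {_ω | x ∈ s} ∩ {ω | S k ω = s} := by
      ext ω; simp
    rw [this]
    exact MeasurableSet.iUnion fun s => (MeasurableSet.const _).inter (hmeas k s)
  have mono' : ∀ ω, Monotone fun k => S k ω := fun ω => monotone_nat_of_le_succ fun k => hmono k ω
  have tele : ∀ ω n, ∑ k ∈ Finset.range n, ∑ x ∈ S (k + 1) ω \ S k ω, infl m A x =
      ∑ x ∈ S n ω, infl m A x := by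
    intro ω n
    induction n with
    | zero => simp [h0]
    | succ n ih => rw [Finset.sum_range_succ, ih, add_comm, Finset.sum_sdiff (hmono n ω)]
  have rep : ∀ (F : (ι → X) → Finset ι), (∀ ω, F ω ⊆ Λ) → ∀ ω, ∑ x ∈ F ω, infl m A x =
      ∑ x ∈ Λ, {ω | x ∈ F ω}.indicator (fun _ => infl m A x) ω := by
    intro F hF ω
    rw [← Finset.sum_subset (hF ω) (fun x _ hx => indicator_of_notMem (by exact hx) _)]
    exact Finset.sum_congr rfl fun x hx => (indicator_of_mem (by exact hx) _).symm
  rw [ha]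
  refine (measure_mono hc).trans ((measure_biUnion_finset_le _ _).trans ?_)
  refine (Finset.sum_le_sum fun k _ => hb k).trans (le_of_eq ?_)
  rw [← lintegral_finsetSum]
  · simp only [tele, rep (S N) hΛ]
    rw [lintegral_finsetSum _ fun x _ => measurable_const.indicator (mS N x)]
    refine Finset.sum_congr rfl fun x _ => ?_
    rw [lintegral_indicator (mS N x), setLIntegral_const, mul_comm]
  · intro k hk
    have hk' : k + 1 ≤ N := Finset.mem_range.1 hk
    have := rep (fun ω => S (k + 1) ω \ S k ω)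
      fun ω => Finset.sdiff_subset.trans ((mono' ω hk').trans (hΛ ω))
    simp only [this]
    refine Finset.measurable_sum _ fun x _ => measurable_const.indicator ?_
    convert (mS (k + 1) x).inter (mS k x).compl using 1
    ext ω; simp

theorem russo (m' : Measure X) [IsProbabilityMeasure m'] (κ γ : ℝ≥0∞) (hκ1 : κ ≤ 1)
    (hκ : κ • m ≤ m') {le : X → X → Prop} (hr : ∀ a, le a a)
    (hγ : ∀ D, MeasurableSet D → (∀ a b, le a b → a ∈ D → b ∈ D) →
      m D + γ * (m D * m Dᶜ) ≤ m' D)
    {A : Set (ι → X)} (mA : MeasurableSet A) (hA : Up le A) (Λ : Finset ι) (dA : Dep Λ A) :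
    Pm ι m A + γ * κ ^ Λ.card * ∑ x ∈ Λ, infl m A x ≤ Pm ι m' A := by
  let μ : Finset ι → ι → Measure X := fun s => pw s (fun _ => m') (fun _ => m)
  have hins : ∀ (s : Finset ι) x, μ (insert x s) = Function.update (μ s) x m' := by
    intro s x; ext1 i
    by_cases hi : i = x
    · subst hi; simp [μ, pw]
    · by_cases h2 : i ∈ s <;> simp [μ, pw, hi, h2]
  have hout : ∀ (s : Finset ι) x, x ∉ s → μ s x = m := fun s x hx => pw_not _ _ (by simpa using hx)
  have c1 : ∀ (s : Finset ι) (f : (ι → X) → ℝ≥0∞), Measurable f →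
      κ ^ s.card * ∫⁻ ω, f ω ∂Pm ι m ≤ ∫⁻ ω, f ω ∂infinitePi (μ s) := by
    intro s f hf
    induction s using Finset.induction_on with
    | empty => simp [μ, pw_empty]
    | insert x s hx ih =>
      rw [Finset.card_insert_of_notMem hx, pow_succ', mul_assoc]
      refine (mul_le_mul_right ih κ).trans ?_
      simp only [hins]
      rw [lintegral_upd _ x m' hf, lintegral_upd' _ x hf, ← lintegral_const_mul' _ _
        (ne_top_of_le_ne_top ENNReal.one_ne_top hκ1)]
      refine lintegral_mono fun ω => ?_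
      simp only [hout s x hx]
      rw [← smul_eq_mul, ← lintegral_smul_measure]
      exact lintegral_mono' hκ le_rfl
  have c2 : ∀ s : Finset ι, s ⊆ Λ →
      Pm ι m A + γ * κ ^ Λ.card * ∑ x ∈ s, infl m A x ≤ infinitePi (μ s) A := by
    intro s
    induction s using Finset.induction_on with
    | empty => intro _; simp [μ, pw_empty]
    | insert x s hx ih =>
      intro hs
      have hs' : s ⊆ Λ := (Finset.subset_insert x s).trans hs
      rw [Finset.sum_insert hx, mul_add, add_comm (γ * _ * infl m A x), ← add_assoc]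
      refine (add_le_add (ih hs') le_rfl).trans ?_
      simp only [hins]
      have e := measure_upd (μ s) x m mA
      rw [← hout s x hx] at e
      simp only [Function.update_eq_self] at e
      rw [measure_upd _ x m' mA, e, hout s x hx]
      have mf : Measurable fun ω => m (sec A x ω) * m (sec A x ω)ᶜ :=
        (measurable_sec mA x m).mul (measurable_sec mA.compl x m)
      have h1 : κ ^ Λ.card * infl m A x ≤
          ∫⁻ ω, m (sec A x ω) * m (sec A x ω)ᶜ ∂infinitePi (μ s) :=
        le_trans (mul_le_mul_left (pow_le_pow_right_of_le_one' hκ1 (Finset.card_le_card hs')) _)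
          (c1 s _ mf)
      rw [mul_assoc]
      refine (add_le_add le_rfl (mul_le_mul_right h1 γ)).trans ?_
      rw [← lintegral_const_mul _ mf, ← lintegral_add_left (measurable_sec mA x m)]
      refine lintegral_mono fun ω => hγ _ (measurableSet_sec mA x ω) fun a b hab => ?_
      refine hA _ _ fun i => ?_
      by_cases hi : i = x
      · subst hi; simpa using hab
      · simp [hi, hr]
  refine (c2 Λ subset_rfl).trans (le_of_eq ?_)
  exact dep_congr _ _ dA mA fun i hi => pw_mem _ _ hi

end Pool.Agent.EB
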