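import Pool.Agent.P.MP_d1873d_pr.Sharp

/-! Exponential laws on the extended half line. -/

namespace Pool.Agent.EB

open MeasureTheory Set Measure
open scoped ENNReal

noncomputable def ex : Measure ℝ≥0∞ :=
  (volume.restrict (Ioc (0 : ℝ) 1)).map fun u => ENNReal.ofReal (-Real.log u)

lemma measurable_exf : Measurable fun u : ℝ => ENNReal.ofReal (-Real.log u) :=
  Real.measurable_log.neg.ennreal_ofReal

instance : IsProbabilityMeasure ex := by
  have : IsProbabilityMeasure (volume.restrict (Ioc (0 : ℝ) 1)) := ⟨by simp⟩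
  exact isProbabilityMeasure_map measurable_exf.aemeasurable

lemma ex_Ici {a : ℝ≥0∞} (ha : a ≠ ∞) : ex (Ici a) = ENNReal.ofReal (Real.exp (-a.toReal)) := by
  rw [ex, map_apply measurable_exf measurableSet_Ici,
    restrict_apply (measurable_exf measurableSet_Ici)]
  have : (fun u : ℝ => ENNReal.ofReal (-Real.log u)) ⁻¹' Ici a ∩ Ioc 0 1 =
      Ioc 0 (Real.exp (-a.toReal)) := by
    ext u
    simp only [mem_inter_iff, mem_preimage, mem_Ici, mem_Ioc]
    constructor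
    · rintro ⟨h1, h2, h3⟩
      rw [ENNReal.le_ofReal_iff_toReal_le ha (neg_nonneg.2 (Real.log_nonpos h2.le h3))] at h1
      exact ⟨h2, (Real.log_le_iff_le_exp h2).1 (by linarith)⟩
    · rintro ⟨h2, h3⟩
      have h4 : u ≤ 1 := h3.trans (Real.exp_le_one_iff.2 (by simp))
      rw [ENNReal.le_ofReal_iff_toReal_le ha (neg_nonneg.2 (Real.log_nonpos h2.le h4))]
      have := (Real.log_le_iff_le_exp h2).2 h3
      exact ⟨by linarith, h2, h4⟩
  rw [this]; simp

lemma ex_top : ex (Ici ∞) = 0 := by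
  rw [ex, map_apply measurable_exf measurableSet_Ici]
  convert measure_empty (μ := volume.restrict (Ioc (0 : ℝ) 1))
  ext u; simp

lemma ex_Ioi {a : ℝ≥0∞} (ha : a ≠ ∞) : ENNReal.ofReal (Real.exp (-a.toReal)) ≤ ex (Ioi a) := by
  rw [ex, map_apply measurable_exf measurableSet_Ioi,
    restrict_apply (measurable_exf measurableSet_Ioi)]
  refine le_trans (by simp) (measure_mono (s := Ioo 0 (Real.exp (-a.toReal))) ?_)
  rintro u ⟨h2, h3⟩
  have h4 : u ≤ 1 := h3.le.trans (Real.exp_le_one_iff.2 (by simp))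
  refine ⟨?_, h2, h4⟩
  simp only [mem_preimage, mem_Ioi]
  rw [ENNReal.lt_ofReal_iff_toReal_lt ha]
  have := (Real.log_lt_iff_lt_exp h2).2 h3
  linarith

noncomputable def nu (t : ℝ) : Measure ℝ≥0∞ := ex.map fun e => e / ENNReal.ofReal t

lemma measurable_dv (t : ℝ) : Measurable fun e : ℝ≥0∞ => e / ENNReal.ofReal t :=
  measurable_id.div_const _

instance (t : ℝ) : IsProbabilityMeasure (nu t) := isProbabilityMeasure_map (measurable_dv t).aemeasurable

lemma nu_Ici' {t : ℝ} (ht : 0 < t) (a : ℝ≥0∞) : nu t (Ici a) = ex (Ici (a * ENNReal.ofReal t)) := by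
  rw [nu, map_apply (measurable_dv t) measurableSet_Ici]
  congr 1
  ext e
  simp only [mem_preimage, mem_Ici]
  rw [ENNReal.le_div_iff_mul_le (Or.inl (by simpa using ht)) (Or.inl ENNReal.ofReal_ne_top)]

lemma nu_Ici {t : ℝ} (ht : 0 < t) {a : ℝ≥0∞} (ha : a ≠ ∞) :
    (nu t).real (Ici a) = Real.exp (-(t * a.toReal)) := by
  rw [measureReal_def, nu_Ici' ht, ex_Ici (ENNReal.mul_ne_top ha ENNReal.ofReal_ne_top),
    ENNReal.toReal_ofReal (Real.exp_pos _).le, ENNReal.toReal_mul, ENNReal.toReal_ofReal ht.le,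
    mul_comm]

lemma nu_Ioi {t : ℝ} (ht : 0 < t) {a : ℝ≥0∞} (ha : a ≠ ∞) :
    Real.exp (-(t * a.toReal)) ≤ (nu t).real (Ioi a) := by
  have h1 := ex_Ioi (ENNReal.mul_ne_top ha (ENNReal.ofReal_ne_top (r := t)))
  rw [ENNReal.toReal_mul, ENNReal.toReal_ofReal ht.le, mul_comm] at h1
  refine (ENNReal.ofReal_le_iff_le_toReal (measure_ne_top _ _)).1 (h1.trans (le_of_eq ?_))
  rw [nu, map_apply (measurable_dv t) measurableSet_Ioi]
  congr 1
  ext e
  simp only [mem_preimage, mem_Ioi]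
  rw [ENNReal.lt_div_iff_mul_lt (Or.inl (by simpa using ht)) (Or.inl ENNReal.ofReal_ne_top),
    mul_comm]

lemma nu_upper {D : Set ℝ≥0∞} (hD : ∀ a b, a ≤ b → a ∈ D → b ∈ D) :
    (∀ t > 0, (nu t).real D = 0) ∨ ∃ τ ≥ 0, ∀ t > 0, (nu t).real D = Real.exp (-(t * τ)) := by
  have h1 : D ⊆ Ici (sInf D) := fun _ h => sInf_le h
  by_cases h : sInf D = ∞
  · left
    intro t ht
    rw [measureReal_eq_zero_iff]
    refine measure_mono_null h1 ?_
    rw [h, nu_Ici' ht, ENNReal.top_mul (by simpa using ht), ex_top]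
  · refine Or.inr ⟨(sInf D).toReal, ENNReal.toReal_nonneg, fun t ht => le_antisymm ?_ ?_⟩
    · exact (rmono h1).trans (nu_Ici ht h).le
    · refine (nu_Ioi ht h).trans (rmono fun e he => ?_)
      obtain ⟨b, hb, hb'⟩ := sInf_lt_iff.1 (mem_Ioi.1 he)
      exact hD b e hb'.le hb

lemma nu_ineq {t0 t1 : ℝ} (h0 : 0 < t0) (h1 : t0 < t1) {D : Set ℝ≥0∞}
    (hD : ∀ a b, a ≤ b → a ∈ D → b ∈ D) :
    (nu t0).real D * (1 - (nu t1).real D) ≤ t1 / (t1 - t0) * ((nu t0).real D - (nu t1).real D) := by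
  rcases nu_upper hD with h | ⟨τ, hτ, h⟩
  · simp [h t0 h0, h t1 (h0.trans h1)]
  rw [h t0 h0, h t1 (h0.trans h1)]
  set K := t1 / (t1 - t0) with hK
  have K1 : 1 ≤ K := (one_le_div (by linarith)).2 (by linarith)
  have a1 := one_add_mul_self_le_rpow_one_add (s := Real.exp (-((t1 - t0) * τ)) - 1)
    (by have := Real.exp_pos (-((t1 - t0) * τ)); linarith) K1
  rw [add_sub_cancel, ← Real.exp_mul, show -((t1 - t0) * τ) * K = -(t1 * τ) by
    have : t1 - t0 ≠ 0 := by linarith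
    rw [hK]; field_simp] at a1
  have a2 : Real.exp (-(t1 * τ)) = Real.exp (-(t0 * τ)) * Real.exp (-((t1 - t0) * τ)) := by
    rw [← Real.exp_add]; congr 1; ring
  have a3 := mul_le_mul_of_nonneg_left a1 (Real.exp_pos (-(t0 * τ))).le
  nth_rw 2 [a2]
  linarith

lemma nu_window {t T : ℝ} (ht : 0 < t) (hT : t ≤ T) (c : ℝ≥0∞) {δ : ℝ} (hδ : 0 < δ) :
    (nu t).real (Ico c (c + ENNReal.ofReal δ)) ≤ T * δ := by
  rcases eq_or_ne c ∞ with rfl | hc
  · rw [Ico_eq_empty (by simp), measureReal_empty]; exact (mul_pos (ht.trans_le hT) hδ).le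
  rw [← Ici_sdiff_Ici, measureReal_sdiff (Ici_subset_Ici.2 le_self_add) measurableSet_Ici,
    nu_Ici ht hc, nu_Ici ht (ENNReal.add_ne_top.2 ⟨hc, ENNReal.ofReal_ne_top⟩),
    ENNReal.toReal_add hc ENNReal.ofReal_ne_top, ENNReal.toReal_ofReal hδ.le, mul_add, neg_add,
    Real.exp_add]
  have a1 : Real.exp (-(t * c.toReal)) ≤ 1 := Real.exp_le_one_iff.2 (neg_nonpos.2 (by positivity))
  have a2 := Real.add_one_le_exp (-(t * δ))
  have a3 := Real.exp_pos (-(t * c.toReal))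
  have a4 : t * δ ≤ T * δ := by gcongr
  have a5 : 0 < t * δ := by positivity
  nlinarith

lemma mix_window {s t T p : ℝ} (hs : 0 < s) (ht : 0 < t) (hsT : s ≤ T) (htT : t ≤ T) (h0 : 0 ≤ p)
    (h1 : p ≤ 1) (c : ℝ≥0∞) (δ : ℝ) (hδ : 0 < δ) :
    mix (nu s) (nu t) p (Ico c (c + ENNReal.ofReal δ)) ≤ ENNReal.ofReal (T * δ) := by
  rw [mix_apply _ _ h0 h1]
  refine ENNReal.ofReal_le_ofReal ?_
  have a1 := nu_window hs hsT c hδ
  have a2 := nu_window ht htT c hδ
  nlinarith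

lemma nu_Ici_pos {t : ℝ} (ht : 0 < t) : 0 < (nu t).real (Ici 1) := by
  rw [nu_Ici ht ENNReal.one_ne_top]; exact Real.exp_pos _

lemma nu_Iio_pos {t e : ℝ} (ht : 0 < t) (he : 0 < e) : 0 < (nu t).real (Iio (ENNReal.ofReal e)) := by
  rw [← compl_Ici, probReal_compl_eq_one_sub measurableSet_Ici, nu_Ici ht ENNReal.ofReal_ne_top,
    ENNReal.toReal_ofReal he.le, sub_pos]
  exact Real.exp_lt_one_iff.2 (neg_neg_of_pos (by positivity))

lemma mp_scale (t : ℝ) : MeasurePreserving (fun (E : V → ℝ≥0∞) y => E y / ENNReal.ofReal t)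
    (Pm V ex) (Pm V (nu t)) :=
  ⟨by fun_prop, infinitePi_map_pi (fun _ : V => ex) fun _ => measurable_dv t⟩

end Pool.Agent.EB
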