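import Mathlib

/-! Tools for infinite product measures: gluing, resampling, independence, approximation by
cylinder events, Harris inequality, zero-one law. -/

namespace Pool.Agent.EB

open MeasureTheory Set Measure
open scoped ENNReal symmDiff

section pw
variable {ι X : Type*}

open Classical in
/-- glue two configurations along a set -/
noncomputable def pw (s : Set ι) (a b : ι → X) : ι → X := fun i => if i ∈ s then a i else b i

lemma pw_mem {s : Set ι} {i : ι} (a b : ι → X) (h : i ∈ s) : pw s a b i = a i := by simp [pw, h]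
lemma pw_not {s : Set ι} {i : ι} (a b : ι → X) (h : i ∉ s) : pw s a b i = b i := by simp [pw, h]
lemma pw_self (s : Set ι) (a : ι → X) : pw s a a = a := by ext i; simp [pw]
lemma pw_compl (s : Set ι) (a b : ι → X) : pw sᶜ a b = pw s b a := by
  ext i; by_cases h : i ∈ s <;> simp [pw, h]
lemma pw_empty (a b : ι → X) : pw ∅ a b = b := by ext i; simp [pw]

/-- the event depends only on the coordinates in `s` -/
def Dep (s : Set ι) (A : Set (ι → X)) : Prop := ∀ ω η, (∀ i ∈ s, ω i = η i) → ω ∈ A → η ∈ A

lemma Dep.iff {s : Set ι} {A : Set (ι → X)} (h : Dep s A) {ω η : ι → X}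
    (he : ∀ i ∈ s, ω i = η i) : ω ∈ A ↔ η ∈ A :=
  ⟨h _ _ he, h _ _ fun i hi => (he i hi).symm⟩
lemma Dep.mono {s t : Set ι} {A : Set (ι → X)} (h : Dep s A) (hst : s ⊆ t) : Dep t A :=
  fun _ _ he => h _ _ fun i hi => he i (hst hi)
lemma Dep.compl {s : Set ι} {A : Set (ι → X)} (h : Dep s A) : Dep s Aᶜ :=
  fun _ _ he h1 h2 => h1 ((h.iff he).2 h2)
lemma Dep.inter {s : Set ι} {A B : Set (ι → X)} (h : Dep s A) (h' : Dep s B) : Dep s (A ∩ B) :=
  fun _ _ he h1 => ⟨h _ _ he h1.1, h' _ _ he h1.2⟩
lemma Dep.pw_left {s : Set ι} {A : Set (ι → X)} (h : Dep s A) (ω η : ι → X) :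
    pw s ω η ∈ A ↔ ω ∈ A := h.iff fun _ hi => pw_mem _ _ hi
lemma Dep.pw_right {s : Set ι} {A : Set (ι → X)} (h : Dep sᶜ A) (ω η : ι → X) :
    pw s ω η ∈ A ↔ η ∈ A := h.iff fun _ hi => pw_not _ _ hi

variable [MeasurableSpace X]

lemma measurable_pw {Ω : Type*} [MeasurableSpace Ω] (s : Set ι) {f g : Ω → ι → X}
    (hf : Measurable f) (hg : Measurable g) : Measurable fun ω => pw s (f ω) (g ω) := by
  refine measurable_pi_iff.2 fun i => ?_
  by_cases h : i ∈ s
  · simp only [pw_mem _ _ h]; exact (measurable_pi_apply i).comp hf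
  · simp only [pw_not _ _ h]; exact (measurable_pi_apply i).comp hg

lemma measurable_pw2 (s : Set ι) :
    Measurable fun p : (ι → X) × (ι → X) => pw s p.1 p.2 :=
  measurable_pw s measurable_fst measurable_snd

variable (μ ν : ι → Measure X) [∀ i, IsProbabilityMeasure (μ i)] [∀ i, IsProbabilityMeasure (ν i)]

instance (s : Set ι) (i : ι) : IsProbabilityMeasure (pw s μ ν i) := by
  by_cases h : i ∈ s
  · rw [pw_mem _ _ h]; infer_instance
  · rw [pw_not _ _ h]; infer_instance

lemma map_pw (s : Set ι) :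
    ((infinitePi μ).prod (infinitePi ν)).map (fun p => pw s p.1 p.2) = infinitePi (pw s μ ν) := by
  classical
  refine eq_infinitePi _ fun t u hu => ?_
  rw [map_apply (measurable_pw2 s) (.pi t.countable_toSet fun _ _ => hu _)]
  have : (fun p : (ι → X) × (ι → X) => pw s p.1 p.2) ⁻¹' ((t : Set ι).pi u) =
      (((t.filter (· ∈ s) : Finset ι) : Set ι).pi u) ×ˢ
        (((t.filter (· ∉ s) : Finset ι) : Set ι).pi u) := by
    ext p
    simp only [mem_preimage, Set.mem_pi, Finset.mem_coe, mem_prod, Finset.mem_filter]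
    constructor
    · intro h
      exact ⟨fun i hi => by simpa [pw_mem _ _ hi.2] using h i hi.1,
        fun i hi => by simpa [pw_not _ _ hi.2] using h i hi.1⟩
    · rintro ⟨h1, h2⟩ i hi
      by_cases h : i ∈ s
      · rw [pw_mem _ _ h]; exact h1 i ⟨hi, h⟩
      · rw [pw_not _ _ h]; exact h2 i ⟨hi, h⟩
  rw [this, prod_prod, infinitePi_pi _ (fun i _ => hu i), infinitePi_pi _ (fun i _ => hu i),
    ← Finset.prod_filter_mul_prod_filter_not t (· ∈ s)]
  congr 1
  · exact Finset.prod_congr rfl fun i hi => by rw [pw_mem _ _ (Finset.mem_filter.1 hi).2]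
  · exact Finset.prod_congr rfl fun i hi => by rw [pw_not _ _ (Finset.mem_filter.1 hi).2]

lemma mp_pw (s : Set ι) : MeasurePreserving (fun p : (ι → X) × (ι → X) => pw s p.1 p.2)
    ((infinitePi μ).prod (infinitePi μ)) (infinitePi μ) :=
  ⟨measurable_pw2 s, by rw [map_pw, pw_self]⟩

lemma lintegral_pw (s : Set ι) {f : (ι → X) → ℝ≥0∞} (hf : Measurable f) :
    ∫⁻ ω, f ω ∂infinitePi μ = ∫⁻ η, ∫⁻ ω, f (pw s ω η) ∂infinitePi μ ∂infinitePi μ := by
  rw [← (mp_pw μ s).lintegral_comp hf, lintegral_prod_symm]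
  exact (hf.comp (measurable_pw2 s)).aemeasurable

lemma indep {s : Set ι} {A B : Set (ι → X)} (hA : Dep s A) (hB : Dep sᶜ B)
    (mA : MeasurableSet A) (mB : MeasurableSet B) :
    infinitePi μ (A ∩ B) = infinitePi μ A * infinitePi μ B := by
  rw [← (mp_pw μ s).measure_preimage (mA.inter mB).nullMeasurableSet, ← prod_prod]
  congr 1
  ext p
  simp only [mem_preimage, mem_inter_iff, mem_prod, hA.pw_left, hB.pw_right]

lemma dep_congr {s : Set ι} {A : Set (ι → X)} (hA : Dep s A) (mA : MeasurableSet A)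
    (h : ∀ i ∈ s, μ i = ν i) : infinitePi μ A = infinitePi ν A := by
  have h1 : pw s μ ν = ν := by
    ext1 i
    by_cases hi : i ∈ s
    · rw [pw_mem _ _ hi, h i hi]
    · rw [pw_not _ _ hi]
  have h2 := map_pw μ ν s
  simp only [h1] at h2
  rw [← h2, map_apply (measurable_pw2 s) mA]
  have : (fun p : (ι → X) × (ι → X) => pw s p.1 p.2) ⁻¹' A = A ×ˢ univ := by
    ext p; simp [hA.pw_left]
  rw [this, prod_prod]; simp

/-- independence in a pair of samples -/
lemma indep_pair {s : Set ι} {G : Set (ι → X)} {H : Set ((ι → X) × (ι → X))} (hG : Dep s G)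
    (mG : MeasurableSet G) (mH : MeasurableSet H) (hH : ∀ η, Dep sᶜ {ω | (ω, η) ∈ H}) :
    ((infinitePi μ).prod (infinitePi μ)) (G ×ˢ univ ∩ H) =
      infinitePi μ G * ((infinitePi μ).prod (infinitePi μ)) H := by
  rw [prod_apply_symm ((mG.prod .univ).inter mH), prod_apply_symm mH,
    ← lintegral_const_mul _ (measurable_measure_prodMk_right mH)]
  refine lintegral_congr fun η => ?_
  refine Eq.trans ?_ (indep μ hG (hH η) mG (measurable_prodMk_right mH))
  congr 1
  ext ω; simp

variable [DecidableEq ι]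

instance (x : ι) (m : Measure X) [IsProbabilityMeasure m] (i : ι) :
    IsProbabilityMeasure (Function.update μ x m i) := by
  by_cases h : i = x
  · subst h; rw [Function.update_self]; infer_instance
  · rw [Function.update_of_ne h]; infer_instance

lemma measurable_upd (x : ι) :
    Measurable fun p : (ι → X) × X => Function.update p.1 x p.2 := measurable_update'

lemma map_upd (x : ι) (m : Measure X) [IsProbabilityMeasure m] :
    ((infinitePi μ).prod m).map (fun p => Function.update p.1 x p.2) =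
      infinitePi (Function.update μ x m) := by
  refine eq_infinitePi _ fun t u hu => ?_
  rw [map_apply (measurable_upd x) (.pi t.countable_toSet fun _ _ => hu _)]
  by_cases hx : x ∈ t
  · have : (fun p : (ι → X) × X => Function.update p.1 x p.2) ⁻¹' ((t : Set ι).pi u) =
        (((t.erase x : Finset ι) : Set ι).pi u) ×ˢ u x := by
      ext p
      simp only [mem_preimage, Set.mem_pi, Finset.mem_coe, mem_prod, Finset.mem_erase]
      constructor
      · intro h
        exact ⟨fun i hi => by simpa [Function.update_of_ne hi.1] using h i hi.2,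
          by simpa using h x hx⟩
      · rintro ⟨h1, h2⟩ i hi
        by_cases h : i = x
        · subst h; simpa using h2
        · rw [Function.update_of_ne h]; exact h1 i ⟨h, hi⟩
    rw [this, prod_prod, infinitePi_pi _ (fun i _ => hu i), ← Finset.prod_erase_mul t _ hx,
      Function.update_self]
    congr 1
    exact Finset.prod_congr rfl fun i hi => by
      rw [Function.update_of_ne (Finset.mem_erase.1 hi).1]
  · have : (fun p : (ι → X) × X => Function.update p.1 x p.2) ⁻¹' ((t : Set ι).pi u) =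
        ((t : Set ι).pi u) ×ˢ univ := by
      ext p
      simp only [mem_preimage, Set.mem_pi, Finset.mem_coe, mem_prod, mem_univ, and_true]
      refine forall₂_congr fun i hi => ?_
      rw [Function.update_of_ne (by rintro rfl; exact hx hi)]
    rw [this, prod_prod, infinitePi_pi _ (fun i _ => hu i), measure_univ, mul_one]
    exact Finset.prod_congr rfl fun i hi => by
      rw [Function.update_of_ne (by rintro rfl; exact hx hi)]

lemma lintegral_upd (x : ι) (m : Measure X) [IsProbabilityMeasure m] {f : (ι → X) → ℝ≥0∞}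
    (hf : Measurable f) : ∫⁻ ω, f ω ∂infinitePi (Function.update μ x m) =
      ∫⁻ ω, ∫⁻ e, f (Function.update ω x e) ∂m ∂infinitePi μ := by
  rw [← map_upd, lintegral_map hf (measurable_upd x), lintegral_prod]
  exact (hf.comp (measurable_upd x)).aemeasurable

lemma lintegral_upd' (x : ι) {f : (ι → X) → ℝ≥0∞}
    (hf : Measurable f) : ∫⁻ ω, f ω ∂infinitePi μ =
      ∫⁻ ω, ∫⁻ e, f (Function.update ω x e) ∂(μ x) ∂infinitePi μ := by
  rw [← lintegral_upd μ x (μ x) hf]
  simp only [Function.update_eq_self]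

/-- section of an event at the coordinate `x` -/
def sec (A : Set (ι → X)) (x : ι) (ω : ι → X) : Set X := {e | Function.update ω x e ∈ A}

omit [MeasurableSpace X] in
lemma sec_upd (A : Set (ι → X)) (x : ι) (ω : ι → X) (e : X) :
    sec A x (Function.update ω x e) = sec A x ω := by
  simp [sec]

omit [MeasurableSpace X] in
lemma sec_compl (A : Set (ι → X)) (x : ι) (ω : ι → X) : sec Aᶜ x ω = (sec A x ω)ᶜ := rfl

lemma measurableSet_sec {A : Set (ι → X)} (mA : MeasurableSet A) (x : ι) (ω : ι → X) :
    MeasurableSet (sec A x ω) := measurable_update ω mA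

lemma measurable_sec {A : Set (ι → X)} (mA : MeasurableSet A) (x : ι) (m : Measure X)
    [IsProbabilityMeasure m] : Measurable fun ω => m (sec A x ω) :=
  measurable_measure_prodMk_left (measurable_upd x mA)

lemma measure_upd (x : ι) (m : Measure X) [IsProbabilityMeasure m] {A : Set (ι → X)}
    (mA : MeasurableSet A) :
    infinitePi (Function.update μ x m) A = ∫⁻ ω, m (sec A x ω) ∂infinitePi μ := by
  rw [← map_upd, map_apply (measurable_upd x) mA, prod_apply (measurable_upd x mA)]
  rfl

omit [DecidableEq ι] in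
lemma measurableSet_cond (A : Finset ι) (D : ι → (ι → X) → Set X)
    (mD : ∀ y, MeasurableSet {p : (ι → X) × X | p.2 ∈ D y p.1}) :
    MeasurableSet {ω : ι → X | ∀ y ∈ A, ω y ∈ D y ω} := by
  have : {ω : ι → X | ∀ y ∈ A, ω y ∈ D y ω} =
      ⋂ y ∈ A, (fun ω : ι → X => (ω, ω y)) ⁻¹' {p : (ι → X) × X | p.2 ∈ D y p.1} := by
    ext ω; simp
  rw [this]
  exact A.measurableSet_biInter fun y _ =>
    (measurable_id.prodMk (measurable_pi_apply y)) (mD y)

omit [DecidableEq ι] in
/-- conditioning on the coordinates outside a finite set -/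
lemma lintegral_cond (A : Finset ι) (φ : (ι → X) → ℝ≥0∞) (D : ι → (ι → X) → Set X)
    (mφ : Measurable φ) (mD : ∀ y, MeasurableSet {p : (ι → X) × X | p.2 ∈ D y p.1})
    (hφ : ∀ ω η, φ (pw A ω η) = φ η) (hD : ∀ y ω η, D y (pw A ω η) = D y η) :
    ∫⁻ ω, {ω | ∀ y ∈ A, ω y ∈ D y ω}.indicator φ ω ∂infinitePi μ =
      ∫⁻ ω, φ ω * ∏ y ∈ A, μ y (D y ω) ∂infinitePi μ := by
  have mS := measurableSet_cond A D mD
  rw [lintegral_pw μ A (mφ.indicator mS)]
  refine lintegral_congr fun η => ?_
  have mD' : ∀ y, MeasurableSet (D y η) := fun y => measurable_prodMk_left (mD y)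
  rw [← infinitePi_pi μ (fun y _ => mD' y), ← setLIntegral_const,
    ← lintegral_indicator (.pi A.countable_toSet fun y _ => mD' y)]
  refine lintegral_congr fun ω => ?_
  have : pw A ω η ∈ {ω : ι → X | ∀ y ∈ A, ω y ∈ D y ω} ↔ ω ∈ (A : Set ι).pi fun y => D y η := by
    simp only [mem_ofPred_eq, Set.mem_pi, Finset.mem_coe, hD]
    exact forall₂_congr fun y hy => by rw [pw_mem _ _ (by exact hy)]
  by_cases h : ω ∈ (A : Set ι).pi fun y => D y η
  · rw [indicator_of_mem h, indicator_of_mem (this.2 h), hφ]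
  · rw [indicator_of_notMem h, indicator_of_notMem (mt this.1 h)]

omit [DecidableEq ι] in
lemma measure_cond (A : Finset ι) (D : ι → (ι → X) → Set X)
    (mD : ∀ y, MeasurableSet {p : (ι → X) × X | p.2 ∈ D y p.1})
    (hD : ∀ y ω η, D y (pw A ω η) = D y η) :
    infinitePi μ {ω | ∀ y ∈ A, ω y ∈ D y ω} = ∫⁻ ω, ∏ y ∈ A, μ y (D y ω) ∂infinitePi μ := by
  have := lintegral_cond μ A 1 D measurable_const mD (fun _ _ => rfl) hD
  rw [lintegral_indicator_one (measurableSet_cond A D mD)] at this
  simpa using this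

omit [DecidableEq ι] in
lemma exists_cyl {B : Set (ι → X)} (mB : MeasurableSet B) {ε : ℝ≥0∞} (hε : ε ≠ 0) :
    ∃ (s : Finset ι) (C : Set (ι → X)), MeasurableSet C ∧ Dep s C ∧ infinitePi μ (B ∆ C) ≤ ε := by
  have hd : (infinitePi μ).MeasureDense (measurableCylinders fun _ : ι => X) :=
    .of_generateFrom_isSetAlgebra_finite _ isSetAlgebra_measurableCylinders
      generateFrom_measurableCylinders.symm
  obtain ⟨r, hr0, hr⟩ : ∃ r : ℝ, 0 < r ∧ ENNReal.ofReal r ≤ ε := by
    rcases eq_or_ne ε ∞ with rfl | h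
    · exact ⟨1, one_pos, le_top⟩
    · exact ⟨ε.toReal, ENNReal.toReal_pos hε h, by rw [ENNReal.ofReal_toReal h]⟩
  obtain ⟨C, hC, h⟩ := hd.approx B mB (measure_ne_top _ _) r hr0
  obtain ⟨s, S, mS, rfl⟩ := (mem_measurableCylinders _).1 hC
  refine ⟨s, _, mS.cylinder, fun ω η he h1 => ?_, h.le.trans hr⟩
  rw [mem_cylinder] at h1 ⊢
  convert h1 using 1
  ext i; exact (he i i.2).symm

/-- Harris inequality, for events with nested sections -/
lemma harris_nested {A B : Set (ι → X)} (mA : MeasurableSet A) (mB : MeasurableSet B)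
    (hn : ∀ x ω η, sec A x ω ⊆ sec B x η ∨ sec B x η ⊆ sec A x ω) :
    infinitePi μ A * infinitePi μ B ≤ infinitePi μ (A ∩ B) := by
  set P := infinitePi μ with hP
  let H : Set ι → Set ((ι → X) × (ι → X)) := fun s => {p | p.1 ∈ A ∧ pw s p.1 p.2 ∈ B}
  have mH : ∀ s, MeasurableSet (H s) := fun s =>
    (measurable_fst mA).inter (measurable_pw2 s mB)
  have step : ∀ (s : Set ι) (x : ι), x ∉ s → (P.prod P) (H s) ≤ (P.prod P) (H (insert x s)) := by
    intro s x hx
    have key : ∀ t : Set ι, (P.prod P) (H t) = ∫⁻ η, ∫⁻ ω,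
        μ x {e | (Function.update ω x e, η) ∈ H t} ∂P ∂P := by
      intro t
      rw [prod_apply_symm (mH t)]
      refine lintegral_congr fun η => ?_
      have := measure_upd μ x (μ x) (measurable_prodMk_right (y := η) (mH t))
      simp only [Function.update_eq_self] at this
      exact this
    have mK : ∀ t : Set ι, Measurable fun p : (ι → X) × (ι → X) =>
        μ x {e | (Function.update p.2 x e, p.1) ∈ H t} := by
      intro t
      have : MeasurableSet {q : ((ι → X) × (ι → X)) × X |
          (Function.update q.1.2 x q.2, q.1.1) ∈ H t} :=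
        (((measurable_upd x).comp (measurable_fst.snd.prodMk measurable_snd)).prodMk
          measurable_fst.fst) (mH t)
      exact measurable_measure_prodMk_left this
    rw [key, key, lintegral_upd' μ x (mK s).lintegral_prod_right']
    refine lintegral_mono fun η => ?_
    rw [lintegral_lintegral_swap]
    swap
    · exact ((mK s).comp (((measurable_update η).comp measurable_fst).prodMk
        measurable_snd)).aemeasurable
    refine lintegral_mono fun ω => ?_
    have e1 : ∀ e' : X, {e | (Function.update ω x e, Function.update η x e') ∈ H s} =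
        {e | e ∈ sec A x ω ∧ e' ∈ sec B x (pw s ω η)} := by
      intro e'
      ext e
      have : pw s (Function.update ω x e) (Function.update η x e') =
          Function.update (pw s ω η) x e' := by
        ext i
        by_cases hi : i = x
        · subst hi; simp [pw_not _ _ hx]
        · by_cases h2 : i ∈ s <;> simp [pw, hi, h2]
      simp [H, sec, this]
    have e2 : {e | (Function.update ω x e, η) ∈ H (insert x s)} =
        sec A x ω ∩ sec B x (pw s ω η) := by
      ext e
      have : pw (insert x s) (Function.update ω x e) η = Function.update (pw s ω η) x e := by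
        ext i
        by_cases hi : i = x
        · subst hi; simp [pw]
        · by_cases h2 : i ∈ s <;> simp [pw, hi, h2]
      simp [H, sec, this]
    simp only [e1, e2]
    have e3 : ∀ e' : X, μ x {e | e ∈ sec A x ω ∧ e' ∈ sec B x (pw s ω η)} =
        (sec B x (pw s ω η)).indicator (fun _ => μ x (sec A x ω)) e' := by
      intro e'
      by_cases h : e' ∈ sec B x (pw s ω η) <;> simp [h]
    simp only [e3]
    rw [lintegral_indicator (measurableSet_sec mB _ _), setLIntegral_const]
    rcases hn x ω (pw s ω η) with h | h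
    · rw [inter_eq_left.2 h]
      exact mul_le_of_le_one_right' prob_le_one
    · rw [inter_eq_right.2 h]
      exact mul_le_of_le_one_left' prob_le_one
  have lower : ∀ s : Finset ι, P A * P B ≤ (P.prod P) (H s) := by
    intro s
    induction s using Finset.induction_on with
    | empty =>
      rw [← prod_prod]
      refine measure_mono fun p hp => ⟨hp.1, ?_⟩
      simpa [pw_empty] using hp.2
    | insert x s hx ih =>
      rw [Finset.coe_insert]
      exact ih.trans (step s x (by simpa using hx))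
  refine ENNReal.le_of_forall_pos_le_add fun ε hε _ => ?_
  obtain ⟨s, C, mC, hC, h⟩ := exists_cyl μ mB (ε := ε / 2) (by simp [hε.ne'])
  refine (lower s).trans ?_
  have : H s ⊆ ((A ∩ B) ×ˢ univ ∪ (B ∆ C) ×ˢ univ) ∪
      (fun p : (ι → X) × (ι → X) => pw s p.1 p.2) ⁻¹' (B ∆ C) := by
    rintro p ⟨h1, h2⟩
    by_cases h3 : p.1 ∈ B
    · exact Or.inl (Or.inl ⟨⟨h1, h3⟩, trivial⟩)
    by_cases h4 : p.1 ∈ C
    · exact Or.inl (Or.inr ⟨Or.inr ⟨h4, h3⟩, trivial⟩)
    · exact Or.inr (Or.inl ⟨h2, fun h5 => h4 ((hC.pw_left _ _).1 h5)⟩)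
  refine (measure_mono this).trans ((measure_union_le _ _).trans ?_)
  refine (add_le_add (measure_union_le _ _) le_rfl).trans ?_
  rw [prod_prod, prod_prod, (mp_pw μ s).measure_preimage (mB.symmDiff mC).nullMeasurableSet,
    measure_univ, mul_one, mul_one, add_assoc]
  refine add_le_add le_rfl ((add_le_add h h).trans ?_)
  rw [ENNReal.add_halves]

/-- increasing events for a relation on the single site space -/
def Up (le : X → X → Prop) (A : Set (ι → X)) : Prop :=
  ∀ ω η, (∀ i, le (ω i) (η i)) → ω ∈ A → η ∈ A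

lemma harris {le : X → X → Prop} (htot : ∀ a b, le a b ∨ le b a)
    {A B : Set (ι → X)} (mA : MeasurableSet A) (mB : MeasurableSet B) (hA : Up le A)
    (hB : Up le B) : infinitePi μ A * infinitePi μ B ≤ infinitePi μ (A ∩ B) := by
  have hr : ∀ a, le a a := fun a => (htot a a).elim id id
  have key : ∀ {C : Set (ι → X)}, Up le C → ∀ x ω a b, le a b → a ∈ sec C x ω → b ∈ sec C x ω := by
    intro C hC x ω a b hab
    refine hC _ _ fun i => ?_
    by_cases hi : i = x
    · subst hi; simpa using hab
    · simp [hi, hr]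
  refine harris_nested μ mA mB fun x ω η => ?_
  by_contra h
  rw [not_or, not_subset, not_subset] at h
  obtain ⟨⟨a, ha, ha'⟩, b, hb, hb'⟩ := h
  rcases htot a b with h | h
  · exact hb' (key hA _ _ _ _ h ha)
  · exact ha' (key hB _ _ _ _ h hb)

end pw

section inv
variable {ι X : Type*} [MeasurableSpace X] (m : Measure X) [IsProbabilityMeasure m]

/-- the product of copies of one measure -/
noncomputable abbrev Pm (ι : Type*) (m : Measure X) : Measure (ι → X) :=
  infinitePi fun _ : ι => m

lemma mp_comp {φ : ι → ι} (hφ : Function.Injective φ) :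
    MeasurePreserving (fun ω : ι → X => fun i => ω (φ i)) (Pm ι m) (Pm ι m) :=
  ⟨by fun_prop, map_infinitePi_infinitePi_of_inj (P := fun _ : ι => m) hφ⟩

lemma zero_one {A : Set (ι → X)} (mA : MeasurableSet A)
    (h : ∀ s : Finset ι, ∃ φ : ι → ι, Function.Injective φ ∧ (∀ i ∈ s, φ i ∉ s) ∧
      ∀ ω : ι → X, (fun i => ω (φ i)) ∈ A ↔ ω ∈ A) (h0 : Pm ι m A ≠ 0) : Pm ι m A = 1 := by
  have key : ∀ ε : ℝ, 0 < ε →
      (Pm ι m).real A ≤ ((Pm ι m).real A + ε) ^ 2 + 2 * ε := by
    intro ε hε
    obtain ⟨s, C, mC, hC, h1⟩ := exists_cyl (fun _ : ι => m) mA (ε := ENNReal.ofReal ε)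
      (by simpa using hε)
    obtain ⟨φ, hφ, h2, h3⟩ := h s
    set C' : Set (ι → X) := (fun ω : ι → X => fun i => ω (φ i)) ⁻¹' C with hC'
    have mC' : MeasurableSet C' := (mp_comp m hφ).measurable mC
    have d' : Dep (s : Set ι)ᶜ C' := fun ω η he =>
      hC _ _ fun i hi => he _ (h2 i hi)
    have e1 : Pm ι m C' = Pm ι m C := (mp_comp m hφ).measure_preimage mC.nullMeasurableSet
    have e2 : Pm ι m (A ∆ C') = Pm ι m (A ∆ C) := by
      rw [← (mp_comp m hφ).measure_preimage (mA.symmDiff mC).nullMeasurableSet]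
      congr 1
      ext ω
      simp only [mem_symmDiff, hC', mem_preimage, h3]
    have e3 := indep (fun _ : ι => m) hC d' mC mC'
    have r1 : (Pm ι m).real (A ∆ C) ≤ ε := ENNReal.toReal_le_of_le_ofReal hε.le h1
    have r2 : (Pm ι m).real (A ∆ C') ≤ ε := by
      rw [measureReal_def, e2]; exact r1
    have r3 : (Pm ι m).real (C ∩ C') = (Pm ι m).real C ^ 2 := by
      rw [measureReal_def, e3, e1, ENNReal.toReal_mul, sq]; rfl
    have r4 : (Pm ι m).real C ≤ (Pm ι m).real A + ε := by
      have : C ⊆ A ∪ A ∆ C := by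
        intro ω h; by_cases h' : ω ∈ A
        · exact Or.inl h'
        · exact Or.inr (Or.inr ⟨h, h'⟩)
      exact (measureReal_mono this).trans ((measureReal_union_le _ _).trans (by linarith))
    have r5 : (Pm ι m).real A ≤ (Pm ι m).real (C ∩ C') + (Pm ι m).real (A ∆ C) +
        (Pm ι m).real (A ∆ C') := by
      have : A ⊆ (C ∩ C' ∪ A ∆ C) ∪ A ∆ C' := by
        intro ω h
        by_cases h1 : ω ∈ C
        · by_cases h2 : ω ∈ C'
          · exact Or.inl (Or.inl ⟨h1, h2⟩)
          · exact Or.inr (Or.inl ⟨h, h2⟩)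
        · exact Or.inl (Or.inr (Or.inl ⟨h, h1⟩))
      refine (measureReal_mono this).trans ((measureReal_union_le _ _).trans ?_)
      exact add_le_add (measureReal_union_le _ _) le_rfl
    have r6 : (Pm ι m).real C ^ 2 ≤ ((Pm ι m).real A + ε) ^ 2 :=
      pow_le_pow_left₀ measureReal_nonneg r4 2
    linarith
  have p0 : 0 < (Pm ι m).real A := ENNReal.toReal_pos h0 (measure_ne_top _ _)
  have p1 : (Pm ι m).real A ≤ 1 := measureReal_le_one
  have p2 : (Pm ι m).real A = 1 := by
    by_contra hne
    have hlt : (Pm ι m).real A < 1 := lt_of_le_of_ne p1 hne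
    set a := (Pm ι m).real A
    have h1 : 0 < a * (1 - a) := mul_pos p0 (by linarith)
    have h2 : a * (1 - a) ≤ 1 := by nlinarith
    have := key (a * (1 - a) / 10) (by linarith)
    nlinarith
  rw [← ENNReal.toReal_eq_one_iff]; exact p2

end inv

end Pool.Agent.EB
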