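import Pool.Agent.P.MP_d1873d_pr.Basic
import Pool.Agent.P.MP_d1873d_pr.Prod
import Pool.Agent.P.MP_d1873d_pr.Decay

/-! Monotone translation invariant factors of product measures and the block argument. -/

namespace Pool.Agent.EB

open MeasureTheory Set Measure
open scoped ENNReal

lemma rmono {Ω : Type*} [MeasurableSpace Ω] {μ : Measure Ω} [IsFiniteMeasure μ] {s t : Set Ω}
    (h : s ⊆ t) : μ.real s ≤ μ.real t := measureReal_mono h (measure_ne_top _ _)

lemma conn_equiv {r : V → V → Prop} (φ : V ≃ V) (hφ : ∀ u v, r (φ u) (φ v) ↔ r u v) (W : Set V)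
    (a b : V) : Conn r (φ ⁻¹' W) a b ↔ Conn r W (φ a) (φ b) := by
  refine ⟨fun h => h.map φ (fun u v => (hφ u v).2) fun v hv => hv, fun h => ?_⟩
  have := h.map (r' := r) (T := φ ⁻¹' W) φ.symm (fun u v h => by rwa [← hφ, φ.apply_symm_apply,
    φ.apply_symm_apply]) fun v hv => by simpa using hv
  simpa using this

section
variable {X : Type}

def sh (v : V) (E : V → X) : V → X := fun y => E (v + y)

def opn (O : Set (V → X)) (E : V → X) : Set V := {v | sh v E ∈ O}

noncomputable def cut (ρ : ℕ) (E : V → X) (c : X) : V → X := pw {y | d 0 y < ρ} E fun _ => c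

lemma sh_zero (E : V → X) : sh 0 E = E := by ext y; simp [sh]
lemma sh_sh (u v : V) (E : V → X) : sh u (sh v E) = sh (v + u) E := by ext y; simp [sh, add_assoc]
lemma opn_sh (O : Set (V → X)) (v : V) (E : V → X) :
    opn O (sh v E) = (Equiv.addLeft v) ⁻¹' opn O E := by
  ext y; simp [opn, sh_sh]

variable [MeasurableSpace X]

lemma measurable_sh (v : V) : Measurable (sh v : (V → X) → V → X) := by
  unfold sh; fun_prop

lemma mp_sh (m : Measure X) [IsProbabilityMeasure m] (v : V) :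
    MeasurePreserving (sh v) (Pm V m) (Pm V m) :=
  mp_comp m (φ := fun y => v + y) (add_right_injective v)

lemma measurable_cut (ρ : ℕ) (c : X) : Measurable fun E : V → X => cut ρ E c :=
  measurable_pw _ measurable_id measurable_const

lemma measurableSet_opn {O : Set (V → X)} (h : MeasurableSet O) (v : V) :
    MeasurableSet {E | v ∈ opn O E} := measurable_sh v h

end

structure Fld (X : Type) [MeasurableSpace X] where
  O : Set (V → X)
  meas : MeasurableSet O
  le : X → X → Prop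
  refl : ∀ a, le a a
  lo : X
  hi : X
  lo_le : ∀ a, le lo a
  le_hi : ∀ a, le a hi
  up : Up le O
  r : V → V → Prop
  r_near : ∀ u v, r u v → d u v ≤ 1
  r_symm : ∀ u v, r u v → r v u
  r_add : ∀ u v w, r (w + u) (w + v) ↔ r u v

namespace Fld

variable {X : Type} [MeasurableSpace X] (F : Fld X)

lemma le_cut (ρ : ℕ) (E : V → X) (y : V) : F.le (E y) (cut ρ E F.hi y) := by
  unfold cut pw; split_ifs
  · exact F.refl _
  · exact F.le_hi _

lemma cut_le (ρ : ℕ) (E : V → X) (y : V) : F.le (cut ρ E F.lo y) (E y) := by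
  unfold cut pw; split_ifs
  · exact F.refl _
  · exact F.lo_le _

lemma cut_mono (ρ : ℕ) {E E' : V → X} (h : ∀ y, F.le (E y) (E' y)) (c : X) (y : V) :
    F.le (cut ρ E c y) (cut ρ E' c y) := by
  unfold cut pw; split_ifs
  · exact h _
  · exact F.refl _

/-- the finite range approximation from above -/
def trunc (ρ : ℕ) : Fld X :=
  { F with
    O := {E | cut ρ E F.hi ∈ F.O}
    meas := measurable_cut ρ F.hi F.meas
    up := fun _ _ h => F.up _ _ (F.cut_mono ρ h _) }

lemma opn_subset_trunc (ρ : ℕ) (E : V → X) : opn F.O E ⊆ opn (F.trunc ρ).O E :=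
  fun _ h => F.up _ _ (F.le_cut ρ _) h

/-- the status of the origin is not determined by the coordinates at distance `< ρ` -/
def Unk (ρ : ℕ) : Set (V → X) := {E | cut ρ E F.hi ∈ F.O ∧ cut ρ E F.lo ∉ F.O}

lemma measurableSet_unk (ρ : ℕ) : MeasurableSet (F.Unk ρ) :=
  (measurable_cut ρ F.hi F.meas).inter (measurable_cut ρ F.lo F.meas).compl

lemma opn_mono {E E' : V → X} (h : ∀ y, F.le (E y) (E' y)) : opn F.O E ⊆ opn F.O E' :=
  fun _ hv => F.up _ _ (fun _ => h _) hv

lemma of_trunc {ρ : ℕ} {E : V → X} {v : V} (h : v ∈ opn (F.trunc ρ).O E) (h' : sh v E ∉ F.Unk ρ) :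
    v ∈ opn F.O E := by
  by_contra h2
  exact h' ⟨h, fun h3 => h2 (F.up _ _ (F.cut_le ρ _) h3)⟩

omit [MeasurableSpace X] in
lemma trunc_congr {ρ : ℕ} {E E' : V → X} {v : V} (h : ∀ y, d v y < ρ → E y = E' y)
    (c : X) : cut ρ (sh v E) c = cut ρ (sh v E') c := by
  ext y
  unfold cut pw
  split_ifs with hy
  · exact h _ (by rwa [d_zero_add])
  · rfl

def ArmE (v : V) (k : ℕ) : Set (V → X) := {E | Arm F.r (opn F.O E) v k}

lemma measurableSet_armE (v : V) (k : ℕ) : MeasurableSet (F.ArmE v k) :=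
  measurableSet_arm _ (measurableSet_opn F.meas) _ _ _

lemma conn_sh (v : V) (W : Set V) (a b : V) :
    Conn F.r ((Equiv.addLeft v) ⁻¹' W) a b ↔ Conn F.r W (v + a) (v + b) :=
  conn_equiv (Equiv.addLeft v) (fun a b => F.r_add a b v) W a b

lemma armE_sh (v : V) (k : ℕ) : F.ArmE v k = sh v ⁻¹' F.ArmE 0 k := by
  ext E
  simp only [ArmE, Arm, mem_ofPred_eq, mem_preimage, opn_sh, conn_sh, add_zero]
  constructor
  · rintro ⟨b, h1, h2⟩
    refine ⟨b - v, ?_, by simpa using h2⟩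
    rw [← d_zero_add v]; simpa using h1
  · rintro ⟨b, h1, h2⟩
    exact ⟨v + b, by rwa [d_zero_add], h2⟩

variable (m : Measure X) [IsProbabilityMeasure m]

/-- one arm probability -/
noncomputable def th (k : ℕ) : ℝ := (Pm V m).real (F.ArmE 0 k)

lemma prob_armE (v : V) (k : ℕ) : (Pm V m).real (F.ArmE v k) = F.th m k := by
  rw [armE_sh, th]
  exact (mp_sh m v).measureReal_preimage (F.measurableSet_armE 0 k).nullMeasurableSet

omit [IsProbabilityMeasure m] in
lemma th_nonneg (k : ℕ) : 0 ≤ F.th m k := measureReal_nonneg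
lemma th_le_one (k : ℕ) : F.th m k ≤ 1 := measureReal_le_one
lemma th_anti {k l : ℕ} (h : k ≤ l) : F.th m l ≤ F.th m k :=
  measureReal_mono fun _ hE => Arm.anti hE h
lemma th_le_trunc (ρ k : ℕ) : F.th m k ≤ (F.trunc ρ).th m k :=
  measureReal_mono fun E hE => Arm.mono hE (F.opn_subset_trunc ρ E)

lemma prob_unk_box (ρ k : ℕ) : (Pm V m).real (⋃ v ∈ box 0 k, sh v ⁻¹' F.Unk ρ) ≤
    (2 * k + 1) ^ 2 * (Pm V m).real (F.Unk ρ) := by
  refine (measureReal_biUnion_finset_le _ _).trans (le_of_eq ?_)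
  rw [Finset.sum_congr rfl fun v _ =>
    (mp_sh m v).measureReal_preimage (F.measurableSet_unk ρ).nullMeasurableSet,
    Finset.sum_const, card_box]
  simp

lemma trunc_le_th (ρ k : ℕ) :
    (F.trunc ρ).th m k ≤ F.th m k + (2 * k + 1) ^ 2 * (Pm V m).real (F.Unk ρ) := by
  refine le_trans (rmono (t := F.ArmE 0 k ∪ ⋃ v ∈ box 0 k, sh v ⁻¹' F.Unk ρ) ?_)
    ((measureReal_union_le _ _).trans (add_le_add le_rfl (F.prob_unk_box m ρ k)))
  rintro E ⟨b, h1, h2⟩
  by_cases h : E ∈ ⋃ v ∈ box 0 k, sh v ⁻¹' F.Unk ρ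
  · exact Or.inr h
  left
  simp only [mem_iUnion, not_exists, mem_box, mem_preimage] at h
  obtain ⟨u, h3, h4⟩ := h2.hit F.r_near 0 k (by simp) h1
  exact ⟨u, h3.ge, h4.mono fun v hv => F.of_trunc hv.1 (h v hv.2)⟩

/-- annulus crossing -/
def Cross (L : ℕ) : Set (V → X) := {E | ∃ a b, d 0 a ≤ L ∧ 2 * L ≤ d 0 b ∧ Conn F.r (opn F.O E) a b}

lemma cross_le (L : ℕ) : (Pm V m).real (F.Cross L) ≤ 4 * (2 * L + 1) * F.th m L := by
  have : F.Cross L ⊆ ⋃ u ∈ ring 0 L, F.ArmE u L := by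
    rintro E ⟨a, b, h1, h2, h3⟩
    obtain ⟨u, h4, h5⟩ := h3.hit F.r_near 0 L h1 (by omega)
    simp only [mem_iUnion, mem_ring]
    have := d_tri 0 u b
    exact ⟨u, h4, b, by omega, ((h5.mono inter_subset_left).symm F.r_symm).trans h3⟩
  refine (rmono this).trans ((measureReal_biUnion_finset_le _ _).trans ?_)
  simp only [prob_armE, Finset.sum_const, nsmul_eq_mul]
  refine mul_le_mul_of_nonneg_right ?_ (F.th_nonneg m L)
  exact_mod_cast card_ring 0 L

def Bad (L : ℕ) : Set (V → X) := {E | ∃ a b, d 0 a ≤ L ∧ d 0 b = 2 * L ∧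
  Conn F.r (opn (F.trunc L).O E ∩ {v | d 0 v ≤ 2 * L}) a b}

lemma measurableSet_bad (L : ℕ) : MeasurableSet (F.Bad L) := by
  have : F.Bad L = ⋃ a, ⋃ b, {_E | d 0 a ≤ L ∧ d 0 b = 2 * L} ∩
      {E | Conn F.r (opn (F.trunc L).O E ∩ {v | d 0 v ≤ 2 * L}) a b} := by
    ext E; simp [Bad, and_assoc]
  rw [this]
  exact MeasurableSet.iUnion fun a => MeasurableSet.iUnion fun b => (MeasurableSet.const _).inter
    (measurableSet_conn _ (fun v => (measurableSet_opn (F.trunc L).meas v).inter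
      (MeasurableSet.const _)) _ _ _)

lemma bad_le (L : ℕ) : (Pm V m).real (F.Bad L) ≤
    (Pm V m).real (F.Cross L) + (2 * (2 * L : ℕ) + 1) ^ 2 * (Pm V m).real (F.Unk L) := by
  refine le_trans (rmono (t := F.Cross L ∪ ⋃ v ∈ box 0 (2 * L), sh v ⁻¹' F.Unk L) ?_)
    ((measureReal_union_le _ _).trans (add_le_add le_rfl (F.prob_unk_box m L (2 * L))))
  rintro E ⟨a, b, h1, h2, h3⟩
  by_cases h : E ∈ ⋃ v ∈ box 0 (2 * L), sh v ⁻¹' F.Unk L
  · exact Or.inr h
  left
  simp only [mem_iUnion, not_exists, mem_box, mem_preimage] at h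
  exact ⟨a, b, h1, h2.ge, h3.mono fun v hv => F.of_trunc hv.1 (h v hv.2)⟩

lemma dep_bad (L : ℕ) (c : V) : Dep {y | d c y ≤ 3 * L} (sh c ⁻¹' F.Bad L) := by
  rintro E E' he ⟨a, b, h1, h2, h3⟩
  refine ⟨a, b, h1, h2, h3.mono fun v hv => ⟨?_, hv.2⟩⟩
  have h4 : cut L (sh v (sh c E)) F.hi ∈ F.O := hv.1
  change cut L (sh v (sh c E')) F.hi ∈ F.O
  rwa [← trunc_congr]
  intro y hy
  refine he _ ?_
  have h5 : d 0 v ≤ 2 * L := hv.2
  have := d_tri 0 v y
  simp only [mem_ofPred_eq, d_zero_add]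
  omega

end Fld

def ctr (K : ℕ) (z : V) : V := (K * z.1, K * z.2)

def blk (L : ℕ) (v : V) : V := ((v.1 + L) / (2 * L + 1 : ℕ), (v.2 + L) / (2 * L + 1 : ℕ))

lemma d_ctr (K : ℕ) (z z' : V) : d (ctr K z) (ctr K z') = K * d z z' := by
  simp only [d, ctr, ← mul_sub, Int.natAbs_mul, Int.natAbs_natCast]
  rw [Nat.mul_max_mul_left]

lemma ctr_zero (K : ℕ) : ctr K 0 = 0 := by simp [ctr]

lemma d_blk (L : ℕ) (v : V) : d (ctr (2 * L + 1) (blk L v)) v ≤ L := by
  have key : ∀ a : ℤ, ((2 * L + 1 : ℕ) * ((a + L) / (2 * L + 1 : ℕ)) - a).natAbs ≤ L := by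
    intro a
    have h1 := Int.mul_ediv_add_emod (a + L) (2 * L + 1 : ℕ)
    have h2 := Int.emod_nonneg (a + L) (b := (2 * L + 1 : ℕ)) (by omega)
    have h3 := Int.emod_lt_of_pos (a + L) (b := (2 * L + 1 : ℕ)) (by omega)
    omega
  exact max_le (key _) (key _)

lemma blk_near (L : ℕ) {u v : V} (h : d u v ≤ 1) : d (blk L u) (blk L v) ≤ 1 := by
  have h1 := d_blk L u
  have h2 := d_blk L v
  have h3 := d_ctr (2 * L + 1) (blk L u) (blk L v)
  have h4 := d_tri (ctr (2 * L + 1) (blk L u)) u (ctr (2 * L + 1) (blk L v))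
  have h5 := d_tri u v (ctr (2 * L + 1) (blk L v))
  have h6 := d_comm v (ctr (2 * L + 1) (blk L v))
  by_contra h7
  have : (2 * L + 1) * 2 ≤ (2 * L + 1) * d (blk L u) (blk L v) := Nat.mul_le_mul_left _ (by omega)
  omega

lemma blk_zero (L : ℕ) : blk L 0 = 0 := by
  have h1 := d_blk L 0
  have h3 := d_ctr (2 * L + 1) (blk L 0) 0
  rw [ctr_zero] at h3
  refine d_eq_zero ?_
  by_contra h7
  have : (2 * L + 1) * 1 ≤ (2 * L + 1) * d (blk L 0) 0 := Nat.mul_le_mul_left _ (by omega)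
  omega

namespace Fld

variable {X : Type} [MeasurableSpace X] (F : Fld X) (m : Measure X) [IsProbabilityMeasure m]

lemma bad_sparse (L : ℕ) (A : Finset V) (hA : ∀ z ∈ A, ∀ z' ∈ A, z ≠ z' → 3 ≤ d z z') :
    Pm V m (⋂ z ∈ A, sh (ctr (2 * L + 1) z) ⁻¹' F.Bad L) = Pm V m (F.Bad L) ^ A.card := by
  induction A using Finset.induction_on with
  | empty => simp
  | insert x A hx ih =>
    rw [Finset.set_biInter_insert, Finset.card_insert_of_notMem hx, pow_succ',
      indep _ (F.dep_bad L _) _ (measurable_sh _ (F.measurableSet_bad L))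
        (A.measurableSet_biInter fun z _ => measurable_sh _ (F.measurableSet_bad L)),
      ih fun z hz z' hz' => hA z (Finset.mem_insert_of_mem hz) z' (Finset.mem_insert_of_mem hz'),
      (mp_sh m _).measure_preimage (F.measurableSet_bad L).nullMeasurableSet]
    intro E E' he h
    simp only [mem_iInter] at h ⊢
    intro z hz
    refine F.dep_bad L _ E E' (fun y hy => he y fun hy' => ?_) (h z hz)
    have h1 := hA x (Finset.mem_insert_self _ _) z (Finset.mem_insert_of_mem hz)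
      (by rintro rfl; exact hx hz)
    have h2 := d_ctr (2 * L + 1) x z
    have h3 := d_tri (ctr (2 * L + 1) x) y (ctr (2 * L + 1) z)
    have h4 := d_comm y (ctr (2 * L + 1) z)
    have : (2 * L + 1) * 3 ≤ (2 * L + 1) * d x z := Nat.mul_le_mul_left _ h1
    simp only [mem_ofPred_eq] at hy hy'
    omega

lemma bad_all (L : ℕ) (β : ℝ≥0∞) (hβ : β ≤ 1) (h : Pm V m (F.Bad L) ≤ β ^ 9) (A : Finset V) :
    Pm V m {E | (A : Set V) ⊆ {z | sh (ctr (2 * L + 1) z) E ∈ F.Bad L}} ≤ β ^ A.card := by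
  let f : V → V := fun z => (z.1 % 3, z.2 % 3)
  obtain ⟨b, -, hb⟩ := Finset.exists_max_image (box (1, 1) 1)
    (fun b => (A.filter fun z => f z = b).card) ⟨(1, 1), by simp⟩
  have h1 : A.card ≤ (A.filter fun z => f z = b).card * (box (1, 1) 1).card :=
    Finset.card_le_mul_card_image_of_maps_to (f := f)
      (fun z _ => by simp only [mem_box, d, f]; omega) _ hb
  rw [card_box] at h1
  have h2 := F.bad_sparse m L (A.filter fun z => f z = b) (by
    intro z hz z' hz' hne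
    have e := (Finset.mem_filter.1 hz).2.trans (Finset.mem_filter.1 hz').2.symm
    simp only [f, Prod.mk.injEq] at e
    have : z.1 ≠ z'.1 ∨ z.2 ≠ z'.2 := by
      by_contra hc; push Not at hc; exact hne (Prod.ext hc.1 hc.2)
    unfold d; omega)
  refine le_trans (measure_mono ?_) (h2.le.trans ?_)
  · intro E hE
    simp only [mem_iInter]
    exact fun z hz => hE (Finset.mem_filter.1 hz).1
  · refine (pow_le_pow_left' h _).trans ?_
    rw [← pow_mul]
    exact pow_le_pow_right_of_le_one' hβ (by omega)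

lemma th_block (L : ℕ) (h : Pm V m (F.Bad L) ≤ (18⁻¹) ^ 9) (n : ℕ) :
    F.th m n ≤ 2 * (1 / 2) ^ (n / (4 * L + 1)) := by
  rcases Nat.eq_zero_or_pos (n / (4 * L + 1)) with h0 | h0
  · rw [h0]; exact (F.th_le_one m n).trans (by norm_num)
  obtain ⟨l, hl⟩ : ∃ l, n / (4 * L + 1) = l + 1 := ⟨_, (Nat.succ_pred_eq_of_pos h0).symm⟩
  have hn : (l + 1) * (4 * L + 1) ≤ n := by rw [← hl]; exact Nat.div_mul_le_self _ _
  have p := peierls (Pm V m) (fun E => {z | sh (ctr (2 * L + 1) z) E ∈ F.Bad L}) 18⁻¹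
    (F.bad_all m L _ (by norm_num) h) l 0
  have hs : F.ArmE 0 n ⊆ {E | Arm st {z | sh (ctr (2 * L + 1) z) E ∈ F.Bad L} 0 l} := by
    rintro E ⟨b, h1, h2⟩
    have h3 := h2.mono_reach (S' := {v | Conn F.r (opn F.O E) 0 v}) fun v hv => hv
    have h4 := h3.map (r' := st) (T := {z | sh (ctr (2 * L + 1) z) E ∈ F.Bad L}) (blk L)
      (fun u v h => blk_near L (F.r_near _ _ h)) ?_
    · rw [blk_zero] at h4
      refine ⟨_, ?_, h4⟩
      have h5 := d_blk L b
      have h6 := d_ctr (2 * L + 1) 0 (blk L b)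
      rw [ctr_zero] at h6
      have h7 := d_tri 0 (ctr (2 * L + 1) (blk L b)) b
      by_contra h8
      have : (2 * L + 1) * d 0 (blk L b) ≤ (2 * L + 1) * l := Nat.mul_le_mul_left _ (by omega)
      nlinarith
    · intro v hv
      set c := ctr (2 * L + 1) (blk L v) with hc
      have h5 : d c v ≤ L := d_blk L v
      have : ∃ w, 2 * L ≤ d c w ∧ Conn F.r (opn F.O E) v w := by
        by_cases h6 : 2 * L ≤ d c 0
        · exact ⟨0, h6, Conn.symm F.r_symm hv⟩
        · refine ⟨b, ?_, (Conn.symm F.r_symm hv).trans h2⟩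
          have := d_tri 0 c b
          have := d_comm 0 c
          have : 4 * L + 1 ≤ n := by nlinarith
          omega
      obtain ⟨w, h6, h7⟩ := this
      obtain ⟨u, h8, h9⟩ := h7.hit F.r_near c (2 * L) (by omega) h6
      refine ⟨v - c, u - c, ?_, ?_, ?_⟩
      · rw [← d_zero_add c]; simpa using h5
      · rw [← d_zero_add c]; simpa using h8
      · have : opn (F.trunc L).O (sh c E) ∩ {v | d 0 v ≤ 2 * L} = (Equiv.addLeft c) ⁻¹'
            (opn (F.trunc L).O E ∩ {v | d c v ≤ 2 * L}) := by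
          rw [opn_sh]; ext y; simp [d_zero_add]
        rw [this, conn_sh]
        simpa using h9.mono (inter_subset_inter_left _ (F.opn_subset_trunc L E))
  have h2 : (9 * 18⁻¹ : ℝ≥0∞) ^ l * 18⁻¹ ≤ ENNReal.ofReal (2 * (1 / 2) ^ (l + 1)) := by
    have e1 : (9 * 18⁻¹ : ℝ≥0∞) = ENNReal.ofReal (1 / 2) := by
      rw [show (1 / 2 : ℝ) = 9 * 18⁻¹ by norm_num, ENNReal.ofReal_mul (by norm_num),
        ENNReal.ofReal_inv_of_pos (by norm_num)]
      simp
    rw [e1, ← ENNReal.ofReal_pow (by norm_num), show (2 : ℝ) * (1 / 2) ^ (l + 1) = (1 / 2) ^ l by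
      rw [pow_succ]; ring]
    exact mul_le_of_le_one_right' (by norm_num)
  rw [hl]
  exact ENNReal.toReal_le_of_le_ofReal (by positivity) ((measure_mono hs).trans (p.trans h2))

/-- without exponential decay the one arm probability is at least `c / L` -/
theorem renorm (hU : ExpDecay fun ρ => (Pm V m).real (F.Unk ρ)) (h : ¬ ExpDecay (F.th m)) :
    ∃ c > 0, ∃ L0 : ℕ, ∀ L ≥ L0, c ≤ (L + 1) * F.th m L := by
  obtain ⟨L0, hL0⟩ := ((hU.poly 2).const_mul (c := 16) (by norm_num)).eventually_le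
    (e := (18⁻¹) ^ 9 / 2) (by positivity)
  refine ⟨(18⁻¹) ^ 9 / 16, by positivity, L0, fun L hL => ?_⟩
  by_contra hc
  refine h (((expDecay_div (4 * L + 1) (by omega)).const_mul (c := 2) (by norm_num)).mono
    (F.th_block m L ?_))
  have h1 := F.bad_le m L
  have h2 := F.cross_le m L
  have h3 := hL0 L hL
  have h4 : (2 * (2 * L : ℕ) + 1 : ℝ) ^ 2 * (Pm V m).real (F.Unk L) ≤
      16 * (((L : ℝ) + 1) ^ 2 * (Pm V m).real (F.Unk L)) := by
    rw [← mul_assoc]
    refine mul_le_mul_of_nonneg_right ?_ measureReal_nonneg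
    push_cast
    have : (0 : ℝ) ≤ L := by positivity
    nlinarith
  have h5 := F.th_nonneg m L
  have h6 : (Pm V m).real (F.Bad L) ≤ (18⁻¹) ^ 9 := by nlinarith
  rw [← ofReal_measureReal (measure_ne_top _ _)]
  refine (ENNReal.ofReal_le_ofReal h6).trans (le_of_eq ?_)
  rw [ENNReal.ofReal_pow (by norm_num), ENNReal.ofReal_inv_of_pos (by norm_num)]
  simp

end Fld

end Pool.Agent.EB
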