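import Pool.Agent.P.MP_d1873d_pr.Forward
import Pool.Agent.P.MP_d1873d_pr.BK

/-! Exponential decay on both sides of the critical time. -/

namespace Pool.Agent.EB

open MeasureTheory Set Measure Filter Topology
open scoped ENNReal

lemma adj_eq : Adj = nn := by
  ext u v; simp only [Adj, nn, Int.abs_eq_natAbs]; omega

lemma joined_iff (σ : Config) (a b : V) : Joined σ a b ↔ Conn nn {v | σ v = true} a b := by
  unfold Joined; rw [adj_eq]; rfl

lemma mem_Box {n : ℕ} {v : V} : v ∈ Box n ↔ d 0 v ≤ n := by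
  obtain ⟨x, y⟩ := v
  simp only [Box, mem_ofPred_eq, Int.abs_eq_natAbs, d0]; omega

lemma mem_Bdry {n : ℕ} {v : V} : v ∈ Bdry n ↔ d 0 v = n := by
  simp only [Bdry, mem_ofPred_eq, mem_Box, adj_eq]
  constructor
  · rintro ⟨h1, y, h2, h3⟩
    have := d_tri 0 v y
    have := nn_st h3
    omega
  · obtain ⟨x, y⟩ := v
    intro h
    refine ⟨h.le, ?_⟩
    rw [d0] at h
    have : x = n ∨ x = -n ∨ y = n ∨ y = -n := by omega
    rcases this with h1 | h1 | h1 | h1
    · exact ⟨(x + 1, y), by rw [d0]; omega, by simp [nn]⟩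
    · exact ⟨(x - 1, y), by rw [d0]; omega, by simp [nn]⟩
    · exact ⟨(x, y + 1), by rw [d0]; omega, by simp [nn]⟩
    · exact ⟨(x, y - 1), by rw [d0]; omega, by simp [nn]⟩

def CrossS (n : ℕ) (W : Set V) : Prop := ∃ a b, d 0 a ≤ n ∧ 2 * n ≤ d 0 b ∧ Conn nn W a b

lemma mem_Crossing {n : ℕ} {σ : Config} : σ ∈ Crossing n ↔ CrossS n {v | σ v = true} := by
  simp only [Crossing, mem_ofPred_eq, mem_Box, mem_Bdry, joined_iff]
  constructor
  · rintro ⟨a, h1, b, h2, h3⟩; exact ⟨a, b, h1, h2.ge, h3⟩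
  · rintro ⟨a, b, h1, h2, h3⟩
    obtain ⟨u, h4, h5⟩ := h3.hit (fun _ _ => nn_st) 0 (2 * n) (by omega) h2
    exact ⟨a, h1, u, h4, h5.mono inter_subset_left⟩

lemma mem_Perc {σ : Config} : σ ∈ Perc ↔ Inf nn {v | σ v = true} 0 := by
  simp only [Perc, mem_ofPred_eq, joined_iff, Inf]

lemma measurableSet_plus (v : V) : MeasurableSet {σ : Config | v ∈ {v | σ v = true}} :=
  measurable_pi_apply (X := fun _ : Site => Bool) v (measurableSet_singleton true)

lemma measurableSet_Crossing (n : ℕ) : MeasurableSet (Crossing n) := by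
  have : Crossing n = {σ | CrossS n {v | σ v = true}} := Set.ext fun _ => mem_Crossing
  rw [this]
  exact measurableSet_setOfPred.2 (Measurable.exists fun a => Measurable.exists fun b =>
    measurable_const.and (measurable_const.and
      (measurableSet_setOfPred.1 (measurableSet_conn _ measurableSet_plus nn a b))))

lemma measurableSet_Perc : MeasurableSet Perc := by
  have : Perc = {σ | Inf nn {v | σ v = true} 0} := Set.ext fun _ => mem_Perc
  rw [this]
  exact measurableSet_inf _ measurableSet_plus nn 0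

lemma dual_arm (W : Set V) {n : ℕ} (hn : 1 ≤ n)
    (hfin : {v | d 0 v < n ∨ ∃ x, d 0 x ≤ n ∧ Conn nn W x v}.Finite) :
    ∃ a : ℕ, n ≤ a ∧ (∃ u, (d 0 u < n ∨ ∃ x, d 0 x ≤ n ∧ Conn nn W x u) ∧ nn u (a, 0)) ∧
      Arm st Wᶜ (a, 0) a := by
  obtain ⟨a, b, ha, hb, h⟩ := duality _ hfin (Or.inl (by rw [d_self]; omega))
  obtain ⟨a, rfl⟩ := Int.eq_ofNat_of_zero_le ha.le
  refine ⟨a, ?_, h.1.2, (-b, 0), by simp only [d]; omega, h.mono ?_⟩
  · have := h.1.1
    simp only [mem_ofPred_eq, not_or, d0] at this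
    omega
  · rintro w ⟨h1, u, h2, h3⟩ hw
    refine h1 (Or.inr ?_)
    rcases h2 with h2 | ⟨x, h4, h5⟩
    · have := d_tri 0 u w
      have := nn_st h3
      exact ⟨w, by omega, Conn.refl hw⟩
    · exact ⟨x, h4, h5.tail h3 hw⟩

namespace Rate

variable (Q : Rate)

lemma plus_cfg (E : V → ℝ≥0∞) : {v | Q.cfg 1 E v = true} = Q.Op E := by
  ext v; simp [cfg, Op]

lemma decay_plus {t0 t1 : ℝ} (h0 : 0 < t0) (h1 : t0 < t1) (h : Pm V (nu t1) (Q.Fp.InfE 0) = 0) :
    ExpDecay (Q.Fp.th (nu t0)) := by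
  by_contra hne
  obtain ⟨u, hu, hU⟩ := Q.locality t1
  obtain ⟨δ, hδ, h2⟩ := Q.Fp.sharp (nu t0) (nu t1) (K := t1 / (t1 - t0))
    (div_pos (by linarith) (by linarith)) (fun D mD hD => by
      have := nu_ineq h0 h1 (D := Dᶜ) fun a b hab ha hb => ha (hD b a hab hb)
      rw [probReal_compl_eq_one_sub mD, probReal_compl_eq_one_sub mD] at this
      linarith) u hu (fun p p0 p1 j => by
      have := mix_prob (nu t0) (nu t1) p0 p1
      exact hU _ (mix_window h0 (h0.trans h1) h1.le le_rfl p0 p1) j) (Ici 1) measurableSet_Ici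
    (nu_Ici_pos h0) (nu_Ici_pos (h0.trans h1))
    (fun E hE => Q.notMem_of_le (by simpa using hE)) hne
  exact Q.Fp.infE_pos _ hδ h2 h

lemma decay_minus {t0 t1 : ℝ} (h0 : 0 < t0) (h1 : t0 < t1) (h : Pm V (nu t0) (Q.Fm.InfE 0) = 0) :
    ExpDecay (Q.Fm.th (nu t1)) := by
  by_contra hne
  obtain ⟨u, hu, hU⟩ := Q.locality t1
  obtain ⟨δ, hδ, h2⟩ := Q.Fm.sharp (nu t1) (nu t0) (K := t1 / (t1 - t0))
    (div_pos (by linarith) (by linarith)) (fun D _ hD => nu_ineq h0 h1 hD) u hu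
    (fun p p0 p1 j => by
      have := mix_prob (nu t1) (nu t0) p0 p1
      rw [unk_Fm]
      exact hU _ (mix_window (h0.trans h1) h0 le_rfl h1.le p0 p1) j) (Iio (ENNReal.ofReal Q.ε))
    measurableSet_Iio (nu_Iio_pos (h0.trans h1) Q.ε_pos) (nu_Iio_pos h0 Q.ε_pos)
    (fun E hE h => h (Q.mem_of_lt (by simpa using hE))) hne
  exact Q.Fm.infE_pos _ hδ h2 h

lemma pi_pos {t : ℝ} (A : Finset V) {D : Set ℝ≥0∞} (mD : MeasurableSet D) (h : 0 < (nu t).real D) :
    0 < (Pm V (nu t)).real ((A : Set V).pi fun _ => D) := by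
  rw [measureReal_def, infinitePi_pi _ fun _ _ => mD, ENNReal.toReal_prod]
  exact Finset.prod_pos fun _ _ => h

lemma lt_one_of {t : ℝ} {G : Set (V → ℝ≥0∞)} (A : Finset V) {D : Set ℝ≥0∞} (mD : MeasurableSet D)
    (h : 0 < (nu t).real D) (hG : G ⊆ ((A : Set V).pi fun _ => D)ᶜ) : (Pm V (nu t)).real G < 1 := by
  refine (rmono hG).trans_lt ?_
  rw [probReal_compl_eq_one_sub (.pi A.countable_toSet fun _ _ => mD)]
  linarith [pi_pos A mD h]

theorem sub_bound {t0 t1 : ℝ} (h0 : 0 < t0) (h1 : t0 < t1)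
    (h : Pm V (nu t1) (Q.Fp.InfE 0) = 0) :
    ∃ c > 0, ∀ n ≥ 1, (Pm V (nu t0)).real (Q.Fp.Cross n) ≤ Real.exp (-(c * n)) := by
  refine ExpDecay.exp_bound (g := fun n => (Pm V (nu t0)).real (Q.Fp.Cross n))
    ((((Q.decay_plus h0 h1 h).poly 1).const_mul (c := 8) (by norm_num)).mono fun n => ?_)
    fun n _ => lt_one_of (box 0 n) measurableSet_Ici (nu_Ici_pos h0) ?_
  · refine (Q.Fp.cross_le _ n).trans ?_
    have := Q.Fp.th_nonneg (nu t0) n
    nlinarith
  · rintro E ⟨a, b, h2, -, h3⟩ hE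
    have h4 := h3.1
    rw [opn_Fp] at h4
    exact Q.notMem_of_le (by simpa using hE a (by simpa using h2)) h4

theorem super_bound {t0 t1 : ℝ} (h0 : 0 < t0) (h1 : t0 < t1)
    (h : Pm V (nu t0) (Q.Fp.InfE 0) ≠ 0) :
    ∃ c > 0, ∀ n ≥ 1, (Pm V (nu t1)).real (Q.Fp.Cross n)ᶜ ≤ Real.exp (-(c * n)) := by
  obtain ⟨u, hu, hU⟩ := Q.locality t0
  have h2 := Q.no_coexist (nu t0) (fun h3 => by
    have := nu_Ici_pos h0
    rw [measureReal_def, h3] at this
    simp at this) (fun h3 => by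
    have := nu_Iio_pos h0 Q.ε_pos
    rw [measureReal_def, h3] at this
    simp at this) (hu.mono (hU _ fun c δ hδ => by
    rw [← ofReal_measureReal (measure_ne_top _ _)]
    exact ENNReal.ofReal_le_ofReal (nu_window h0 le_rfl c hδ))) h
  have := ExpDecay.exp_bound (g := fun n => if n = 0 then 0 else (Pm V (nu t1)).real (Q.Fp.Cross n)ᶜ)
    ((((Q.decay_minus h0 h1 h2).poly 1).const_mul (c := 2) (by norm_num)).mono fun n => ?_)
    fun n hn => ?_
  · obtain ⟨c, hc, h3⟩ := this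
    exact ⟨c, hc, fun n hn => by simpa [show n ≠ 0 by omega] using h3 n hn⟩
  · have := Q.Fm.th_nonneg (nu t1) n
    split_ifs with hn
    · positivity
    have hs : (Q.Fp.Cross n)ᶜ ⊆ ⋃ a ∈ Finset.range (2 * n + 1), Q.Fm.ArmE ((a : ℕ), 0) n := by
      intro E hE
      have h3 : ∀ v, (d 0 v < n ∨ ∃ x, d 0 x ≤ n ∧ Conn nn (Q.Op E) x v) → d 0 v < 2 * n := by
        rintro v (h4 | ⟨x, h4, h5⟩)
        · omega
        · by_contra h6
          exact hE ⟨x, v, h4, by omega, by rw [opn_Fp]; exact h5⟩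
      obtain ⟨a, h4, ⟨u, h5, h6⟩, h7⟩ := dual_arm (Q.Op E) (n := n) (by omega)
        ((finite_box 0 (2 * n)).subset fun v hv => (h3 v hv).le)
      simp only [mem_iUnion, Finset.mem_range]
      have := h3 u h5
      have := d_tri 0 u (a, 0)
      have := nn_st h6
      have := d0 a 0
      refine ⟨a, by omega, ?_⟩
      simp only [Fld.ArmE, mem_ofPred_eq, opn_Fm]
      exact h7.anti h4
    refine (rmono hs).trans ((measureReal_biUnion_finset_le _ _).trans ?_)
    simp only [Fld.prob_armE, Finset.sum_const, Finset.card_range, nsmul_eq_mul]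
    push_cast
    nlinarith
  · rw [if_neg (by omega)]
    refine lt_one_of (box 0 (2 * n)) measurableSet_Iio (nu_Iio_pos (h0.trans h1) Q.ε_pos)
      (compl_subset_compl.2 fun E hE => ?_)
    have h3 : ∀ k : ℕ, k ≤ 2 * n → ((k : ℤ), (0 : ℤ)) ∈ Q.Op E := fun k hk =>
      Q.mem_of_lt (by simpa using hE _ (by simpa [d0] using hk))
    have h4 : ∀ k : ℕ, k ≤ 2 * n → Conn nn (Q.Op E) 0 (k, 0) := by
      intro k
      induction k with
      | zero => intro hk; exact Conn.refl (h3 0 hk)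
      | succ k ih => intro hk; exact (ih (by omega)).tail (by simp [nn]) (h3 _ hk)
    exact ⟨0, ((2 * n : ℕ), 0), by simp, by rw [d0]; omega, by rw [opn_Fp]; exact h4 _ le_rfl⟩

theorem exists_perc : ∃ t > 0, Pm V (nu t) (Q.Fp.InfE 0) ≠ 0 := by
  have e0 := Q.ε_pos
  refine ⟨17 / Q.ε, by positivity, fun h => ?_⟩
  set m := nu (17 / Q.ε)
  have h1 : ∀ A : Finset V, Pm V m {E | (A : Set V) ⊆ (Q.Op E)ᶜ} ≤ 18⁻¹ ^ A.card := by
    intro A
    refine le_trans (measure_mono (t := (A : Set V).pi fun _ => Ici (ENNReal.ofReal Q.ε)) ?_) ?_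
    · intro E hE x hx
      by_contra h2
      exact hE hx (Q.mem_of_lt (by simpa using h2))
    · rw [infinitePi_pi _ fun _ _ => measurableSet_Ici]
      refine Finset.prod_le_pow_card _ _ _ fun _ _ => ?_
      rw [← ofReal_measureReal (measure_ne_top _ _), nu_Ici (by positivity) ENNReal.ofReal_ne_top,
        ENNReal.toReal_ofReal e0.le, div_mul_cancel₀ _ e0.ne', Real.exp_neg,
        ENNReal.ofReal_inv_of_pos (Real.exp_pos _)]
      refine ENNReal.inv_le_inv.2 ?_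
      have := Real.add_one_le_exp 17
      exact le_trans (by simp) (ENNReal.ofReal_le_ofReal (p := 18) (by linarith))
  have h2 : Pm V m (⋃ v, Q.Fp.InfE v) = 0 := measure_iUnion_null fun v => by
    rw [Q.Fp.infE_sh, (mp_sh m v).measure_preimage (Q.Fp.measurableSet_infE 0).nullMeasurableSet, h]
  have h3 : (univ : Set (V → ℝ≥0∞)) ⊆ (⋃ v, Q.Fp.InfE v) ∪
      ⋃ a : ℕ, {E | Arm st (Q.Op E)ᶜ (a, 0) a} := by
    intro E _
    by_cases h4 : E ∈ ⋃ v, Q.Fp.InfE v
    · exact Or.inl h4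
    right
    simp only [mem_iUnion, not_exists, Fld.InfE, mem_ofPred_eq, opn_Fp] at h4 ⊢
    obtain ⟨a, -, -, h5⟩ := dual_arm (Q.Op E) le_rfl (((finite_box 0 1).union
      ((finite_box 0 1).biUnion (t := fun x => {v | Conn nn (Q.Op E) x v})
        fun x _ => not_not.1 (h4 x))).subset (by
      rintro v (h5 | ⟨x, h5, h6⟩)
      · exact Or.inl h5.le
      · exact Or.inr (mem_biUnion h5 h6)))
    exact ⟨a, h5⟩
  have h4 := (measure_mono (μ := Pm V m) h3).trans ((measure_union_le _ _).trans (add_le_add h2.le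
    ((measure_iUnion_le _).trans (ENNReal.tsum_le_tsum fun a : ℕ => peierls _ _ _ h1 a (a, 0)))))
  have e1 : (9 * 18⁻¹ : ℝ≥0∞) = 2⁻¹ := by
    rw [show (18 : ℝ≥0∞) = 9 * 2 by norm_num, ENNReal.mul_inv (by simp) (by simp), ← mul_assoc,
      ENNReal.mul_inv_cancel (by simp) (by simp), one_mul]
  rw [measure_univ, zero_add, e1, ENNReal.tsum_mul_right, ENNReal.tsum_geometric,
    ENNReal.one_sub_inv_two, inv_inv] at h4
  have := ENNReal.toReal_mono (ENNReal.mul_ne_top (by simp) (by simp)) h4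
  norm_num at this

end Rate

namespace Elliptic

variable {lam : (Ball → Bool) → ℝ} (h : Elliptic lam)

lemma law_eq {t : ℝ} (ht : 0 < t) {A : Set Config} (mA : MeasurableSet A) :
    h.law t A = Pm V (nu t) (h.rate.cfg 1 ⁻¹' A) := by
  rw [law, map_apply (h.rate.measurable_cfg t) mA,
    ← (mp_scale t).measure_preimage (h.rate.measurable_cfg 1 mA).nullMeasurableSet]
  congr 1
  ext E
  have : h.rate.cfg 1 (fun y => E y / ENNReal.ofReal t) = h.rate.cfg t E := by
    ext x; simp [Rate.cfg, h.rate.Sig_scale ht]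
  simp only [mem_preimage, this]

lemma law_cross {t : ℝ} (ht : 0 < t) (n : ℕ) :
    h.law t (Crossing n) = Pm V (nu t) (h.rate.Fp.Cross n) := by
  rw [h.law_eq ht (measurableSet_Crossing n)]
  congr 1
  ext E
  simp only [mem_preimage, mem_Crossing, Rate.plus_cfg, Fld.Cross, Rate.opn_Fp]
  rfl

lemma law_perc {t : ℝ} (ht : 0 < t) : h.law t Perc = Pm V (nu t) (h.rate.Fp.InfE 0) := by
  rw [h.law_eq ht measurableSet_Perc]
  congr 1
  ext E
  simp only [mem_preimage, mem_Perc, Rate.plus_cfg, Fld.InfE, Rate.opn_Fp]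
  rfl

lemma law_mono {s t : ℝ} (hst : s ≤ t) {A : Set Config} (mA : MeasurableSet A)
    (hA : ∀ σ σ' : Config, {v | σ v = true} ⊆ {v | σ' v = true} → σ ∈ A → σ' ∈ A) :
    h.law s A ≤ h.law t A := by
  rw [law, law, map_apply (h.rate.measurable_cfg _) mA, map_apply (h.rate.measurable_cfg _) mA]
  refine measure_mono fun E => hA _ _ fun v hv => ?_
  simp only [Rate.cfg, mem_ofPred_eq, decide_eq_true_eq] at hv ⊢
  exact h.rate.Sig_time hst hv

theorem part_one {t : ℝ} (ht : 0 ≤ t) (h1 : t < tc h.law) :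
    ∃ c > 0, ∀ n : ℕ, 1 ≤ n → (h.law t).real (Crossing n) ≤ Real.exp (-(c * n)) := by
  have := h.isLaw.prob
  have h2 : (t + 2 * tc h.law) / 3 ∉ {t | 0 ≤ t ∧ 0 < h.law t Perc} :=
    notMem_of_lt_csInf (show _ < tc h.law by linarith) ⟨0, fun _ hs => hs.1⟩
  simp only [mem_ofPred_eq, not_and, not_lt, nonpos_iff_eq_zero] at h2
  have h3 := h2 (by linarith)
  rw [h.law_perc (by linarith)] at h3
  obtain ⟨c, hc, h4⟩ := h.rate.sub_bound (t0 := (2 * t + tc h.law) / 3) (by linarith) (by linarith) h3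
  refine ⟨c, hc, fun n hn => le_trans ?_ (h4 n hn)⟩
  rw [measureReal_def, measureReal_def, ← h.law_cross (by linarith)]
  refine ENNReal.toReal_mono (measure_ne_top _ _) (h.law_mono (by linarith)
    (measurableSet_Crossing n) fun σ σ' h5 h6 => ?_)
  rw [mem_Crossing] at h6 ⊢
  obtain ⟨a, b, h7, h8, h9⟩ := h6
  exact ⟨a, b, h7, h8, h9.mono h5⟩

theorem part_two {t : ℝ} (h1 : tc h.law < t) :
    ∃ c > 0, ∀ n : ℕ, 1 ≤ n → 1 - Real.exp (-(c * n)) ≤ (h.law t).real (Crossing n) := by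
  have := h.isLaw.prob
  obtain ⟨T, hT, hT'⟩ := h.rate.exists_perc
  obtain ⟨s, ⟨s0, hs⟩, hst⟩ := exists_lt_of_csInf_lt (s := {t | 0 ≤ t ∧ 0 < h.law t Perc})
    ⟨T, hT.le, by rw [h.law_perc hT]; exact pos_iff_ne_zero.2 hT'⟩ h1
  have h2 := hs.trans_le (h.law_mono (t := (s + t) / 2) (by linarith) measurableSet_Perc
    fun σ σ' h5 h6 => mem_Perc.2 ((mem_Perc.1 h6).mono h5))
  rw [h.law_perc (by linarith)] at h2
  obtain ⟨c, hc, h4⟩ := h.rate.super_bound (t1 := t) (by linarith) (by linarith) h2.ne'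
  refine ⟨c, hc, fun n hn => ?_⟩
  have h5 := h4 n hn
  have e := h.law_cross (t := t) (by linarith) n
  have mC : MeasurableSet (h.rate.Fp.Cross n) := by
    convert h.rate.measurable_cfg 1 (measurableSet_Crossing n) using 1
    ext E
    simp only [mem_preimage, mem_Crossing, Rate.plus_cfg, Fld.Cross, Rate.opn_Fp]
    rfl
  rw [probReal_compl_eq_one_sub mC, measureReal_def, ← e] at h5
  rw [measureReal_def]
  linarith

end Elliptic

end Pool.Agent.EB
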