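import Pool.Agent.P.MP_d1873d_pr.Basic

/-! Two planar lemmas on the square lattice: duality and separation. -/

namespace Pool.Agent.EB

open Set

lemma tele2 (f : ℕ → ZMod 2) (n : ℕ) : ∑ i ∈ Finset.range n, (f i + f (i + 1)) = f 0 + f n := by
  induction n with
  | zero => simp [CharTwo.add_self_eq_zero]
  | succ n ih =>
    rw [Finset.sum_range_succ, ih]
    generalize f 0 = a; generalize f n = b; generalize f (n + 1) = c
    revert a b c; decide

/-- the outer boundary of a finite set around the origin contains a star path from the right half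
axis to the left half axis -/
theorem duality (C : Set V) (hC : C.Finite) (h0 : (0 : V) ∈ C) :
    ∃ a b : ℤ, 0 < a ∧ 0 < b ∧ Conn st {w | w ∉ C ∧ ∃ u ∈ C, nn u w} (a, 0) (-b, 0) := by
  classical
  set M : Set V := {w | w ∉ C ∧ ∃ u ∈ C, nn u w} with hM
  set K : Set V := {w | ∃ a : ℤ, 0 < a ∧ Conn st M (a, 0) w} with hK
  by_contra hne
  push Not at hne
  have F1 : ∀ v ∈ K, v ∉ C := fun v ⟨_, _, h⟩ => h.right.1
  have F2 : ∀ v ∈ K, ∀ w, st v w → w ∈ M → w ∈ K := fun v ⟨a, ha, h⟩ w h1 h2 => ⟨a, ha, h.tail h1 h2⟩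
  let e : V → V → ZMod 2 := fun u v =>
    (if u ∈ C ∧ v ∈ K then 1 else 0) + (if v ∈ C ∧ u ∈ K then 1 else 0)
  let c : V → ZMod 2 := fun u => if u ∈ C then 1 else 0
  have esymm : ∀ u v, e u v = e v u := fun u v => add_comm _ _
  have e0 : ∀ u v, u ∉ K → v ∉ K → e u v = 0 := fun u v h1 h2 => by simp [e, h1, h2]
  have e0' : ∀ u v, u ∉ C → v ∉ C → e u v = 0 := fun u v h1 h2 => by simp [e, h1, h2]
  have e1 : ∀ u v, nn u v → (u ∈ M → u ∈ K) → (v ∈ M → v ∈ K) → e u v = c u + c v := by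
    intro u v h h1 h2
    by_cases hu : u ∈ C <;> by_cases hv : v ∈ C
    · rw [e0 u v (fun h => F1 u h hu) (fun h => F1 v h hv)]
      simp only [c, hu, hv, if_true]; decide
    · simp [e, c, hu, hv, h2 ⟨hv, u, hu, h⟩]
    · simp [e, c, hu, hv, h1 ⟨hu, v, hv, nn_symm h⟩]
    · simp [e, c, hu, hv]
  have face : ∀ x y : ℤ, e (x, y) (x + 1, y) + e (x, y + 1) (x + 1, y + 1) =
      e (x, y) (x, y + 1) + e (x + 1, y) (x + 1, y + 1) := by
    intro x y
    by_cases h : ∃ q ∈ K, (q.1 = x ∨ q.1 = x + 1) ∧ (q.2 = y ∨ q.2 = y + 1)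
    · obtain ⟨q, hq, h1, h2⟩ := h
      have : ∀ w : V, (w.1 = x ∨ w.1 = x + 1) → (w.2 = y ∨ w.2 = y + 1) → w ∈ M → w ∈ K :=
        fun w h3 h4 => F2 q hq w (by unfold st d; omega)
      rw [e1 _ _ (by simp [nn]) (this _ (by simp) (by simp)) (this _ (by simp) (by simp)),
        e1 _ _ (by simp [nn]) (this _ (by simp) (by simp)) (this _ (by simp) (by simp)),
        e1 _ _ (by simp [nn]) (this _ (by simp) (by simp)) (this _ (by simp) (by simp)),
        e1 _ _ (by simp [nn]) (this _ (by simp) (by simp)) (this _ (by simp) (by simp))]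
      ring
    · push Not at h
      have : ∀ w : V, (w.1 = x ∨ w.1 = x + 1) → (w.2 = y ∨ w.2 = y + 1) → w ∉ K :=
        fun w h3 h4 hw => by have := h w hw h3; omega
      rw [e0 _ _ (this _ (by simp) (by simp)) (this _ (by simp) (by simp)),
        e0 _ _ (this _ (by simp) (by simp)) (this _ (by simp) (by simp)),
        e0 _ _ (this _ (by simp) (by simp)) (this _ (by simp) (by simp)),
        e0 _ _ (this _ (by simp) (by simp)) (this _ (by simp) (by simp))]
  obtain ⟨R0, hR0⟩ := bounded_of_finite hC 0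
  have far : ∀ v : V, R0 < v.1.natAbs ∨ R0 < v.2.natAbs → v ∉ C := by
    intro v hv h
    have := hR0 v h
    simp only [d, Prod.fst_zero, Prod.snd_zero] at this
    omega
  set R := R0 + 1 with hR
  let H : ℤ → ZMod 2 := fun y => ∑ i ∈ Finset.range (R + R), e (-R + i, y) (-R + i + 1, y)
  have Hs : ∀ y, H y + H (y + 1) = 0 := by
    intro y
    simp only [H, ← Finset.sum_add_distrib, face]
    have := tele2 (fun i => e (-R + i, y) (-R + i, y + 1)) (R + R)
    simp only [Nat.cast_add, Nat.cast_one, ← add_assoc] at this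
    rw [this, e0' _ _ (far _ (by simp only; omega)) (far _ (by simp only; omega)),
      e0' _ _ (far _ (by simp only; omega)) (far _ (by simp only; omega)), add_zero]
  have Hn : ∀ n : ℕ, H n = H 0 := by
    intro n
    induction n with
    | zero => rfl
    | succ n ih =>
      have := Hs n
      rw [ih] at this
      push_cast
      generalize H 0 = a at this ⊢; generalize H (n + 1) = b at this ⊢
      revert a b; decide
  have HR : H R = 0 := Finset.sum_eq_zero fun i _ =>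
    e0' _ _ (far _ (by simp only; omega)) (far _ (by simp only; omega))
  have H0 : H 0 = 1 := by
    simp only [H, Finset.sum_range_add]
    have nK : ∀ x : ℤ, x ≤ 0 → (x, 0) ∉ K := by
      intro x hx ⟨a, ha, h⟩
      rcases hx.eq_or_lt with rfl | hx
      · exact h.right.1 h0
      · exact hne a (-x) ha (by omega) (by simpa using h)
    have pK : ∀ x : ℤ, 0 ≤ x → (x, 0) ∈ M → (x, 0) ∈ K := by
      intro x hx h
      rcases hx.eq_or_lt with rfl | hx
      · exact absurd h0 h.1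
      · exact ⟨x, hx, Conn.refl h⟩
    rw [Finset.sum_eq_zero fun i hi => e0 _ _ (nK _ (by simp at hi; omega))
      (nK _ (by simp at hi; omega)), zero_add]
    rw [Finset.sum_congr rfl (g := fun i : ℕ => c (i, 0) + c ((i + 1 : ℕ), 0)) fun i _ => ?_,
      tele2 (fun i => c (i, 0))]
    · have h1 : ((R : ℤ), (0 : ℤ)) ∉ C := far _ (by simp only; omega)
      have h2 : ((0 : ℤ), (0 : ℤ)) ∈ C := h0
      simp [c, h1, h2]
    · rw [e1 _ _ (by simp [nn]) (pK _ (by omega)) (pK _ (by omega))]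
      congr 3 <;> omega
  rw [← Hn R, HR] at H0
  exact absurd H0 (by decide)

lemma d0 (x y : ℤ) : d 0 (x, y) = max x.natAbs y.natAbs := by simp [d]

lemma nn_cases {x y x' y' : ℤ} (h : nn (x, y) (x', y')) : (x' = x + 1 ∧ y' = y) ∨
    (x' = x - 1 ∧ y' = y) ∨ (x' = x ∧ y' = y + 1) ∨ (x' = x ∧ y' = y - 1) := by
  simp only [nn] at h; omega

lemma st_cases {x y x' y' : ℤ} (h : st (x, y) (x', y')) :
    (x' = x - 1 ∨ x' = x ∨ x' = x + 1) ∧ (y' ≤ y + 1 ∧ y ≤ y' + 1) := by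
  simp only [st, d] at h; omega

def wt (y v v' : V) : ZMod 2 := if v.2 = v'.2 ∧ y.1 = max v.1 v'.1 ∧ v.2 < y.2 then 1 else 0

def cr (u u' v : V) : ZMod 2 :=
  (if u.1 = v.1 ∧ u'.1 = v.1 + 1 ∧ v.2 < u.2 then 1 else 0) +
    (if u'.1 = v.1 ∧ u.1 = v.1 + 1 ∧ v.2 < u'.2 then 1 else 0)

lemma cr_h {a b a' b' x y : ℤ} (hb : b' ≤ b + 1 ∧ b ≤ b' + 1) (h1 : ¬(x = a ∧ y = b))
    (h2 : ¬(x = a' ∧ y = b')) (h3 : ¬(x + 1 = a ∧ y = b)) (h4 : ¬(x + 1 = a' ∧ y = b'))
    (ha : a' = a - 1 ∨ a' = a ∨ a' = a + 1) :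
    cr (a, b) (a', b') (x, y) + cr (a, b) (a', b') (x + 1, y) =
      wt (a, b) (x, y) (x + 1, y) + wt (a', b') (x, y) (x + 1, y) := by
  simp only [cr, wt, true_and, show max x (x + 1) = x + 1 by omega]
  split_ifs <;> first | decide | (exfalso; omega)

lemma cr_v {a b a' b' x y : ℤ} (h3 : ¬(x = a ∧ y + 1 = b)) (h4 : ¬(x = a' ∧ y + 1 = b')) :
    cr (a, b) (a', b') (x, y) = cr (a, b) (a', b') (x, y + 1) := by
  simp only [cr]
  split_ifs <;> first | decide | (exfalso; omega)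

lemma wt_symm (y v v' : V) : wt y v v' = wt y v' v := by
  simp only [wt, max_comm v.1 v'.1]
  split_ifs <;> first | rfl | (exfalso; omega)

lemma wt_v {y v v' : V} (h : v.2 ≠ v'.2) : wt y v v' = 0 := by
  simp [wt, h]

lemma cr_local {u u' v v' : V} (h : st u u') (h' : nn v v') (h1 : v ≠ u) (h2 : v ≠ u')
    (h3 : v' ≠ u) (h4 : v' ≠ u') : cr u u' v + cr u u' v' = wt u v v' + wt u' v v' := by
  obtain ⟨a, b⟩ := u; obtain ⟨a', b'⟩ := u'; obtain ⟨x, y⟩ := v; obtain ⟨x', y'⟩ := v'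
  simp only [ne_eq, Prod.mk.injEq] at h1 h2 h3 h4
  obtain ⟨ha, hb⟩ := st_cases h
  rcases nn_cases h' with ⟨rfl, rfl⟩ | ⟨hx, rfl⟩ | ⟨rfl, rfl⟩ | ⟨rfl, hy⟩
  · exact cr_h hb h1 h2 h3 h4 ha
  · obtain rfl : x = x' + 1 := by omega
    rw [add_comm, wt_symm (a, b), wt_symm (a', b')]
    exact cr_h hb h3 h4 h1 h2 ha
  · rw [cr_v h3 h4, wt_v (by simp), wt_v (by simp), CharTwo.add_self_eq_zero, add_zero]
  · obtain rfl : y = y' + 1 := by omega
    rw [← cr_v h1 h2, wt_v (by simp), wt_v (by simp), CharTwo.add_self_eq_zero, add_zero]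

def ph (N a z : ℤ) (v : V) : ZMod 2 := if a ≤ v.1 ∧ v.1 ≤ N - 1 ∧ v.2 < z then 1 else 0

lemma ph_h {N a e b z x y : ℤ} (hb : 0 ≤ b ∧ b ≤ N)
    (hy' : (e = N ∧ -N ≤ a ∧ a ≤ 0) ∨ (a = -N ∧ -N ≤ e ∧ e ≤ 0)) (hN : 0 < N)
    (g4 : (z = e ∧ -N + 1 ≤ e) ∨ (z = -N + 1 ∧ e = -N))
    (g2 : x ≤ -N ∨ N ≤ x ∨ y ≤ -N ∨ N ≤ y) (h7 : ¬(x + 1 = a ∧ y = e)) :
    ph N a z (x, y) + ph N a z (x + 1, y) =
      wt (N, b) (x, y) (x + 1, y) + wt (a, e) (x, y) (x + 1, y) := by
  simp only [ph, wt, true_and, show max x (x + 1) = x + 1 by omega]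
  split_ifs <;> first | decide | (exfalso; omega)

lemma ph_v {N a e z x y : ℤ} 
    (hy' : (e = N ∧ -N ≤ a ∧ a ≤ 0) ∨ (a = -N ∧ -N ≤ e ∧ e ≤ 0)) (hN : 0 < N)
    (g4 : (z = e ∧ -N + 1 ≤ e) ∨ (z = -N + 1 ∧ e = -N))
    (g2 : x ≤ -N ∨ N ≤ x ∨ y ≤ -N ∨ N ≤ y) (g3 : x ≤ -N ∨ N ≤ x ∨ y + 1 ≤ -N ∨ N ≤ y + 1)
    (h6 : ¬(x = a ∧ y = e)) (h7 : ¬(x = a ∧ y + 1 = e)) :
    ph N a z (x, y) = ph N a z (x, y + 1) := by
  simp only [ph]
  split_ifs <;> first | decide | (exfalso; omega)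

lemma out_cases {N : ℕ} {x y : ℤ} (h : N ≤ d 0 (x, y)) : x ≤ -N ∨ N ≤ x ∨ y ≤ -N ∨ N ≤ y := by
  simp only [d, Prod.fst_zero, Prod.snd_zero] at h; omega

lemma index {M : Set V} {y y' : V} (h : Conn st M y y') :
    ∃ (K : ℕ) (I : V → ZMod 2), d 0 y ≤ K ∧ d 0 y' ≤ K ∧
      (∀ v v', nn v v' → (v ∉ M ∨ K < d 0 v) → (v' ∉ M ∨ K < d 0 v') →
        I v + I v' = wt y v v' + wt y' v v') ∧ ∀ v : V, K < v.1.natAbs → I v = 0 := by
  refine h.ind ⟨d 0 y, fun _ => 0, le_rfl, le_rfl, fun v v' _ _ _ => ?_, fun _ _ => rfl⟩ ?_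
  · rw [CharTwo.add_self_eq_zero, CharTwo.add_self_eq_zero]
  · rintro u u' hu ⟨K, I, h1, h2, h3, h4⟩ hs hu'
    refine ⟨max K (d 0 u'), fun v => I v + cr u u' v, by omega, by omega, fun v v' hn hv hv' => ?_,
      fun v hv => ?_⟩
    · have a1 : ∀ w, (w ∉ M ∨ max K (d 0 u') < d 0 w) → w ≠ u ∧ w ≠ u' := by
        rintro w (hw | hw)
        · exact ⟨fun e => hw (e ▸ hu.right), fun e => hw (e ▸ hu')⟩
        · constructor <;> rintro rfl <;> omega
      have a2 := h3 v v' hn (hv.imp_right (by omega)) (hv'.imp_right (by omega))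
      have a3 := cr_local hs hn (a1 v hv).1 (a1 v hv).2 (a1 v' hv').1 (a1 v' hv').2
      have a4 := CharTwo.add_self_eq_zero (wt u v v')
      linear_combination a2 + a3 + a4
    · have a1 : u.1.natAbs ≤ d 0 u := by unfold d; simp
      have a2 : u'.1.natAbs ≤ d 0 u' := by unfold d; simp
      simp only [h4 v (by omega), cr]
      rw [if_neg (by omega), if_neg (by omega)]; rfl

theorem separation (N : ℕ) (W : Set V) {a e b a' c : ℤ} (hb : 0 ≤ b ∧ b ≤ N)
    (hy' : (e = N ∧ -N ≤ a ∧ a ≤ 0) ∨ (a = -N ∧ -N ≤ e ∧ e ≤ 0)) (ha' : 0 ≤ a' ∧ a' < N)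
    (hc : -N < c ∧ c ≤ 0) (hp : Inf nn (W \ {v | d 0 v < N}) (a', N))
    (hq : Inf nn (W \ {v | d 0 v < N}) (N, c)) :
    ¬ Conn st (Wᶜ \ {v | d 0 v < N}) (N, b) (a, e) := by
  intro h
  obtain ⟨K, I, k1, k2, hI, hI0⟩ := index h
  let φ : V → ZMod 2 := ph N a (max e (-N + 1))
  have kN : N ≤ K := by simp only [d, Prod.fst_zero, Prod.snd_zero] at k1; omega
  have S1 : ∀ v v', nn v v' → N ≤ d 0 v → N ≤ d 0 v' → v ≠ (a, e) →
      v' ≠ (a, e) → φ v + φ v' = wt (N, b) v v' + wt (a, e) v v' := by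
    rintro ⟨x, y⟩ ⟨x', y'⟩ h1 h2 h3 h5 h7
    simp only [ne_eq, Prod.mk.injEq] at h5 h7
    have g2 := out_cases h2
    have g3 := out_cases h3
    have g4 : (max e (-N + 1) = e ∧ -N + 1 ≤ e) ∨ (max e (-N + 1) = -N + 1 ∧ e = -N) := by omega
    have hN : (0 : ℤ) < N := by omega
    rcases nn_cases h1 with ⟨rfl, rfl⟩ | ⟨hx, rfl⟩ | ⟨rfl, rfl⟩ | ⟨rfl, hy⟩
    · exact ph_h hb hy' hN g4 g2 h7
    · obtain rfl : x = x' + 1 := by omega
      rw [add_comm, wt_symm (N, b), wt_symm (a, e)]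
      exact ph_h hb hy' hN g4 g3 h5
    · simp only [φ]
      rw [ph_v hy' hN g4 g2 g3 h5 h7, wt_v (by simp), wt_v (by simp), CharTwo.add_self_eq_zero,
        add_zero]
    · obtain rfl : y = y' + 1 := by omega
      simp only [φ]
      rw [← ph_v hy' hN g4 g3 g2 h7 h5, wt_v (by simp), wt_v (by simp), CharTwo.add_self_eq_zero,
        add_zero]
  have S2 : ∀ v v', nn v v' → (v ∈ W \ {v | d 0 v < N} ∨ K < d 0 v) →
      (v' ∈ W \ {v | d 0 v < N} ∨ K < d 0 v') → I v + φ v = I v' + φ v' := by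
    intro v v' hn hv hv'
    have a1 : ∀ w, (w ∈ W \ {v | d 0 v < N} ∨ K < d 0 w) →
        N ≤ d 0 w ∧ w ≠ ((N : ℤ), b) ∧ w ≠ (a, e) ∧ (w ∉ Wᶜ \ {v | d 0 v < N} ∨ K < d 0 w) := by
      rintro w (hw | hw)
      · exact ⟨not_lt.1 hw.2, fun e => h.left.1 (e ▸ hw.1), fun e => h.right.1 (e ▸ hw.1),
          Or.inl fun h => h.1 hw.1⟩
      · refine ⟨by omega, ?_, ?_, Or.inr hw⟩ <;> rintro rfl <;> omega
    obtain ⟨b1, b2, b3, b4⟩ := a1 v hv
    obtain ⟨c1, c2, c3, c4⟩ := a1 v' hv'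
    have a2 := hI v v' hn b4 c4
    have a3 := S1 v v' hn b1 c1 b3 c3
    have a4 := CharTwo.add_self_eq_zero (wt (N, b) v v' + wt (a, e) v v')
    have a5 := CharTwo.add_self_eq_zero (I v' + φ v')
    linear_combination a2 + a3 + a4 - a5
  have S3 : ∀ v : V, K < v.1.natAbs → I v + φ v = 0 := by
    intro v hv
    rw [hI0 v hv]
    simp only [φ, ph]
    rw [if_neg (by omega)]; rfl
  have S4 : ∀ (j : ℕ) (y : ℤ), K < y.natAbs → I (K + 1 - j, y) + φ (K + 1 - j, y) = 0 := by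
    intro j y hy
    induction j with
    | zero => exact S3 _ (by simp only; omega)
    | succ j ih =>
      rw [← ih]
      refine S2 _ _ (by simp only [nn]; omega) (Or.inr ?_) (Or.inr ?_) <;> rw [d0] <;> omega
  have S5 : ∀ v : V, K < d 0 v → I v + φ v = 0 := by
    rintro ⟨x, y⟩ hv
    by_cases h1 : K < x.natAbs
    · exact S3 _ h1
    · have := S4 (K + 1 - x).toNat y (by rw [d0] at hv; omega)
      rwa [show (K + 1 - ((K + 1 - x).toNat : ℤ)) = x by omega] at this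
  have S6 : ∀ p, Inf nn (W \ {v | d 0 v < N}) p → I p + φ p = 0 := by
    intro p hp
    obtain ⟨z, h1, h2⟩ := hp.far 0 (K + 1)
    rw [← S5 z h1]
    exact h2.ind rfl fun u v h3 ih h4 h5 => ih.trans (S2 u v h4 (Or.inl h3.right) (Or.inl h5))
  have Ip : I (a', N) = 0 := by
    have := S6 _ hp
    simp only [φ, ph] at this
    rwa [if_neg (by omega), add_zero] at this
  have Iq : I (N, c) = 0 := by
    have := S6 _ hq
    simp only [φ, ph] at this
    rwa [if_neg (by omega), add_zero] at this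
  have inR : ∀ x y : ℤ, x.natAbs < N → y.natAbs < N → (x, y) ∉ Wᶜ \ {v | d 0 v < N} :=
    fun x y h1 h2 h => h.2 (by simp only [d0, mem_ofPred_eq]; omega)
  have V1 : ∀ j : ℕ, c ≤ N - j → I (a', N - j) = 0 := by
    intro j
    induction j with
    | zero => intro _; simpa using Ip
    | succ j ih =>
      intro hj
      have h1 := hI (a', N - j) (a', N - (j + 1 : ℕ)) (by simp only [nn]; omega) (Or.inl ?_)
        (Or.inl (inR _ _ (by omega) (by omega)))
      · rw [ih (by omega), zero_add] at h1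
        rw [h1]
        simp only [wt]
        rw [if_neg (by omega), if_neg (by omega)]; rfl
      · rcases Nat.eq_zero_or_pos j with rfl | hj0
        · intro h; exact h.1 (by simpa using hp.left.1)
        · exact inR _ _ (by omega) (by omega)
  have V2 : ∀ j : ℕ, a' + j ≤ N - 1 → I (a' + j, c) = 0 := by
    intro j
    induction j with
    | zero =>
      intro _
      have := V1 (N - c).toNat (by omega)
      rw [show (N - ((N - c).toNat : ℤ)) = c by omega] at this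
      simpa using this
    | succ j ih =>
      intro hj
      have h1 := hI (a' + j, c) (a' + (j + 1 : ℕ), c) (by simp only [nn]; omega)
        (Or.inl (inR _ _ (by omega) (by omega))) (Or.inl (inR _ _ (by omega) (by omega)))
      rw [ih (by omega), zero_add] at h1
      rw [h1]
      simp only [wt]
      rw [if_neg (by omega), if_neg (by omega)]; rfl
  have V3 := V2 (N - 1 - a').toNat (by omega)
  rw [show (a' + ((N - 1 - a').toNat : ℤ)) = N - 1 by omega] at V3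
  have h1 := hI (N - 1, c) (N, c) (by simp only [nn]; omega)
    (Or.inl (inR _ _ (by omega) (by omega))) (Or.inl fun h => h.1 hq.left.1)
  have hbc : b ≠ c := by
    rintro rfl; exact h.left.1 hq.left.1
  rw [V3, Iq] at h1
  simp only [wt] at h1
  rw [if_pos ⟨trivial, by omega, by omega⟩, if_neg (by omega)] at h1
  exact absurd h1 (by decide)

end Pool.Agent.EB
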