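import Pool.Agent.P.MP_d1873d_pr.Tri
import Pool.Agent.P.MP_d1873d_pr.Planar

/-! Deterministic lemmas on crossings of rectangles and half planes. -/

namespace Pool.Agent.EB

open Set

lemma exit_inf {r : V → V → Prop} (hr : ∀ u v, r u v → d u v ≤ 1) {N : ℕ} {W : Set V} {a : V}
    (ha : d 0 a < N) (h : Inf r W a) :
    ∃ y, d 0 y = N ∧ Inf r (W \ {v | d 0 v < N}) y ∧ Conn r W a y := by
  by_contra hne
  push Not at hne
  refine h (((finite_box 0 N).union ((ring 0 N).finite_toSet.biUnion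
    (t := fun y => {_b | Conn r W a y} ∩
      {b | Conn r (W \ {v | d 0 v < N}) y b}) fun y hy => ?_)).subset fun b hb => ?_)
  · by_cases h1 : Conn r W a y
    · refine Set.Finite.inter_of_right ?_ _
      by_contra h2
      exact hne y (by simpa using hy) h2 h1
    · simp only [h1, ofPred_false, empty_inter, finite_empty]
  · by_cases h1 : d 0 b < N
    · exact Or.inl h1.le
    · obtain ⟨u, hu, y, h2, h3, h4⟩ := Conn.last_exit (T := {v | d 0 v < N}) hb ha h1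
      right
      simp only [mem_iUnion, Finset.mem_coe, mem_ring]
      have h5 : d 0 u < N := hu
      have h6 : ¬ d 0 y < N := h4.1.2
      have := d_tri 0 u y
      have := hr _ _ h3
      exact ⟨y, by omega, h2.tail h3 h4.1.1, h4⟩

lemma seg_v {T : Set V} {x a b : ℤ} (hab : a ≤ b) (h : ∀ t, a ≤ t → t ≤ b → (x, t) ∈ T) :
    Conn nn T (x, a) (x, b) := by
  induction b, hab using Int.leInduction with
  | base => exact Conn.refl (h a le_rfl le_rfl)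
  | succ b hb ih =>
    exact (ih fun t h1 h2 => h t h1 (by omega)).tail (by simp [nn]) (h _ (by omega) le_rfl)

lemma seg_h {T : Set V} {y a b : ℤ} (hab : a ≤ b) (h : ∀ t, a ≤ t → t ≤ b → (t, y) ∈ T) :
    Conn nn T (a, y) (b, y) := by
  induction b, hab using Int.leInduction with
  | base => exact Conn.refl (h a le_rfl le_rfl)
  | succ b hb ih =>
    exact (ih fun t h1 h2 => h t h1 (by omega)).tail (by simp [nn]) (h _ (by omega) le_rfl)

lemma conn_box_nn {n : ℕ} {a b : V} (ha : d 0 a ≤ n) (hb : d 0 b ≤ n) :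
    Conn nn {v | d 0 v ≤ n} a b := by
  have key : ∀ a : V, d 0 a ≤ n → Conn nn {v | d 0 v ≤ n} (-n, -n) a := by
    rintro ⟨x, y⟩ h
    rw [d0] at h
    exact (seg_h (b := x) (by omega) fun t _ _ => by rw [mem_ofPred_eq, d0]; omega).trans
      (seg_v (by omega) fun t _ _ => by rw [mem_ofPred_eq, d0]; omega)
  exact ((key a ha).symm fun _ _ => nn_symm).trans (key b hb)

lemma conn_eventually {r : V → V → Prop} {M : Set V} {z v : V} (c : V) (hv : Conn r M z v) :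
    ∀ᶠ K in Filter.atTop, Conn r (M ∩ {v | d c v ≤ K}) z v := by
  refine hv.ind ((Filter.eventually_ge_atTop (d c z)).mono fun K h => Conn.refl ⟨hv.1, h⟩)
    fun a b _ ih h2 h3 => ?_
  filter_upwards [ih, Filter.eventually_ge_atTop (d c b)] with N' h4 h5
  exact h4.tail h2 ⟨h3, h5⟩

/-- the closed rectangle -/
def Rc (x0 x1 y0 y1 : ℤ) : Set V := {v | (x0 ≤ v.1 ∧ v.1 ≤ x1) ∧ y0 ≤ v.2 ∧ v.2 ≤ y1}

lemma mem_Rc {x0 x1 y0 y1 : ℤ} {v : V} :
    v ∈ Rc x0 x1 y0 y1 ↔ (x0 ≤ v.1 ∧ v.1 ≤ x1) ∧ y0 ≤ v.2 ∧ v.2 ≤ y1 := Iff.rfl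

/-- a path inside `R` from the box of radius `n` to the level `c` of `f` -/
def Reach (r : V → V → Prop) (W : Set V) (n : ℕ) (R : Set V) (f : V → ℤ) (c : ℤ) : Prop :=
  ∃ u v, d 0 u ≤ n ∧ f v = c ∧ Conn r (W ∩ R) u v

lemma exit_four {r : V → V → Prop} (hr : ∀ u v, r u v → d u v ≤ 1) {W : Set V} {a : V}
    {x0 x1 y0 y1 : ℤ} {n : ℕ} (h : Inf r W a) (ha : d 0 a ≤ n) (hR : a ∈ Rc x0 x1 y0 y1) :
    (Reach r W n (Rc x0 x1 y0 y1) Prod.snd y1 ∨ Reach r W n (Rc x0 x1 y0 y1) Prod.snd y0) ∨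
      Reach r W n (Rc x0 (x1 + 1) y0 y1) Prod.fst x0 ∨
      Reach r W n (Rc x0 (x1 + 1) y0 y1) Prod.fst (x1 + 1) := by
  by_contra hne
  simp only [Reach, not_or, not_exists, not_and] at hne
  obtain ⟨⟨h1, h2⟩, h3, h4⟩ := hne
  obtain ⟨b, hb, hc⟩ := h.far 0 (x0.natAbs + x1.natAbs + y0.natAbs + y1.natAbs + 1)
  have sub : W ∩ Rc x0 x1 y0 y1 ⊆ W ∩ Rc x0 (x1 + 1) y0 y1 :=
    inter_subset_inter_right _ fun w hw => by rw [mem_Rc] at hw ⊢; omega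
  have key : Conn r (W ∩ Rc x0 x1 y0 y1) a b := by
    refine hc.ind (Conn.refl ⟨hc.1, hR⟩) fun u v _ ih h5 h6 => ?_
    have h7 := ih.right.2
    have h8 := hr _ _ h5
    have h9 := h1 a u ha
    have h10 := h2 a u ha
    have h11 := h3 a u ha
    simp only [ih, ih.mono sub, not_true, imp_false] at h9 h10 h11
    simp only [mem_Rc, d] at h7 h8
    have h12 : Conn r (W ∩ Rc x0 (x1 + 1) y0 y1) a v :=
      (ih.mono sub).tail h5 ⟨h6, by rw [mem_Rc]; omega⟩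
    have h13 := h4 a v ha
    simp only [h12, not_true, imp_false] at h13
    exact ih.tail h5 ⟨h6, by rw [mem_Rc]; omega⟩
  have := key.right.2
  simp only [mem_Rc, d, Prod.fst_zero, Prod.snd_zero] at this hb
  omega

lemma Reach.down {r : V → V → Prop} (hr : ∀ u v, r u v → d u v ≤ 1) {W : Set V}
    {x0 x1 y0 y1 : ℤ} {n : ℕ} (h : Reach r W n (Rc x0 x1 y0 y1) Prod.snd y0) (hn : y0 + 1 ≤ -n) :
    Reach r W n (Rc x0 x1 (y0 + 1) (y1 + 1)) Prod.snd (y0 + 1) := by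
  obtain ⟨u, v, hu, hv, hc⟩ := h
  by_contra hne
  have key : Conn r (W ∩ Rc x0 x1 (y0 + 1) (y1 + 1)) u v := by
    refine hc.ind (Conn.refl ⟨hc.1.1, ?_⟩) fun a b _ ih h1 h2 => ih.tail h1 ⟨h2.1, ?_⟩
    · have := hc.1.2
      simp only [mem_Rc, d, Prod.fst_zero, Prod.snd_zero] at this hu ⊢
      omega
    · have h3 : a.2 ≠ y0 + 1 := fun e => hne ⟨u, a, hu, e, ih⟩
      have h4 := ih.right.2
      have h5 := h2.2
      have h6 := hr _ _ h1
      simp only [mem_Rc, d] at h4 h5 h6 ⊢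
      omega
  have := key.right.2
  rw [mem_Rc] at this
  omega

theorem sep_h {W : Set V} {x0 x1 y0 y1 : ℤ} {p q y y' : V} (h : Conn nn (W ∩ Rc x0 x1 y0 y1) p q)
    (hp : p.1 = x0) (hq : q.1 = x1) (hy : y.2 = y1) (hy' : y'.2 = y0) :
    ¬ Conn st (Wᶜ ∩ Rc x0 x1 y0 y1) y y' := by
  intro hc
  obtain ⟨K, I, k1, -, hI, hI0⟩ := index hc
  let φ : V → ZMod 2 := fun v => if y.1 ≤ v.1 then 1 else 0
  have y1' := hc.left.2
  have S : ∀ v v', nn v v' → v ∉ Wᶜ ∩ Rc x0 x1 y0 y1 → v' ∉ Wᶜ ∩ Rc x0 x1 y0 y1 →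
      (y0 ≤ v.2 ∧ v.2 ≤ y1) → I v + φ v = I v' + φ v' := by
    intro v v' hn hv hv' hb
    have a2 := hI v v' hn (Or.inl hv) (Or.inl hv')
    have n1 : v ≠ y := fun e => hv (e ▸ hc.left)
    have n2 : v' ≠ y := fun e => hv' (e ▸ hc.left)
    have a3 : φ v + φ v' = wt y v v' + wt y' v v' := by
      obtain ⟨a, b⟩ := v; obtain ⟨a', b'⟩ := v'; obtain ⟨s, t⟩ := y
      simp only [ne_eq, Prod.mk.injEq] at n1 n2 hy hb
      simp only [φ, wt]
      have := nn_cases hn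
      split_ifs <;> first | decide | (exfalso; omega)
    have a4 := CharTwo.add_self_eq_zero (wt y v v' + wt y' v v')
    have a5 := CharTwo.add_self_eq_zero (I v' + φ v')
    linear_combination a2 + a3 + a4 - a5
  have S1 : I p + φ p = I q + φ q :=
    h.ind (P := fun v => I p + φ p = I v + φ v) rfl fun u v h1 ih h2 h3 =>
      ih.trans (S u v h2 (fun h4 => h4.1 h1.right.1) (fun h4 => h4.1 h3.1) h1.right.2.2)
  have S2 : ∀ (s : ℤ) (z : V), z ∈ W ∩ Rc x0 x1 y0 y1 → (s = 1 ∧ z.1 = x1 ∨ s = -1 ∧ z.1 = x0) →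
      ∀ j : ℕ, I z + φ z = I (z.1 + s * j, z.2) + φ (z.1 + s * j, z.2) := by
    intro s z hz h2 j
    have out : ∀ j : ℕ, ((z.1 + s * j, z.2) : V) ∉ Wᶜ ∩ Rc x0 x1 y0 y1 := by
      rintro j ⟨h3, h4, -⟩
      have : j = 0 := by rcases h2 with ⟨rfl, h2⟩ | ⟨rfl, h2⟩ <;> simp only at h4 <;> omega
      subst this
      exact h3 (by simpa using hz.1)
    induction j with
    | zero => simp
    | succ j ih =>
      refine ih.trans (S _ _ ?_ (out j) (out (j + 1)) hz.2.2)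
      rcases h2 with ⟨rfl, -⟩ | ⟨rfl, -⟩ <;> simp only [nn] <;> omega
  have e1 := S2 (-1) p h.left (Or.inr ⟨rfl, hp⟩) (K + x0.natAbs + 1)
  have e2 := S2 1 q h.right (Or.inl ⟨rfl, hq⟩) (K + x1.natAbs + 1)
  rw [mem_Rc] at y1'
  rw [hI0 (p.1 + -1 * (K + x0.natAbs + 1 : ℕ), p.2) (by simp only; omega)] at e1
  rw [hI0 (q.1 + 1 * (K + x1.natAbs + 1 : ℕ), q.2) (by simp only; omega)] at e2
  have e3 : φ (p.1 + -1 * (K + x0.natAbs + 1 : ℕ), p.2) = 0 := if_neg (by simp only; omega)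
  have e4 : φ (q.1 + 1 * (K + x1.natAbs + 1 : ℕ), q.2) = 1 := if_pos (by simp only; omega)
  rw [e1, e2, e3, e4] at S1
  exact absurd S1 (by decide)

theorem sep_v {W : Set V} {x0 x1 y0 y1 : ℤ} {p q y y' : V} (h : Conn nn (W ∩ Rc x0 x1 y0 y1) p q)
    (hp : p.2 = y0) (hq : q.2 = y1) (hy : y.1 = x1) (hy' : y'.1 = x0) :
    ¬ Conn st (Wᶜ ∩ Rc x0 x1 y0 y1) y y' := fun hc =>
  sep_h (W := Prod.swap ⁻¹' W) (x0 := y0) (x1 := y1) (y0 := x0) (y1 := x1)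
    (h.map Prod.swap (fun u v h1 => by simp only [nn, Prod.fst_swap, Prod.snd_swap] at h1 ⊢; omega)
      fun v hv => ⟨hv.1, hv.2.symm⟩) hp hq hy hy'
    (hc.map Prod.swap (fun u v h1 => by
      simp only [st, d, Prod.fst_swap, Prod.snd_swap] at h1 ⊢; omega) fun v hv => ⟨hv.1, hv.2.symm⟩)

lemma block {r r' : V → V → Prop} (h1 : ∀ u v, nn u v → r u v) (h2 : ∀ u v, nn u v → r' u v)
    (h3 : ∀ u v, r' u v → d u v ≤ 1)
    (hs : ∀ (S : Set V) (x0 x1 y0 y1 : ℤ) (p q y y' : V), Conn r' (Sᶜ ∩ Rc x0 x1 y0 y1) p q →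
      p.1 = x0 → q.1 = x1 → y.2 = y1 → y'.2 = y0 → ¬ Conn r (S ∩ Rc x0 x1 y0 y1) y y')
    {S : Set V} {j y z z' : ℤ} (h : Conn r (S ∩ {v | j ≤ v.1}) (j, z) (j, z')) (hz : y ≤ z)
    (hz' : z' ≤ y) : ¬ Inf r' (Sᶜ ∩ {v | j ≤ v.1}) (j, y) := by
  intro hi
  obtain ⟨K, hK⟩ := (conn_eventually (j, y) h).exists
  obtain ⟨b, hb, hc⟩ := hi.far (j, y) (K + 1)
  obtain ⟨u, hu, hc'⟩ := hc.hit h3 (j, y) (K + 1) (by simp) hb
  have n1 : z ≠ y := by rintro rfl; exact hc.1.1 h.1.1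
  have n2 : z' ≠ y := by rintro rfl; exact hc.1.1 h.right.1
  have k1 := hK.left.2
  have k2 := hK.right.2
  have k3 := hc'.right.1.2
  simp only [mem_ofPred_eq, d] at k1 k2 k3 hu
  refine hs (S ∩ {v | j ≤ v.1} ∩ {v | d (j, y) v ≤ K} ∪ {v | v.1 < j ∧ v.2 ≠ y}) (j - 1) (j + K + 1)
    (y - K - 1) (y + K + 1) (j - 1, y) (j + K + 1, u.2) (j - 1, y + K + 1) (j - 1, y - K - 1) ?_
    rfl rfl rfl rfl ?_
  · refine Conn.head ⟨?_, by simp only [mem_Rc]; omega⟩ (h2 _ (j, y) (by simp [nn]))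
      (Conn.trans (hc'.mono fun v hv => ⟨?_, ?_⟩) (Conn.mono_rel (seg_h (a := u.1) (by omega)
        fun t t1 t2 => ⟨?_, by simp only [mem_Rc]; omega⟩) h2))
    · simp
    · rintro (h4 | h4)
      · exact hv.1.1 h4.1.1
      · exact absurd hv.1.2 (not_le.2 h4.1)
    · have h4 := hv.1.2
      have h5 := hv.2
      simp only [mem_ofPred_eq, d, mem_Rc] at h4 h5 ⊢
      omega
    · rintro (h4 | h4)
      · have h5 := h4.2
        simp only [mem_ofPred_eq, d] at h5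
        omega
      · have h5 := h4.1
        simp only at h5
        omega
  · have a1 : ∀ a b : ℤ, a ≤ b → (y < a ∨ b < y) → y - K - 1 ≤ a → b ≤ y + K + 1 →
        Conn r ((S ∩ {v | j ≤ v.1} ∩ {v | d (j, y) v ≤ K} ∪ {v | v.1 < j ∧ v.2 ≠ y}) ∩
          Rc (j - 1) (j + K + 1) (y - K - 1) (y + K + 1)) (j - 1, b) (j - 1, a) :=
      fun a b h4 h5 h6 h7 => Conn.mono_rel (Conn.symm (fun _ _ => nn_symm)
        (seg_v h4 fun t t1 t2 => ⟨Or.inr (by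
        simp only [mem_ofPred_eq]; omega), by simp only [mem_Rc]; omega⟩)) h1
    have a2 := hK.mono (S' := (S ∩ {v | j ≤ v.1} ∩ {v | d (j, y) v ≤ K} ∪
        {v | v.1 < j ∧ v.2 ≠ y}) ∩ Rc (j - 1) (j + K + 1) (y - K - 1) (y + K + 1)) fun v hv =>
      ⟨Or.inl hv, by
        have h4 := hv.1.2
        have h5 := hv.2
        simp only [mem_ofPred_eq, d, mem_Rc] at h4 h5 ⊢
        omega⟩
    have a3 := a1 (y - K - 1) z' (by omega) (by omega) le_rfl (by omega)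
    exact (((a1 z _ (by omega) (by omega) (by omega) le_rfl).tail (h1 _ (j, z) (by simp [nn]))
      a2.1).trans a2).trans (Conn.head a2.right (h1 _ _ (by simp [nn])) a3)

lemma block_p {S : Set V} {j y z z' : ℤ} (h : Conn nn (S ∩ {v | j ≤ v.1}) (j, z) (j, z'))
    (hz : y ≤ z) (hz' : z' ≤ y) : ¬ Inf st (Sᶜ ∩ {v | j ≤ v.1}) (j, y) :=
  block (fun _ _ => id) (fun _ _ => nn_st) (fun _ _ => id) (fun _ _ _ _ _ _ _ _ _ h1 h2 h3 h4 h5 h6 =>
    sep_v (h6.symm fun _ _ => nn_symm) h5 h4 h3 h2 (h1.symm fun _ _ => st_symm)) h hz hz'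

lemma block_m {S : Set V} {j y z z' : ℤ} (h : Conn st (Sᶜ ∩ {v | j ≤ v.1}) (j, z) (j, z'))
    (hz : y ≤ z) (hz' : z' ≤ y) : ¬ Inf nn (S ∩ {v | j ≤ v.1}) (j, y) := by
  have := block (fun _ _ => nn_st) (fun _ _ => id) (fun _ _ => nn_st)
    (fun S _ _ _ _ _ _ _ _ h1 h2 h3 h4 h5 h6 =>
      sep_h h1 h2 h3 h4 h5 (by rwa [compl_compl])) h hz hz'
  rwa [compl_compl] at this

/-- two long minus arms outside the box of radius `N`, separated once the small box is plus -/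
def Phi (n N K : ℕ) (W : Set V) : Prop :=
  ∃ y y', (d 0 y = N ∧ d 0 y' = N) ∧ (Arm st (Wᶜ \ {v | d 0 v < N}) y K ∧
    Arm st (Wᶜ \ {v | d 0 v < N}) y' K) ∧
    ¬ Conn st ((W ∪ {v | d 0 v ≤ n})ᶜ ∩ {v | d 0 v ≤ K}) y y'

lemma join {n N K : ℕ} {W D : Set V} (hn : n < N) (h : ¬ Phi n N K W) (hD : {v | d 0 v ≤ K} ⊆ D)
    {u u' a b : V} (hu : d 0 u ≤ n) (hu' : d 0 u' ≤ n) (ha : N + K ≤ d 0 a) (hb : N + K ≤ d 0 b)
    (h1 : Conn st (Wᶜ ∩ D) u a) (h2 : Conn st (Wᶜ ∩ D) u' b) :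
    Conn st ((W ∪ {v | d 0 v ≤ n})ᶜ ∩ D) a b := by
  have key : ∀ u v, d 0 u ≤ n → N + K ≤ d 0 v → Conn st (Wᶜ ∩ D) u v → ∃ y, d 0 y = N ∧
      Arm st (Wᶜ \ {v | d 0 v < N}) y K ∧ Conn st ((W ∪ {v | d 0 v ≤ n})ᶜ ∩ D) y v := by
    intro u v h1 h2 h3
    obtain ⟨w, hw, y, -, h5, h6⟩ := Conn.last_exit (T := {v | d 0 v < N}) h3
      (show d 0 u < N by omega) (show ¬ d 0 v < N by omega)
    have h7 : d 0 w < N := hw
    have h8 : ¬ d 0 y < N := h6.1.2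
    have h9 := d_tri 0 w y
    have h10 : d w y ≤ 1 := h5
    have h11 := d_tri 0 y v
    refine ⟨y, by omega, ⟨v, by omega, h6.mono fun x hx => ⟨hx.1.1, hx.2⟩⟩,
      h6.mono fun x hx => ⟨?_, hx.1.2⟩⟩
    rintro (h | h)
    · exact hx.1.1 h
    · exact hx.2 (lt_of_le_of_lt h hn)
  obtain ⟨y, a1, a2, a3⟩ := key u a hu ha h1
  obtain ⟨y', b1, b2, b3⟩ := key u' b hu' hb h2
  have : Conn st ((W ∪ {v | d 0 v ≤ n})ᶜ ∩ {v | d 0 v ≤ K}) y y' :=
    by_contra fun h3 => h ⟨y, y', ⟨a1, b1⟩, ⟨a2, b2⟩, h3⟩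
  exact ((a3.symm fun _ _ => st_symm).trans (this.mono (inter_subset_inter_right _ hD))).trans b3

lemma reroute {n N K : ℕ} {W D : Set V} (hn : n < N) (h : ¬ Phi n N K W) (hD : {v | d 0 v ≤ K} ⊆ D)
    {a b : V} (ha : N + K ≤ d 0 a) (hb : N + K ≤ d 0 b) (h1 : Conn st (Wᶜ ∩ D) a b) :
    Conn st ((W ∪ {v | d 0 v ≤ n})ᶜ ∩ D) a b := by
  by_cases h2 : ∃ u, d 0 u ≤ n ∧ Conn st (Wᶜ ∩ D) a u
  · obtain ⟨u, h3, h4⟩ := h2
    have h5 := h4.symm fun _ _ => st_symm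
    exact join hn h hD h3 h3 ha hb h5 (h5.trans h1)
  · refine h1.mono_reach fun v hv => ⟨?_, hv.right.2⟩
    rintro (h3 | h3)
    · exact hv.right.1 h3
    · exact h2 ⟨v, h3, hv⟩

lemma join_p {n : ℕ} {W D : Set V} (hD : {v | d 0 v ≤ n} ⊆ D) {u u' a b : V} (hu : d 0 u ≤ n)
    (hu' : d 0 u' ≤ n) (h1 : Conn nn (W ∩ D) u a) (h2 : Conn nn (W ∩ D) u' b) :
    Conn nn ((W ∪ {v | d 0 v ≤ n}) ∩ D) a b := by
  have i1 : W ∩ D ⊆ (W ∪ {v | d 0 v ≤ n}) ∩ D := inter_subset_inter_left _ subset_union_left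
  exact (((h1.mono i1).symm fun _ _ => nn_symm).trans ((conn_box_nn hu hu').mono
    fun x hx => ⟨Or.inr hx, hD hx⟩)).trans (h2.mono i1)

/-- the limit of `Phi` -/
def PhiI (n N : ℕ) (W : Set V) : Prop :=
  ∃ y y', Inf st (Wᶜ \ {v | d 0 v < N}) y ∧ Inf st (Wᶜ \ {v | d 0 v < N}) y' ∧
    ¬ Conn st (W ∪ {v | d 0 v ≤ n})ᶜ y y'

lemma Phi.anti {n N K L : ℕ} {W : Set V} (h : Phi n N L W) (hK : K ≤ L) : Phi n N K W := by
  obtain ⟨y, y', h1, h2, h3⟩ := h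
  exact ⟨y, y', h1, ⟨h2.1.anti hK, h2.2.anti hK⟩, fun hc =>
    h3 (hc.mono (inter_subset_inter_right _ fun v hv => le_trans hv hK))⟩

lemma phiI_of {n N : ℕ} {W : Set V} (h : ∀ K, Phi n N K W) : PhiI n N W := by
  by_contra hne
  have h1 : ∀ᶠ K in Filter.atTop, ∀ y ∈ ring 0 N, ∀ y' ∈ ring 0 N,
      ¬ ((Arm st (Wᶜ \ {v | d 0 v < N}) y K ∧ Arm st (Wᶜ \ {v | d 0 v < N}) y' K) ∧
        ¬ Conn st ((W ∪ {v | d 0 v ≤ n})ᶜ ∩ {v | d 0 v ≤ K}) y y') := by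
    simp only [Filter.eventually_all_finset]
    intro y _ y' _
    have h2 : ∀ z, ¬ Inf st (Wᶜ \ {v | d 0 v < N}) z →
        ∀ᶠ K in Filter.atTop, ¬ Arm st (Wᶜ \ {v | d 0 v < N}) z K := fun z hz => by
      obtain ⟨k, hk⟩ := not_forall.1 (mt inf_iff.2 hz)
      exact (Filter.eventually_ge_atTop k).mono fun K hK h => hk (h.anti hK)
    by_cases a1 : Inf st (Wᶜ \ {v | d 0 v < N}) y
    · by_cases a2 : Inf st (Wᶜ \ {v | d 0 v < N}) y'
      · have : Conn st (W ∪ {v | d 0 v ≤ n})ᶜ y y' := by_contra fun h3 => hne ⟨y, y', a1, a2, h3⟩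
        exact (conn_eventually 0 this).mono fun K hK h => h.2 hK
      · exact (h2 y' a2).mono fun K hK h => hK h.1.2
    · exact (h2 y a1).mono fun K hK h => hK h.1.1
  obtain ⟨K, hK⟩ := h1.exists
  obtain ⟨y, y', h2, h3⟩ := h K
  exact hK y (by simpa using h2.1) y' (by simpa using h2.2) h3

lemma grid {T B L R : V → Prop} {x0 x1 y0 y1 : ℤ} (hx : x0 ≤ x1) (hy : y0 ≤ y1)
    (hc : ∀ p ∈ Rc x0 x1 y0 y1, (T p ∨ B p) ∨ L p ∨ R p)
    (hT : ∀ p ∈ Rc x0 x1 y0 y1, p.2 = y0 → ¬ T p) (hB : ∀ p ∈ Rc x0 x1 y0 y1, p.2 = y1 → ¬ B p)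
    (hL : ∀ p ∈ Rc x0 x1 y0 y1, p.1 = x1 → ¬ L p) (hR : ∀ p ∈ Rc x0 x1 y0 y1, p.1 = x0 → ¬ R p)
    (hm : ∀ x y, y0 ≤ y → B (x, y + 1) → B (x, y)) :
    ∃ p ∈ Rc x0 x1 y0 y1, ∃ q, d p q ≤ 1 ∧ (T p ∧ B q ∨ L p ∧ R q) := by
  by_contra hne
  simp only [not_exists, not_and, not_or] at hne
  have ex : ∀ x, ∃ g : ℤ, x0 ≤ x → x ≤ x1 → (y0 ≤ g ∧ ¬ B (x, g)) ∧
      ∀ z, (y0 ≤ z ∧ ¬ B (x, z)) → g ≤ z := by
    intro x
    by_cases h : x0 ≤ x ∧ x ≤ x1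
    · obtain ⟨g, hg⟩ := Int.exists_least_of_bdd (P := fun z => y0 ≤ z ∧ ¬ B (x, z))
        ⟨y0, fun _ h => h.1⟩ ⟨y1, hy, hB (x, y1) ⟨h, hy, le_rfl⟩ rfl⟩
      exact ⟨g, fun _ _ => hg⟩
    · exact ⟨0, fun h1 h2 => absurd ⟨h1, h2⟩ h⟩
  choose g hg using ex
  have g1 : ∀ x, x0 ≤ x → x ≤ x1 → g x ≤ y1 := fun x h1 h2 =>
    (hg x h1 h2).2 y1 ⟨hy, hB (x, y1) ⟨⟨h1, h2⟩, hy, le_rfl⟩ rfl⟩
  have key : ∀ x x' y, x0 ≤ x → x ≤ x1 → x0 ≤ x' → x' ≤ x1 → (x - x').natAbs ≤ 1 → g x ≤ y →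
      y ≤ g x' → L (x, y) ∨ R (x, y) := by
    intro x x' y h1 h2 h3 h4 h5 h6 h7
    have a1 := (hg x h1 h2).1
    have a2 := g1 x' h3 h4
    have a3 : (x, y) ∈ Rc x0 x1 y0 y1 := ⟨⟨h1, h2⟩, by simp only; omega⟩
    refine (hc _ a3).resolve_left ?_
    rintro (h | h)
    · rcases eq_or_lt_of_le (a1.1.trans h6) with e | e
      · exact hT _ a3 e.symm h
      · refine (hne _ a3 (x', y - 1) (by simp only [d]; omega)).1 h (by_contra fun h8 => ?_)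
        have := (hg x' h3 h4).2 (y - 1) ⟨by omega, h8⟩
        omega
    · refine a1.2 ?_
      clear h7 a3
      induction y, h6 using Int.leInduction with
      | base => exact h
      | succ y h6 ih => exact ih (hm x y (by omega) h)
  have mem : ∀ x x' y, x0 ≤ x → x ≤ x1 → x0 ≤ x' → x' ≤ x1 → g x ≤ y → y ≤ g x' →
      (x, y) ∈ Rc x0 x1 y0 y1 := fun x x' y h1 h2 h3 h4 h5 h6 =>
    ⟨⟨h1, h2⟩, (hg x h1 h2).1.1.trans h5, h6.trans (g1 x' h3 h4)⟩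
  have main : ∀ x, x0 ≤ x → x ≤ x1 → L (x, g x) := by
    intro x h1
    induction x, h1 using Int.leInduction with
    | base =>
      exact fun h => (key _ _ _ le_rfl h le_rfl h (by simp) le_rfl le_rfl).resolve_right
        (hR _ (mem _ _ _ le_rfl h le_rfl h le_rfl le_rfl) rfl)
    | succ x h1 ih =>
      intro h2
      have a0 := ih (by omega)
      refine (key (x + 1) (x + 1) _ (by omega) h2 (by omega) h2 (by simp) le_rfl le_rfl).resolve_right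
        fun b0 => ?_
      rcases le_total (g x) (g (x + 1)) with h3 | h3
      · have : ∀ y, g x ≤ y → y ≤ g (x + 1) → L (x, y) := by
          intro y h4
          induction y, h4 using Int.leInduction with
          | base => exact fun _ => a0
          | succ y h4 ih' =>
            exact fun h5 => (key x (x + 1) _ h1 (by omega) (by omega) h2 (by simp) (by omega)
              h5).resolve_right ((hne _ (mem x (x + 1) y h1 (by omega) (by omega) h2 h4 (by omega))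
                (x, y + 1) (by simp [d])).2 (ih' (by omega)))
        exact (hne _ (mem x (x + 1) _ h1 (by omega) (by omega) h2 h3 le_rfl) (x + 1, g (x + 1))
          (by simp [d])).2 (this _ h3 le_rfl) b0
      · have : ∀ y, g (x + 1) ≤ y → y ≤ g x → R (x + 1, y) := by
          intro y h4
          induction y, h4 using Int.leInduction with
          | base => exact fun _ => b0
          | succ y h4 ih' =>
            exact fun h5 => (key (x + 1) x _ (by omega) h2 h1 (by omega) (by simp) (by omega)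
              h5).resolve_left fun h6 => (hne _ (mem (x + 1) x (y + 1) (by omega) h2 h1 (by omega)
                (by omega) h5) (x + 1, y) (by simp [d])).2 h6 (ih' (by omega))
        exact (hne _ (mem x x _ h1 (by omega) h1 (by omega) le_rfl le_rfl) (x + 1, g x)
          (by simp [d])).2 a0 (this _ h3 le_rfl)
  exact hL _ (mem _ _ _ hx le_rfl hx le_rfl le_rfl le_rfl) rfl (main x1 hx le_rfl)

end Pool.Agent.EB
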