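import Pool.Agent.P.MP_d1873d_pr.Field

/-! The Burton-Keane counting argument for trifurcation boxes. -/

namespace Pool.Agent.EB

open MeasureTheory Set Measure
open scoped ENNReal

lemma compat {α β : Type*} [DecidableEq α] [DecidableEq β] (c : α → β → Fin 3)
    (Yz : α → Set β) (n : ℕ) : ∀ (Y : Finset β) (T : Finset α), Y.card = n →
    (∀ z ∈ T, ∀ i, ∃ y ∈ Y, y ∈ Yz z ∧ c z y = i) →
    (∀ z ∈ T, ∀ z' ∈ T, z ≠ z' → ∀ y0, y0 ∈ Yz z → y0 ∈ Yz z' → Yz z = Yz z' ∧
      ∃ i j, ∀ y ∈ Yz z, c z y = i ∨ c z' y = j) → T.card ≤ n := by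
  induction n with
  | zero =>
    intro Y T hY h1 _
    rw [Finset.card_eq_zero] at hY
    subst hY
    rw [Nat.le_zero, Finset.card_eq_zero, Finset.eq_empty_iff_forall_notMem]
    intro z hz
    obtain ⟨y, hy, -⟩ := h1 z hz 0
    simp at hy
  | succ n ih =>
    intro Y T hY h1 h2
    classical
    obtain ⟨y0, hy0⟩ : Y.Nonempty := Finset.card_pos.1 (by omega)
    let p : α → Prop := fun z => y0 ∈ Yz z ∧ ∀ y ∈ Y, y ∈ Yz z → c z y = c z y0 → y = y0
    have a1 : (T.filter fun z => ¬ p z).card ≤ n := by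
      refine ih (Y.erase y0) _ (by rw [Finset.card_erase_of_mem hy0]; omega) ?_ ?_
      · intro z hz i
        obtain ⟨hz1, hz2⟩ := Finset.mem_filter.1 hz
        obtain ⟨y, hy, h3, h4⟩ := h1 z hz1 i
        by_cases h5 : y = y0
        · subst h5
          simp only [p, h3, true_and, not_forall] at hz2
          obtain ⟨y', h6, h7, h8, h9⟩ := hz2
          exact ⟨y', Finset.mem_erase.2 ⟨h9, h6⟩, h7, h8.trans h4⟩
        · exact ⟨y, Finset.mem_erase.2 ⟨h5, hy⟩, h3, h4⟩
      · exact fun z hz z' hz' => h2 z (Finset.mem_filter.1 hz).1 z' (Finset.mem_filter.1 hz').1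
    have a2 : (T.filter p).card ≤ 1 := by
      refine Finset.card_le_one.2 fun z hz z' hz' => ?_
      by_contra hne
      obtain ⟨hz1, hz2, hz3⟩ := Finset.mem_filter.1 hz
      obtain ⟨hz1', hz2', hz3'⟩ := Finset.mem_filter.1 hz'
      obtain ⟨he, i, j, h⟩ := h2 z hz1 z' hz1' hne y0 hz2 hz2'
      have key : ∀ a b : Fin 3, ∃ k : Fin 3, k ≠ a ∧ k ≠ b := by decide
      rcases h y0 hz2 with h3 | h3
      · obtain ⟨k, h4, h5⟩ := key (c z' y0) j
        obtain ⟨y, h6, h7, rfl⟩ := h1 z' hz1' k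
        rw [← he] at h7
        exact h4 (by rw [hz3 y h6 h7 (((h y h7).resolve_right h5).trans h3.symm)])
      · obtain ⟨k, h4, h5⟩ := key (c z y0) i
        obtain ⟨y, h6, h7, rfl⟩ := h1 z hz1 k
        exact h4 (by rw [hz3' y h6 (he ▸ h7) (((h y h7).resolve_left h5).trans h3.symm)])
    have := Finset.card_filter_add_card_filter_not (s := T) p
    omega

lemma inf_equiv {r : V → V → Prop} (φ : V ≃ V) (hφ : ∀ u v, r (φ u) (φ v) ↔ r u v) (W : Set V)
    (a : V) : Inf r (φ ⁻¹' W) a ↔ Inf r W (φ a) := by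
  have : {b | Conn r (φ ⁻¹' W) a b} = φ ⁻¹' {b | Conn r W (φ a) b} := by
    ext b; exact conn_equiv φ hφ W a b
  unfold Inf
  rw [this]
  exact not_congr ⟨fun h => h.of_preimage φ.surjective, fun h => h.preimage φ.injective.injOn⟩

/-- the box of radius `N` around `z` splits the cluster of `z` into three infinite parts -/
def Tri0 (N : ℕ) (M : Set V) (z : V) : Prop :=
  ∃ y : Fin 3 → V, (∀ i, d z (y i) = N ∧ Conn st M z (y i) ∧ Inf st (M \ {v | d z v < N}) (y i)) ∧
    ∀ i j, i < j → ¬ Conn st (M \ {v | d z v < N}) (y i) (y j)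

def Tri (N N' : ℕ) (M : Set V) (z : V) : Prop :=
  Tri0 N M z ∧ ∀ v, d z v < N → Conn st M z v → Conn st (M ∩ {v | d z v ≤ N'}) z v

lemma tri_exists {N : ℕ} {M : Set V} {z : V} (h : Tri0 N M z) : ∃ N', N ≤ N' ∧ Tri N N' M z := by
  have h1 : ∀ v, Conn st M z v → ∀ᶠ N' in Filter.atTop, Conn st (M ∩ {v | d z v ≤ N'}) z v := by
    intro v hv
    refine hv.ind (Filter.Eventually.of_forall fun N' => Conn.refl ⟨hv.1, by simp⟩)
      fun a b _ ih h2 h3 => ?_
    filter_upwards [ih, Filter.eventually_ge_atTop (d z b)] with N' h4 h5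
    exact h4.tail h2 ⟨h3, h5⟩
  have h2 : ∀ᶠ N' in Filter.atTop, ∀ v ∈ box z N, Conn st M z v →
      Conn st (M ∩ {v | d z v ≤ N'}) z v := by
    rw [Filter.eventually_all_finset]
    intro v _
    by_cases hv : Conn st M z v
    · exact (h1 v hv).mono fun _ h _ => h
    · simp [hv]
  obtain ⟨N', h3, h4⟩ := (h2.and (Filter.eventually_ge_atTop N)).exists
  exact ⟨N', h4, h, fun v hv => h3 v (by simpa using hv.le)⟩

lemma tri_count {N N' R : ℕ} {M : Set V} (T : Finset V) (h1 : ∀ z ∈ T, Tri N N' M z)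
    (h2 : ∀ z ∈ T, d 0 z + N ≤ R) (h3 : ∀ z ∈ T, ∀ z' ∈ T, z ≠ z' → N + N' ≤ d z z') :
    T.card ≤ 4 * (2 * R + 1) := by
  classical
  choose! y hy hy' using fun z hz => (h1 z hz).1
  let c : V → V → Fin 3 := fun z v => if Conn st (M \ {v | d z v < N}) (y z 0) v then 0 else
    if Conn st (M \ {v | d z v < N}) (y z 1) v then 1 else 2
  have hc : ∀ z a b, Conn st (M \ {v | d z v < N}) a b → c z a = c z b := by
    intro z a b h
    have : ∀ u, Conn st (M \ {v | d z v < N}) u a ↔ Conn st (M \ {v | d z v < N}) u b :=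
      fun u => ⟨fun h' => h'.trans h, fun h' => h'.trans (h.symm fun _ _ => st_symm)⟩
    simp only [c, this]
  refine (compat c (fun z => {v | Conn st M z v}) _ (ring 0 R) T rfl ?_ ?_).trans (card_ring 0 R)
  · intro z hz i
    obtain ⟨a1, a2, a3⟩ := hy z hz i
    obtain ⟨b, b1, b2⟩ := a3.far 0 R
    have := d_tri 0 z (y z i)
    have := h2 z hz
    obtain ⟨u, u1, u2⟩ := b2.hit (fun _ _ => id) 0 R (by omega) b1
    have u3 := u2.mono inter_subset_left
    refine ⟨u, by simpa using u1, a2.trans (u3.mono sdiff_subset), ?_⟩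
    rw [← hc z _ _ u3]
    fin_cases i
    · exact if_pos (Conn.refl a3.left)
    · exact (if_neg (hy' z hz 0 1 (by decide))).trans (if_pos (Conn.refl a3.left))
    · exact (if_neg (hy' z hz 0 2 (by decide))).trans (if_neg (hy' z hz 1 2 (by decide)))
  · intro z hz z' hz' hne y0 a1 a2
    have a3 : Conn st M z z' := Conn.trans a1 (Conn.symm (fun _ _ => st_symm) a2)
    refine ⟨Set.ext fun v => ⟨fun h => Conn.trans (a3.symm fun _ _ => st_symm) h,
      fun h => a3.trans h⟩, c z z', c z' z, fun v hv => ?_⟩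
    have key : ∀ w ∈ T, ∀ w' ∈ T, w ≠ w' → ∀ u, Conn st (M ∩ {v | d w v ≤ N'}) w u →
        Conn st (M \ {v | d w' v < N}) w u := by
      intro w hw w' hw' hne u hu
      refine hu.mono fun x hx => ⟨hx.1, fun hx' => ?_⟩
      have := h3 w hw w' hw' hne
      have := d_tri w x w'
      have := d_comm x w'
      have := hx.2
      simp only [mem_ofPred_eq] at *
      omega
    let S : Set V := {u | Conn st (M ∩ {v | d z v ≤ N'}) z u} ∪
      {u | Conn st (M ∩ {v | d z' v ≤ N'}) z' u}
    by_cases hS : v ∈ S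
    · rcases hS with h | h
      · exact Or.inr (hc z' _ _ (key z hz z' hz' hne v h)).symm
      · exact Or.inl (hc z _ _ (key z' hz' z hz (Ne.symm hne) v h)).symm
    · obtain ⟨u, hu, w, b1, b2, b3⟩ := Conn.last_exit (T := S) hv
        (Or.inl (Conn.refl ⟨a1.1, by simp⟩)) hS
      have b4 : ∀ x, Conn st (M \ S) w x → Conn st M z x := fun x hx =>
        (b1.tail b2 b3.1.1).trans (hx.mono sdiff_subset)
      rcases hu with h | h
      · refine Or.inr (hc z' _ _ ((key z hz z' hz' hne u h).trans ?_)).symm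
        refine Conn.head (key z hz z' hz' hne u h).right b2 (b3.mono_reach fun x hx => ?_)
        exact ⟨hx.right.1, fun hx' => hx.right.2 (Or.inr ((h1 z' hz').2 x hx'
          ((a3.symm fun _ _ => st_symm).trans (b4 x hx))))⟩
      · refine Or.inl (hc z _ _ ((key z' hz' z hz (Ne.symm hne) u h).trans ?_)).symm
        refine Conn.head (key z' hz' z hz (Ne.symm hne) u h).right b2 (b3.mono_reach fun x hx => ?_)
        exact ⟨hx.right.1, fun hx' => hx.right.2 (Or.inl ((h1 z hz).2 x hx' (b4 x hx)))⟩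

lemma tri_shift {N N' : ℕ} {M : Set V} {z : V} (h : Tri N N' ((Equiv.addLeft z) ⁻¹' M) 0) :
    Tri N N' M z := by
  have e : ∀ W a b, Conn st ((Equiv.addLeft z) ⁻¹' W) a b ↔ Conn st W (z + a) (z + b) :=
    conn_equiv (Equiv.addLeft z) fun a b => st_add a b z
  have e' : ∀ W a, Inf st ((Equiv.addLeft z) ⁻¹' W) a ↔ Inf st W (z + a) :=
    inf_equiv (Equiv.addLeft z) fun a b => st_add a b z
  have e1 : (Equiv.addLeft z) ⁻¹' M \ {v | d 0 v < N} =
      (Equiv.addLeft z) ⁻¹' (M \ {v | d z v < N}) := by ext v; simp [d_zero_add]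
  have e2 : (Equiv.addLeft z) ⁻¹' M ∩ {v | d 0 v ≤ N'} =
      (Equiv.addLeft z) ⁻¹' (M ∩ {v | d z v ≤ N'}) := by ext v; simp [d_zero_add]
  obtain ⟨⟨y, h1, h2⟩, h3⟩ := h
  simp only [e1, e2, e, e', add_zero] at h1 h2 h3
  refine ⟨⟨fun i => z + y i, fun i => by simpa only [d_zero_add] using h1 i, h2⟩, fun v hv hc => ?_⟩
  have := h3 (v - z) (by rw [← d_zero_add z]; simpa using hv) (by simpa using hc)
  simpa using this

lemma measurableSet_tri {Ω : Type*} [MeasurableSpace Ω] (W : Ω → Set V)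
    (hW : ∀ v, MeasurableSet {ω | v ∈ W ω}) (N N' : ℕ) : MeasurableSet {ω | Tri N N' (W ω) 0} := by
  have h1 : ∀ v, MeasurableSet {ω | v ∈ W ω \ {v | d 0 v < N}} := fun v =>
    (hW v).inter (MeasurableSet.const _)
  have h2 : ∀ v, MeasurableSet {ω | v ∈ W ω ∩ {v | d 0 v ≤ N'}} := fun v =>
    (hW v).inter (MeasurableSet.const _)
  have c0 := fun a b => measurableSet_setOfPred.1 (measurableSet_conn W hW st a b)
  have c1 := fun a b => measurableSet_setOfPred.1 (measurableSet_conn _ h1 st a b)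
  have c2 := fun a b => measurableSet_setOfPred.1 (measurableSet_conn _ h2 st a b)
  have c3 := fun a => measurableSet_setOfPred.1 (measurableSet_inf _ h1 st a)
  refine measurableSet_setOfPred.2 (Measurable.and (Measurable.exists fun y => Measurable.and
    (Measurable.forall fun i => measurable_const.and ((c0 _ _).and (c3 _)))
    (Measurable.forall fun i => Measurable.forall fun j => measurable_const.imp (c1 _ _).not))
    (Measurable.forall fun v => measurable_const.imp ((c0 _ _).imp (c2 _ _))))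

lemma sum_measure_le {Ω ι : Type*} [MeasurableSpace Ω] (μ : Measure Ω) [IsProbabilityMeasure μ]
    (J : Finset ι) (A : ι → Set Ω) (hA : ∀ j, MeasurableSet (A j)) (K : ℕ)
    (h : ∀ ω, ∀ T ⊆ J, (∀ j ∈ T, ω ∈ A j) → T.card ≤ K) : ∑ j ∈ J, μ (A j) ≤ K := by
  classical
  simp only [← fun j => lintegral_indicator_one (μ := μ) (hA j)]
  rw [← lintegral_finsetSum _ fun j _ => measurable_one.indicator (hA j)]
  refine (lintegral_mono (g := fun _ => K) fun ω => ?_).trans (by simp)
  simp only [indicator, Pi.one_apply, Finset.sum_boole]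
  exact_mod_cast h ω _ (Finset.filter_subset _ _) fun j hj => (Finset.mem_filter.1 hj).2

theorem tri_null {X : Type} [MeasurableSpace X] (m : Measure X) [IsProbabilityMeasure m]
    {O : Set (V → X)} (hO : MeasurableSet O) (N : ℕ) : Pm V m {E | Tri0 N (opn O E) 0} = 0 := by
  have h1 : ∀ N', N ≤ N' → Pm V m {E | Tri N N' (opn O E) 0} = 0 := by
    intro N' hN
    have mT := measurableSet_tri (opn O) (measurableSet_opn hO) N N'
    have key : ∀ k : ℕ, (2 * k + 1 : ℝ) ^ 2 * (Pm V m).real {E | Tri N N' (opn O E) 0} ≤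
        4 * (2 * ((2 * N' + 1) * k + N) + 1) := by
      intro k
      have := sum_measure_le (Pm V m) (box 0 k)
        (fun j => sh (ctr (2 * N' + 1) j) ⁻¹' {E | Tri N N' (opn O E) 0})
        (fun j => measurable_sh _ mT) (4 * (2 * ((2 * N' + 1) * k + N) + 1)) (by
          intro E T hT h
          have inj : Function.Injective (ctr (2 * N' + 1)) := by
            intro a b hab
            have := d_ctr (2 * N' + 1) a b
            rw [hab, d_self] at this
            exact d_eq_zero (by simpa using this.symm)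
          rw [← Finset.card_image_of_injective T inj]
          refine tri_count (N := N) (N' := N') (M := opn O E) _ ?_ ?_ ?_
          · intro z hz
            obtain ⟨j, hj, rfl⟩ := Finset.mem_image.1 hz
            exact tri_shift (by rw [← opn_sh]; exact h j hj)
          · intro z hz
            obtain ⟨j, hj, rfl⟩ := Finset.mem_image.1 hz
            have := d_ctr (2 * N' + 1) 0 j
            rw [ctr_zero] at this
            rw [this]
            exact add_le_add (Nat.mul_le_mul_left _ (by simpa using hT hj)) le_rfl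
          · intro z hz z' hz' hne
            obtain ⟨j, hj, rfl⟩ := Finset.mem_image.1 hz
            obtain ⟨j', hj', rfl⟩ := Finset.mem_image.1 hz'
            rw [d_ctr]
            have : d j j' ≠ 0 := fun h => hne (by rw [d_eq_zero h])
            have : (2 * N' + 1) * 1 ≤ (2 * N' + 1) * d j j' := Nat.mul_le_mul_left _ (by omega)
            omega)
      simp only [(mp_sh m _).measure_preimage mT.nullMeasurableSet, Finset.sum_const, card_box,
        nsmul_eq_mul] at this
      have h2 := ENNReal.toReal_mono (ENNReal.natCast_ne_top _) this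
      rw [ENNReal.toReal_mul, ENNReal.toReal_natCast, ENNReal.toReal_natCast] at h2
      exact_mod_cast h2
    rw [← measureReal_eq_zero_iff]
    by_contra hne
    set p := (Pm V m).real {E | Tri N N' (opn O E) 0}
    have p0 : 0 < p := lt_of_le_of_ne measureReal_nonneg (Ne.symm hne)
    obtain ⟨k, hk⟩ := exists_nat_gt (8 * (2 * N' + 1) / p)
    rw [div_lt_iff₀ p0] at hk
    have h2 := key k
    have hN' : (N : ℝ) ≤ N' := by exact_mod_cast hN
    have k0 : (0 : ℝ) ≤ k := by positivity
    have N0 : (0 : ℝ) ≤ N' := by positivity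
    nlinarith [mul_nonneg k0 p0.le, mul_nonneg k0 N0, mul_le_mul_of_nonneg_left hk.le k0]
  refine measure_mono_null (t := ⋃ N', ⋃ (_ : N ≤ N'), {E | Tri N N' (opn O E) 0}) ?_
    (measure_iUnion_null fun N' => measure_iUnion_null (h1 N'))
  intro E hE
  simpa only [mem_iUnion, exists_prop, mem_ofPred_eq] using tri_exists hE

end Pool.Agent.EB
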